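import Mathlib
import Pool.Agent.Hp22AA.Defs

/-!
Definitions for quantum query algorithms with a bounded number of rounds of parallel queries, and
for decision trees.
-/

set_option autoImplicit false

namespace Pool.Agent.H2AD

/-- The state space with orthonormal basis `κ`. -/
abbrev Sp (κ : Type) [Fintype κ] : Type := EuclideanSpace ℂ κ

/-- The diagonal operator with real entries `c k`. -/
noncomputable def dg {κ : Type} [Fintype κ] (c : κ → ℝ) : Sp κ →L[ℂ] Sp κ :=
  LinearMap.toContinuousLinearMap
    { toFun := fun v => WithLp.toLp 2 (fun k => (c k : ℂ) * v k)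
      map_add' := by
        intro v w
        ext k
        simp [mul_add]
      map_smul' := by
        intro a v
        ext k
        simp
        ring }

/-- A quantum query algorithm with input `x : ι → {1, -1}` and state space with basis `κ`: the
starting state, for each round `s` and each basis vector `k` the set `Q s k` of at most `T`
positions which are queried in parallel, and the operator `U s` (a unitary operator, or any
contraction) applied after the queries of round `s`. -/
structure Alg (ι κ : Type) [Fintype κ] (T : ℕ) where
  start : Sp κ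
  norm_start : ‖start‖ ≤ 1
  Q : ℕ → κ → Finset ι
  card_Q : ∀ s k, (Q s k).card ≤ T
  U : ℕ → Sp κ →L[ℂ] Sp κ
  norm_U : ∀ s, ‖U s‖ ≤ 1

variable {ι κ : Type} [Fintype κ] {T : ℕ}

/-- The queries of round `s`: the basis vector `k` is multiplied by the product of the inputs at
the positions in `Q s k`. -/
noncomputable def Alg.oracle (A : Alg ι κ T) (s : ℕ) (x : ι → ℤˣ) : Sp κ →L[ℂ] Sp κ :=
  dg (fun k => ∏ i ∈ A.Q s k, ((x i : ℤ) : ℝ))

/-- The state after `s` rounds on input `x`. -/
noncomputable def Alg.state (A : Alg ι κ T) : ℕ → (ι → ℤˣ) → Sp κ
  | 0, _ => A.start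
  | s + 1, x => A.U s (A.oracle s x (Alg.state A s x))

/-- The expectation of the observable `M` in the state after `r` rounds. If `M` is the projection
on a set of basis vectors, this is the acceptance probability. -/
noncomputable def Alg.value (A : Alg ι κ T) (M : Sp κ →L[ℂ] Sp κ) (r : ℕ) (x : ι → ℤˣ) : ℝ :=
  (inner ℂ (A.state r x) (M (A.state r x))).re

/-- `g` is computed by a decision tree of depth at most `D` (with real labels at the leaves). -/
inductive DT {ι : Type} : ℕ → ((ι → ℤˣ) → ℝ) → Prop
  | const (D : ℕ) (c : ℝ) : DT D (fun _ => c)
  | node (D : ℕ) (i : ι) (g h : (ι → ℤˣ) → ℝ) :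
      DT D g → DT D h → DT (D + 1) (fun x => if x i = 1 then g x else h x)

end Pool.Agent.H2AD
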