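import Mathlib

/-!
The pointwise bound for the derivatives of the value of an algorithm, in an abstract Hilbert space.
-/

set_option autoImplicit false

namespace Pool.Agent.H2AD

open Finset

/-- triangle inequality in `ℓ²` -/
theorem l2tri {ι : Type*} (J : Finset ι) (a c : ι → ℝ) (A C : ℝ) (hA : 0 ≤ A) (hC : 0 ≤ C)
    (h1 : ∑ j ∈ J, a j ^ 2 ≤ A ^ 2) (h2 : ∑ j ∈ J, c j ^ 2 ≤ C ^ 2) :
    ∑ j ∈ J, (a j + c j) ^ 2 ≤ (A + C) ^ 2 := by
  have h3 : (∑ j ∈ J, a j * c j) ≤ A * C := by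
    refine le_trans (le_abs_self _) (abs_le_of_sq_le_sq ?_ (mul_nonneg hA hC))
    calc (∑ j ∈ J, a j * c j) ^ 2 ≤ (∑ j ∈ J, a j ^ 2) * ∑ j ∈ J, c j ^ 2 :=
          Finset.sum_mul_sq_le_sq_mul_sq J a c
      _ ≤ A ^ 2 * C ^ 2 := mul_le_mul h1 h2 (Finset.sum_nonneg fun _ _ => sq_nonneg _)
          (sq_nonneg _)
      _ = (A * C) ^ 2 := by ring
  have h4 : ∑ j ∈ J, (a j + c j) ^ 2 =
      ∑ j ∈ J, a j ^ 2 + 2 * ∑ j ∈ J, a j * c j + ∑ j ∈ J, c j ^ 2 := by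
    rw [Finset.mul_sum, ← Finset.sum_add_distrib, ← Finset.sum_add_distrib]
    exact Finset.sum_congr rfl fun j _ => by ring
  rw [h4]
  nlinarith

/-- the same with a bound for the terms -/
theorem l2tri' {ι : Type*} (J : Finset ι) (b a c : ι → ℝ) (A C : ℝ) (hA : 0 ≤ A) (hC : 0 ≤ C)
    (hb : ∀ j ∈ J, |b j| ≤ a j + c j)
    (h1 : ∑ j ∈ J, a j ^ 2 ≤ A ^ 2) (h2 : ∑ j ∈ J, c j ^ 2 ≤ C ^ 2) :
    ∑ j ∈ J, b j ^ 2 ≤ (A + C) ^ 2 := by
  refine le_trans (Finset.sum_le_sum fun j hj => ?_) (l2tri J a c A C hA hC h1 h2)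
  rw [← sq_abs]
  exact pow_le_pow_left₀ (abs_nonneg _) (hb j hj) 2

variable {ι : Type*} {E : Type*} [NormedAddCommGroup E] [InnerProductSpace ℂ E] [CompleteSpace E]

/-- The data of the run of an algorithm on an input and on its neighbours. -/
structure Run (J : Finset ι) (T m : ℝ) (r : ℕ) (K : ℕ → E →L[ℂ] E) (P : ℕ → ι → E →L[ℂ] E)
    (v : ℕ → E) (v' : ι → ℕ → E) : Prop where
  T0 : 0 ≤ T
  m0 : 0 ≤ m
  hK : ∀ s, ‖K s‖ ≤ 1
  sym : ∀ s j x y, (inner ℂ (P s j x) y) = (inner ℂ x (P s j y))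
  idem : ∀ s j x, P s j (P s j x) = P s j x
  hv : ∀ s, v (s + 1) = K s (v s)
  hv' : ∀ s j, v' j (s + 1) = K s (v' j s - (2 : ℂ) • P s j (v' j s))
  h0 : ∀ j, v' j 0 = v 0
  n0 : ‖v 0‖ ≤ 1
  hT : ∀ s w, ∑ j ∈ J, ‖P s j w‖ ^ 2 ≤ T * ‖w‖ ^ 2
  hm : ∀ s < r, ∀ j ∈ J, ‖P s j (v s)‖ ^ 2 ≤ m

namespace Run

variable {J : Finset ι} {T m : ℝ} {r : ℕ} {K : ℕ → E →L[ℂ] E} {P : ℕ → ι → E →L[ℂ] E}
  {v : ℕ → E} {v' : ι → ℕ → E}

theorem contr {A : E →L[ℂ] E} (hA : ‖A‖ ≤ 1) (w : E) : ‖A w‖ ≤ ‖w‖ := by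
  have h := A.le_opNorm w
  have h2 := mul_le_mul_of_nonneg_right hA (norm_nonneg w)
  linarith

theorem v_le (R : Run J T m r K P v v') (s : ℕ) : ‖v s‖ ≤ 1 := by
  induction s with
  | zero => exact R.n0
  | succ s ih =>
    rw [R.hv]
    exact (contr (R.hK s) _).trans ih

theorem v'_succ (R : Run J T m r K P v v') (s : ℕ) (j : ι) :
    v' j (s + 1) - v (s + 1) = K s ((v' j s - v s) - (2 : ℂ) • P s j (v' j s - v s) -
      (2 : ℂ) • P s j (v s)) := by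
  rw [R.hv, R.hv', ← map_sub]
  congr 1
  rw [map_sub, smul_sub]
  abel

theorem refl_norm (R : Run J T m r K P v v') (s : ℕ) (j : ι) (x : E) :
    ‖x - (2 : ℂ) • P s j x‖ = ‖x‖ := by
  have h : ‖x - (2 : ℂ) • P s j x‖ ^ 2 = ‖x‖ ^ 2 := by
    rw [@norm_sub_sq ℂ, inner_smul_right, norm_smul]
    have h2 : (inner ℂ x (P s j x)) = (inner ℂ (P s j x) (P s j x)) := by
      rw [R.sym s j x (P s j x), R.idem]
    rw [h2, inner_self_eq_norm_sq_to_K]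
    have h3 : RCLike.re ((2 : ℂ) * ((‖P s j x‖ : ℂ)) ^ 2) = 2 * ‖P s j x‖ ^ 2 := by
      have : ((2 : ℂ) * ((‖P s j x‖ : ℂ)) ^ 2) = ((2 * ‖P s j x‖ ^ 2 : ℝ) : ℂ) := by push_cast; ring
      rw [this]
      exact RCLike.ofReal_re _
    have h4 : ‖(2 : ℂ)‖ = 2 := by simp
    erw [h3]
    rw [h4]
    ring
  exact (pow_left_inj₀ (norm_nonneg _) (norm_nonneg _) two_ne_zero).1 h

theorem norm_step (R : Run J T m r K P v v') (s : ℕ) (j : ι) :
    ‖v' j (s + 1) - v (s + 1)‖ ≤ ‖v' j s - v s‖ + 2 * ‖P s j (v s)‖ := by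
  rw [R.v'_succ]
  refine (contr (R.hK s) _).trans ((norm_sub_le _ _).trans ?_)
  rw [R.refl_norm, norm_smul]
  simp

theorem norm_sum (R : Run J T m r K P v v') (s : ℕ) (j : ι) :
    ‖v' j s - v s‖ ≤ 2 * ∑ t ∈ range s, ‖P t j (v t)‖ := by
  induction s with
  | zero => simp [R.h0]
  | succ s ih =>
    rw [Finset.sum_range_succ, mul_add]
    exact (R.norm_step s j).trans (by linarith)

theorem norm_le_sqrt (R : Run J T m r K P v v') (s : ℕ) (hs : s ≤ r) (j : ι) (hj : j ∈ J) :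
    ‖v' j s - v s‖ ≤ 2 * s * Real.sqrt m := by
  refine (R.norm_sum s j).trans ?_
  have : ∑ t ∈ range s, ‖P t j (v t)‖ ≤ ∑ t ∈ range s, Real.sqrt m := by
    refine Finset.sum_le_sum fun t ht => Real.le_sqrt_of_sq_le ?_
    exact R.hm t (lt_of_lt_of_le (Finset.mem_range.1 ht) hs) j hj
  rw [Finset.sum_const, card_range, nsmul_eq_mul] at this
  linarith

theorem sum_norm_sq (R : Run J T m r K P v v') (s : ℕ) :
    ∑ j ∈ J, ‖v' j s - v s‖ ^ 2 ≤ 4 * (s : ℝ) ^ 2 * T := by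
  have h1 : ∀ j ∈ J, ‖v' j s - v s‖ ^ 2 ≤ 4 * (s * ∑ t ∈ range s, ‖P t j (v t)‖ ^ 2) := by
    intro j _
    have h2 := pow_le_pow_left₀ (norm_nonneg _) (R.norm_sum s j) 2
    have h3 := sq_sum_le_card_mul_sum_sq (s := range s) (f := fun t => ‖P t j (v t)‖)
    rw [card_range] at h3
    nlinarith
  refine (Finset.sum_le_sum h1).trans ?_
  rw [← Finset.mul_sum, ← Finset.mul_sum, Finset.sum_comm]
  have h4 : ∀ t ∈ range s, ∑ j ∈ J, ‖P t j (v t)‖ ^ 2 ≤ T := by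
    intro t _
    refine (R.hT t (v t)).trans ?_
    have : ‖v t‖ ^ 2 ≤ 1 := pow_le_one₀ (norm_nonneg _) (R.v_le t)
    nlinarith [R.T0]
  have h5 := Finset.sum_le_sum h4
  rw [Finset.sum_const, card_range, nsmul_eq_mul] at h5
  have h6 : (0 : ℝ) ≤ s := Nat.cast_nonneg s
  nlinarith

theorem inner_bound (R : Run J T m r K P v v') (s : ℕ) (hs : s ≤ r) (w : E) :
    ∑ j ∈ J, ‖(inner ℂ w (v' j s - v s))‖ ^ 2 ≤ (2 * (s : ℝ) ^ 2 * Real.sqrt (T * m) * ‖w‖) ^ 2 := by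
  induction s generalizing w with
  | zero => simp [R.h0]
  | succ s ih =>
    set w' := (ContinuousLinearMap.adjoint (K s)) w with hw'
    have hw'n : ‖w'‖ ≤ ‖w‖ := by
      apply contr
      rw [LinearIsometryEquiv.norm_map]
      exact R.hK s
    have hm0 : 0 ≤ Real.sqrt m := Real.sqrt_nonneg _
    have hbd : ∀ j ∈ J, |‖(inner ℂ w (v' j (s + 1) - v (s + 1)))‖| ≤
        ‖(inner ℂ w' (v' j s - v s))‖ + (4 * s + 2) * Real.sqrt m * ‖P s j w'‖ := by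
      intro j hj
      rw [abs_of_nonneg (norm_nonneg _), R.v'_succ, ← ContinuousLinearMap.adjoint_inner_left,
        ← hw', inner_sub_right, inner_sub_right, inner_smul_right, inner_smul_right]
      have e1 : ‖(inner ℂ w' (P s j (v' j s - v s)))‖ ≤ ‖P s j w'‖ * (2 * s * Real.sqrt m) := by
        rw [← R.sym]
        refine (norm_inner_le_norm _ _).trans ?_
        exact mul_le_mul_of_nonneg_left (R.norm_le_sqrt s (by omega) j hj) (norm_nonneg _)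
      have e2 : ‖(inner ℂ w' (P s j (v s)))‖ ≤ ‖P s j w'‖ * Real.sqrt m := by
        rw [← R.idem, ← R.sym]
        refine (norm_inner_le_norm _ _).trans ?_
        exact mul_le_mul_of_nonneg_left
          (Real.le_sqrt_of_sq_le (R.hm s (by omega) j hj)) (norm_nonneg _)
      have e3 := norm_sub_le ((inner ℂ w' (v' j s - v s)) - 2 * (inner ℂ w' (P s j (v' j s - v s))))
        (2 * (inner ℂ w' (P s j (v s))))
      have e4 := norm_sub_le ((inner ℂ w' (v' j s - v s))) (2 * (inner ℂ w' (P s j (v' j s - v s))))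
      rw [norm_mul] at e3 e4
      have e5 : ‖(2 : ℂ)‖ = 2 := by simp
      rw [e5] at e3 e4
      nlinarith
    have h1 := ih (by omega) w'
    have h2 : ∑ j ∈ J, ((4 * (s : ℝ) + 2) * Real.sqrt m * ‖P s j w'‖) ^ 2 ≤
        ((4 * s + 2) * Real.sqrt (T * m) * ‖w'‖) ^ 2 := by
      have e1 : ∀ j ∈ J, ((4 * (s : ℝ) + 2) * Real.sqrt m * ‖P s j w'‖) ^ 2 =
          ((4 * s + 2) ^ 2 * m) * ‖P s j w'‖ ^ 2 := by
        intro j _
        rw [mul_pow, mul_pow, Real.sq_sqrt R.m0]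
      rw [Finset.sum_congr rfl e1, ← Finset.mul_sum]
      have e2 := mul_le_mul_of_nonneg_left (R.hT s w')
        (mul_nonneg (sq_nonneg (4 * (s : ℝ) + 2)) R.m0)
      refine e2.trans (le_of_eq ?_)
      rw [mul_pow, mul_pow, Real.sq_sqrt (mul_nonneg R.T0 R.m0)]
      ring
    have h3 := l2tri' J (fun j => ‖(inner ℂ w (v' j (s + 1) - v (s + 1)))‖)
      (fun j => ‖(inner ℂ w' (v' j s - v s))‖) (fun j => (4 * s + 2) * Real.sqrt m * ‖P s j w'‖)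
      (2 * (s : ℝ) ^ 2 * Real.sqrt (T * m) * ‖w'‖) ((4 * s + 2) * Real.sqrt (T * m) * ‖w'‖)
      (by positivity) (by positivity) hbd h1 h2
    refine h3.trans (pow_le_pow_left₀ (by positivity) ?_ 2)
    have h4 : 2 * (s : ℝ) ^ 2 * Real.sqrt (T * m) * ‖w'‖ + (4 * s + 2) * Real.sqrt (T * m) * ‖w'‖ =
        2 * ((s + 1 : ℕ) : ℝ) ^ 2 * Real.sqrt (T * m) * ‖w'‖ := by
      push_cast; ring
    rw [h4]
    exact mul_le_mul_of_nonneg_left hw'n (by positivity)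

/-- the pointwise bound for `⟨v, M v⟩` -/
theorem quad_bound (R : Run J T m r K P v v') (M : E →L[ℂ] E) (c : ℝ) (hc : ‖M‖ ≤ c) :
    ∑ j ∈ J, (((inner ℂ (v' j r) (M (v' j r)))).re - ((inner ℂ (v r) (M (v r)))).re) ^ 2 ≤
      64 * (r : ℝ) ^ 4 * c ^ 2 * (T * m) := by
  have hc0 : 0 ≤ c := (norm_nonneg _).trans hc
  have hvr := R.v_le r
  set a := M (v r) with ha
  set b := (ContinuousLinearMap.adjoint M) (v r) with hb
  have ha1 : ‖a‖ ≤ c := by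
    refine (M.le_opNorm _).trans ?_
    nlinarith [norm_nonneg (v r), norm_nonneg M]
  have hb1 : ‖b‖ ≤ c := by
    refine ((ContinuousLinearMap.adjoint M).le_opNorm _).trans ?_
    rw [LinearIsometryEquiv.norm_map]
    nlinarith [norm_nonneg (v r), norm_nonneg M]
  have hTm : 0 ≤ Real.sqrt (T * m) := Real.sqrt_nonneg _
  have hsq : Real.sqrt (T * m) ^ 2 = T * m := Real.sq_sqrt (mul_nonneg R.T0 R.m0)
  have hsm : Real.sqrt m ^ 2 = m := Real.sq_sqrt R.m0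
  -- the three parts
  have p1 : ∑ j ∈ J, ‖(inner ℂ a (v' j r - v r))‖ ^ 2 ≤ (2 * (r : ℝ) ^ 2 * Real.sqrt (T * m) * c) ^ 2 := by
    refine (R.inner_bound r le_rfl a).trans (pow_le_pow_left₀ (by positivity) ?_ 2)
    exact mul_le_mul_of_nonneg_left ha1 (by positivity)
  have p2 : ∑ j ∈ J, ‖(inner ℂ b (v' j r - v r))‖ ^ 2 ≤ (2 * (r : ℝ) ^ 2 * Real.sqrt (T * m) * c) ^ 2 := by
    refine (R.inner_bound r le_rfl b).trans (pow_le_pow_left₀ (by positivity) ?_ 2)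
    exact mul_le_mul_of_nonneg_left hb1 (by positivity)
  have p3 : ∑ j ∈ J, (c * ‖v' j r - v r‖ ^ 2) ^ 2 ≤ (4 * (r : ℝ) ^ 2 * Real.sqrt (T * m) * c) ^ 2 := by
    have e1 : ∀ j ∈ J, (c * ‖v' j r - v r‖ ^ 2) ^ 2 ≤
        (c ^ 2 * (4 * (r : ℝ) ^ 2 * m)) * ‖v' j r - v r‖ ^ 2 := by
      intro j hj
      have e2 := pow_le_pow_left₀ (norm_nonneg _) (R.norm_le_sqrt r le_rfl j hj) 2
      have e3 : (2 * (r : ℝ) * Real.sqrt m) ^ 2 = 4 * (r : ℝ) ^ 2 * m := by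
        rw [mul_pow, hsm]; ring
      rw [e3] at e2
      have e4 : (c * ‖v' j r - v r‖ ^ 2) ^ 2 =
          (c ^ 2 * ‖v' j r - v r‖ ^ 2) * ‖v' j r - v r‖ ^ 2 := by ring
      rw [e4]
      exact mul_le_mul_of_nonneg_right (mul_le_mul_of_nonneg_left e2 (sq_nonneg _)) (sq_nonneg _)
    refine (Finset.sum_le_sum e1).trans ?_
    rw [← Finset.mul_sum]
    have h5 : 0 ≤ c ^ 2 * (4 * (r : ℝ) ^ 2 * m) :=
      mul_nonneg (sq_nonneg _) (mul_nonneg (by positivity) R.m0)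
    refine (mul_le_mul_of_nonneg_left (R.sum_norm_sq r) h5).trans (le_of_eq ?_)
    calc c ^ 2 * (4 * (r : ℝ) ^ 2 * m) * (4 * (r : ℝ) ^ 2 * T) = 16 * (r : ℝ) ^ 4 * c ^ 2 * (T * m) := by
          ring
      _ = 16 * (r : ℝ) ^ 4 * c ^ 2 * Real.sqrt (T * m) ^ 2 := by rw [hsq]
      _ = _ := by ring
  have q1 := l2tri J _ _ _ _ (by positivity) (by positivity) p1 p2
  have q2 := l2tri' J (fun j => ((inner ℂ (v' j r) (M (v' j r)))).re - ((inner ℂ (v r) (M (v r)))).re)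
    (fun j => ‖(inner ℂ a (v' j r - v r))‖ + ‖(inner ℂ b (v' j r - v r))‖) (fun j => c * ‖v' j r - v r‖ ^ 2)
    _ _ (by positivity) (by positivity) ?_ q1 p3
  · refine q2.trans (le_of_eq ?_)
    calc (2 * (r : ℝ) ^ 2 * Real.sqrt (T * m) * c + 2 * (r : ℝ) ^ 2 * Real.sqrt (T * m) * c +
          4 * (r : ℝ) ^ 2 * Real.sqrt (T * m) * c) ^ 2 =
          64 * (r : ℝ) ^ 4 * c ^ 2 * Real.sqrt (T * m) ^ 2 := by ring
      _ = _ := by rw [hsq]
  · intro j _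
    set d := v' j r - v r with hd
    have e0 : v' j r = v r + d := by rw [hd]; abel
    rw [e0]
    have e1 : (inner ℂ (v r + d) (M (v r + d))) = (inner ℂ (v r) (M (v r))) + (inner ℂ (v r) (M d)) + (inner ℂ d (M (v r))) + (inner ℂ d (M d)) := by
      rw [map_add, inner_add_left, inner_add_right, inner_add_right]
      ring
    have e2 : (inner ℂ (v r) (M d)) = (inner ℂ b d) := by
      rw [hb, ContinuousLinearMap.adjoint_inner_left]
    rw [e1, e2]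
    simp only [Complex.add_re]
    have f1 : |((inner ℂ b d)).re| ≤ ‖(inner ℂ b d)‖ := Complex.abs_re_le_norm _
    have f2 : |((inner ℂ d (M (v r)))).re| ≤ ‖(inner ℂ a d)‖ := by
      rw [← ha, norm_inner_symm]
      exact Complex.abs_re_le_norm _
    have f3 : |((inner ℂ d (M d))).re| ≤ c * ‖d‖ ^ 2 := by
      refine (Complex.abs_re_le_norm _).trans ((norm_inner_le_norm _ _).trans ?_)
      have := M.le_opNorm d
      have h7 : ‖M‖ * ‖d‖ ≤ c * ‖d‖ := mul_le_mul_of_nonneg_right hc (norm_nonneg _)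
      nlinarith [norm_nonneg d]
    rw [abs_le] at f1 f2 f3 ⊢
    constructor <;> linarith [f1.1, f1.2, f2.1, f2.2, f3.1, f3.2]

end Run

end Pool.Agent.H2AD
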