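import Mathlib
import Pool.Agent.Hp22AA.Main
import Pool.Agent.H2AD.Defs
import Pool.Agent.H2AD.Point

/-!
The pointwise bounds for the derivatives of the value and of the query probabilities of an
algorithm.
-/

set_option autoImplicit false

namespace Pool.Agent.H2AD

open Finset Pool.Agent.Hp22AAD Pool.Agent.Hp22AA

section diag

variable {κ : Type} [Fintype κ]

theorem dg_apply (c : κ → ℝ) (v : Sp κ) (k : κ) : (dg c v) k = (c k : ℂ) * v k := rfl

theorem dg_dg (c d : κ → ℝ) (v : Sp κ) : dg c (dg d v) = dg (fun k => c k * d k) v := by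
  ext k
  simp only [dg_apply, Complex.ofReal_mul]
  ring

theorem dg_sym (c : κ → ℝ) (v w : Sp κ) : inner ℂ (dg c v) w = inner ℂ v (dg c w) := by
  simp only [PiLp.inner_apply, dg_apply]
  refine Finset.sum_congr rfl fun k _ => ?_
  simp only [RCLike.inner_apply, map_mul, Complex.conj_ofReal]
  ring

theorem norm_sq_eq (v : Sp κ) : ‖v‖ ^ 2 = ∑ k, ‖v k‖ ^ 2 := EuclideanSpace.norm_sq_eq v

theorem norm_sq_dg (c : κ → ℝ) (v : Sp κ) : ‖dg c v‖ ^ 2 = ∑ k, c k ^ 2 * ‖v k‖ ^ 2 := by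
  rw [norm_sq_eq]
  refine Finset.sum_congr rfl fun k _ => ?_
  rw [dg_apply, norm_mul, mul_pow, Complex.norm_real, Real.norm_eq_abs, sq_abs]

theorem norm_dg_le (c : κ → ℝ) (C : ℝ) (hC : 0 ≤ C) (h : ∀ k, |c k| ≤ C) : ‖dg c‖ ≤ C := by
  refine ContinuousLinearMap.opNorm_le_bound _ hC fun v => ?_
  rw [← pow_le_pow_iff_left₀ (norm_nonneg _) (mul_nonneg hC (norm_nonneg _)) two_ne_zero,
    norm_sq_dg, mul_pow, norm_sq_eq, Finset.mul_sum]
  refine Finset.sum_le_sum fun k _ => mul_le_mul_of_nonneg_right ?_ (sq_nonneg _)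
  rw [← sq_abs]
  exact pow_le_pow_left₀ (abs_nonneg _) (h k) 2

theorem inner_dg (c : κ → ℝ) (v : Sp κ) : (inner ℂ v (dg c v)).re = ∑ k, c k * ‖v k‖ ^ 2 := by
  simp only [PiLp.inner_apply, dg_apply, RCLike.inner_apply]
  rw [Complex.re_sum]
  refine Finset.sum_congr rfl fun k _ => ?_
  rw [mul_assoc, Complex.mul_conj, Complex.normSq_eq_norm_sq, ← Complex.ofReal_mul,
    Complex.ofReal_re]

end diag

section alg

variable {ι κ : Type} [Fintype ι] [DecidableEq ι] [Fintype κ] {T : ℕ}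

/-- the projection on the basis vectors which query `j` in round `s` -/
noncomputable def Alg.prj (A : Alg ι κ T) (s : ℕ) (j : ι) : Sp κ →L[ℂ] Sp κ :=
  dg (fun k => if j ∈ A.Q s k then 1 else 0)

/-- the query probability -/
noncomputable def Alg.p (A : Alg ι κ T) (s : ℕ) (j : ι) (x : ι → ℤˣ) : ℝ :=
  ‖A.prj s j (A.state s x)‖ ^ 2

theorem p_eq (A : Alg ι κ T) (s : ℕ) (j : ι) (x : ι → ℤˣ) :
    A.p s j x = ∑ k, (if j ∈ A.Q s k then 1 else 0) * ‖A.state s x k‖ ^ 2 := by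
  unfold Alg.p Alg.prj
  rw [norm_sq_dg]
  refine Finset.sum_congr rfl fun k _ => ?_
  by_cases h : j ∈ A.Q s k <;> simp [h]

theorem sum_prj_le (A : Alg ι κ T) (s : ℕ) (J : Finset ι) (w : Sp κ) :
    ∑ j ∈ J, ‖A.prj s j w‖ ^ 2 ≤ T * ‖w‖ ^ 2 := by
  have h1 : ∀ j ∈ J, ‖A.prj s j w‖ ^ 2 = ∑ k, (if j ∈ A.Q s k then 1 else 0) * ‖w k‖ ^ 2 := by
    intro j _
    unfold Alg.prj
    rw [norm_sq_dg]
    refine Finset.sum_congr rfl fun k _ => ?_
    by_cases h : j ∈ A.Q s k <;> simp [h]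
  rw [Finset.sum_congr rfl h1, Finset.sum_comm, norm_sq_eq, Finset.mul_sum]
  refine Finset.sum_le_sum fun k _ => ?_
  rw [← Finset.sum_mul]
  refine mul_le_mul_of_nonneg_right ?_ (sq_nonneg _)
  rw [Finset.sum_ite_mem, Finset.sum_const, nsmul_eq_mul, mul_one]
  have h2 : (J ∩ A.Q s k).card ≤ T :=
    (Finset.card_le_card Finset.inter_subset_right).trans (A.card_Q s k)
  exact_mod_cast h2

/-- change the sign of one coordinate -/
def nb (j : ι) (x : ι → ℤˣ) : ι → ℤˣ := Function.update x j (- x j)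

theorem prod_nb (S : Finset ι) (j : ι) (x : ι → ℤˣ) :
    ∏ i ∈ S, ((nb j x i : ℤ) : ℝ) =
      (∏ i ∈ S, ((x i : ℤ) : ℝ)) * (1 - 2 * (if j ∈ S then 1 else 0)) := by
  by_cases h : j ∈ S
  · rw [if_pos h, ← Finset.mul_prod_erase _ _ h, ← Finset.mul_prod_erase _ (fun i => ((x i : ℤ) : ℝ)) h]
    have h1 : ∏ i ∈ S.erase j, ((nb j x i : ℤ) : ℝ) = ∏ i ∈ S.erase j, ((x i : ℤ) : ℝ) := by
      refine Finset.prod_congr rfl fun i hi => ?_
      unfold nb
      rw [Function.update_of_ne (Finset.ne_of_mem_erase hi)]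
    rw [h1]
    unfold nb
    rw [Function.update_self]
    push_cast
    ring
  · rw [if_neg h, mul_zero, sub_zero, mul_one]
    refine Finset.prod_congr rfl fun i hi => ?_
    unfold nb
    rw [Function.update_of_ne]
    rintro rfl
    exact h hi

theorem norm_oracle (A : Alg ι κ T) (s : ℕ) (x : ι → ℤˣ) : ‖A.oracle s x‖ ≤ 1 := by
  refine norm_dg_le _ 1 zero_le_one fun k => ?_
  rw [Finset.abs_prod]
  refine Finset.prod_le_one (fun _ _ => abs_nonneg _) fun i _ => ?_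
  rcases Int.units_eq_one_or (x i) with h | h <;> simp [h]

theorem oracle_nb (A : Alg ι κ T) (s : ℕ) (x : ι → ℤˣ) (j : ι) (w : Sp κ) :
    A.oracle s (nb j x) w = A.oracle s x (w - (2 : ℂ) • A.prj s j w) := by
  ext k
  unfold Alg.oracle Alg.prj
  rw [dg_apply, dg_apply, PiLp.sub_apply, PiLp.smul_apply, dg_apply, prod_nb]
  push_cast
  simp only [smul_eq_mul]
  split_ifs <;> ring

theorem state_le (A : Alg ι κ T) (s : ℕ) (x : ι → ℤˣ) : ‖A.state s x‖ ≤ 1 := by
  induction s with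
  | zero => exact A.norm_start
  | succ s ih =>
    exact (Run.contr (A.norm_U s) _).trans ((Run.contr (norm_oracle A s x) _).trans ih)

theorem sum_p_le (A : Alg ι κ T) (s : ℕ) (x : ι → ℤˣ) : ∑ j, A.p s j x ≤ T := by
  refine (sum_prj_le A s univ (A.state s x)).trans ?_
  have h : ‖A.state s x‖ ^ 2 ≤ 1 := pow_le_one₀ (norm_nonneg _) (state_le A s x)
  have h2 : (0 : ℝ) ≤ T := Nat.cast_nonneg T
  nlinarith

theorem p_nonneg (A : Alg ι κ T) (s : ℕ) (j : ι) (x : ι → ℤˣ) : 0 ≤ A.p s j x := sq_nonneg _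

theorem alg_run (A : Alg ι κ T) (r : ℕ) (x : ι → ℤˣ) (J : Finset ι) (m : ℝ) (hm0 : 0 ≤ m)
    (hm : ∀ s < r, ∀ j ∈ J, A.p s j x ≤ m) :
    Run J T m r (fun s => (A.U s).comp (A.oracle s x)) (fun s j => A.prj s j)
      (fun s => A.state s x) (fun j s => A.state s (nb j x)) where
  T0 := Nat.cast_nonneg T
  m0 := hm0
  hK := by
    intro s
    refine (ContinuousLinearMap.opNorm_comp_le _ _).trans ?_
    exact mul_le_one₀ (A.norm_U s) (norm_nonneg _) (norm_oracle A s x)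
  sym := fun s j v w => dg_sym _ v w
  idem := by
    intro s j v
    unfold Alg.prj
    rw [dg_dg]
    congr 1
    congr 1
    funext k
    by_cases h : j ∈ A.Q s k <;> simp [h]
  hv := fun s => rfl
  hv' := by
    intro s j
    change A.U s (A.oracle s (nb j x) (A.state s (nb j x))) = _
    rw [oracle_nb]
    rfl
  h0 := fun j => rfl
  n0 := A.norm_start
  hT := fun s w => sum_prj_le A s J w
  hm := hm

theorem dd_sq (j : ι) (f : (ι → ℤˣ) → ℝ) (x : ι → ℤˣ) :
    dd j f x ^ 2 = (f (nb j x) - f x) ^ 2 / 4 := by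
  unfold dd nb
  rcases Int.units_eq_one_or (x j) with h | h
  · have h1 : Function.update x j 1 = x := by rw [← h, Function.update_eq_self]
    rw [h1, h]
    ring
  · have h1 : Function.update x j (-1) = x := by rw [← h, Function.update_eq_self]
    rw [h1, h, neg_neg]
    ring

/-- the pointwise bound for the value -/
theorem value_bound (A : Alg ι κ T) (M : Sp κ →L[ℂ] Sp κ) (c : ℝ) (hc : ‖M‖ ≤ c) (r : ℕ)
    (x : ι → ℤˣ) (J : Finset ι) (m : ℝ) (hm0 : 0 ≤ m)
    (hm : ∀ s < r, ∀ j ∈ J, A.p s j x ≤ m) :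
    ∑ j ∈ J, dd j (A.value M r) x ^ 2 ≤ 16 * (r : ℝ) ^ 4 * c ^ 2 * (T * m) := by
  have h := (alg_run A r x J m hm0 hm).quad_bound M c hc
  simp only [dd_sq]
  rw [← Finset.sum_div, div_le_iff₀ (by norm_num)]
  refine le_trans (le_of_eq ?_) (h.trans (le_of_eq ?_))
  · rfl
  · ring

/-- the mean square of a random signed sum -/
theorem av_signed (a : ι → ℝ) : av (fun σ : ι → ℤˣ => (∑ j, sv (σ j) * a j) ^ 2) = ∑ j, a j ^ 2 := by
  have h1 : ∀ σ : ι → ℤˣ, (∑ j, sv (σ j) * a j) ^ 2 =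
      ∑ i, ∑ j, (a i * a j) * (chi {i} σ * chi {j} σ) := by
    intro σ
    rw [sq, Finset.sum_mul_sum]
    refine Finset.sum_congr rfl fun i _ => Finset.sum_congr rfl fun j _ => ?_
    simp only [chi, Finset.prod_singleton]
    ring
  simp only [h1]
  rw [av_sum]
  refine Finset.sum_congr rfl fun i _ => ?_
  rw [av_sum]
  simp only [av_mul, av_chi_chi, Finset.singleton_inj]
  simp [sq]

/-- the observable of the signed query probabilities -/
theorem signed_value (A : Alg ι κ T) (s : ℕ) (σ : ι → ℤˣ) (x : ι → ℤˣ) :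
    A.value (dg (fun k => ∑ j ∈ A.Q s k, sv (σ j))) s x = ∑ j, sv (σ j) * A.p s j x := by
  unfold Alg.value
  rw [inner_dg]
  simp only [p_eq, Finset.mul_sum]
  rw [Finset.sum_comm]
  refine Finset.sum_congr rfl fun k _ => ?_
  rw [Finset.sum_mul, ← Finset.sum_filter_add_sum_filter_not univ (fun j => j ∈ A.Q s k)]
  have h1 : ∑ j ∈ univ.filter (fun j => ¬ j ∈ A.Q s k), sv (σ j) *
      ((if j ∈ A.Q s k then 1 else 0) * ‖A.state s x k‖ ^ 2) = 0 :=
    Finset.sum_eq_zero fun j hj => by rw [if_neg (Finset.mem_filter.1 hj).2]; ring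
  rw [h1, add_zero]
  have h2 : univ.filter (fun j => j ∈ A.Q s k) = A.Q s k := by ext j; simp
  rw [h2]
  refine Finset.sum_congr rfl fun j hj => ?_
  rw [if_pos hj]
  ring

/-- the pointwise bound for the query probabilities -/
theorem p_bound (A : Alg ι κ T) (s : ℕ) (x : ι → ℤˣ) (J : Finset ι) (m : ℝ) (hm0 : 0 ≤ m)
    (hm : ∀ t < s, ∀ j ∈ J, A.p t j x ≤ m) :
    ∑ i ∈ J, ∑ j, dd i (A.p s j) x ^ 2 ≤ 16 * (s : ℝ) ^ 4 * (T : ℝ) ^ 2 * (T * m) := by
  have h1 : ∀ i ∈ J, ∑ j, dd i (A.p s j) x ^ 2 =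
      av (fun σ : ι → ℤˣ => dd i (A.value (dg (fun k => ∑ j ∈ A.Q s k, sv (σ j))) s) x ^ 2) := by
    intro i _
    rw [← av_signed]
    congr 1
    funext σ
    congr 1
    unfold dd
    rw [signed_value, signed_value, ← Finset.sum_sub_distrib, Finset.sum_div]
    exact Finset.sum_congr rfl fun j _ => by ring
  rw [Finset.sum_congr rfl h1, ← av_sum]
  refine le_trans (av_mono (h := fun _ => 16 * (s : ℝ) ^ 4 * (T : ℝ) ^ 2 * (T * m)) fun σ => ?_)
    (le_of_eq (av_const _))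
  refine value_bound A _ T ?_ s x J m hm0 hm
  refine norm_dg_le _ _ (Nat.cast_nonneg T) fun k => ?_
  refine (Finset.abs_sum_le_sum_abs _ _).trans ?_
  have h2 : ∀ j ∈ A.Q s k, |sv (σ j)| ≤ 1 := by
    intro j _
    rcases sv_cases (σ j) with h | h <;> rw [h] <;> simp
  refine (Finset.sum_le_sum h2).trans ?_
  rw [Finset.sum_const, nsmul_eq_mul, mul_one]
  exact_mod_cast A.card_Q s k

end alg

end Pool.Agent.H2AD
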