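import Pool.Agent.H2AD.Stm

/-!
Project H2AD, piece MULTI: averaging the error of decision trees over the values of the coordinates
in a set `S`.
-/

set_option autoImplicit false
set_option linter.unusedSectionVars false
set_option linter.unusedSimpArgs false

namespace Pool.Agent.H2AD

open Finset Pool.Agent.Hp22AAD Pool.Agent.Hp22AA

namespace MultiP

variable {ι : Type} [Fintype ι] [DecidableEq ι]

/-- splitting the average according to the coordinate `i` -/
theorem av_split (i : ι) (h : (ι → ℤˣ) → ℝ) :
    av h = (av (fun x => h (Function.update x i 1)) + av (fun x => h (Function.update x i (-1)))) / 2 := by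
  have hinv : Function.Involutive (fun x : ι → ℤˣ => Function.update x i (-(x i))) := by
    intro x
    funext j
    by_cases hj : j = i
    · subst hj
      simp
    · simp [Function.update_of_ne hj]
  have h1 : ∑ x, h (Function.update x i (-(x i))) = ∑ x, h x :=
    Equiv.sum_comp hinv.toPerm h
  have h2 : ∀ x : ι → ℤˣ, h x + h (Function.update x i (-(x i))) =
      h (Function.update x i 1) + h (Function.update x i (-1)) := by
    intro x
    rcases Int.units_eq_one_or (x i) with hx | hx
    · have : Function.update x i 1 = x := by
        rw [← hx]; exact Function.update_eq_self i x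
      rw [this, hx]
    · have : Function.update x i (-1) = x := by
        rw [← hx]; exact Function.update_eq_self i x
      rw [this, hx, neg_neg, add_comm]
  have h3 : ∑ x, h x + ∑ x, h x =
      ∑ x, h (Function.update x i 1) + ∑ x, h (Function.update x i (-1)) := by
    calc ∑ x, h x + ∑ x, h x = ∑ x, h x + ∑ x, h (Function.update x i (-(x i))) := by rw [h1]
      _ = ∑ x, (h x + h (Function.update x i (-(x i)))) := by rw [Finset.sum_add_distrib]
      _ = ∑ x, (h (Function.update x i 1) + h (Function.update x i (-1))) :=
          Finset.sum_congr rfl (fun x _ => h2 x)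
      _ = _ := by rw [Finset.sum_add_distrib]
  unfold av
  rw [← add_div, ← h3]
  ring

theorem ov_empty (z x : ι → ℤˣ) : ov ∅ z x = x := by
  funext j; simp [ov]

theorem ov_insert (S : Finset ι) (i : ι) (hi : i ∉ S) (z x : ι → ℤˣ) (c : ℤˣ) :
    ov (insert i S) (Function.update z i c) x = Function.update (ov S z x) i c := by
  funext j
  by_cases hj : j = i
  · subst hj
    simp [ov]
  · simp [ov, Function.update_of_ne hj, hj]

theorem DT_succ {D : ℕ} {g : (ι → ℤˣ) → ℝ} (h : DT D g) : DT (D + 1) g := by
  induction h with
  | const D c => exact DT.const _ c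
  | node D i g h _ _ ihg ihh => exact DT.node _ i g h ihg ihh

theorem DT_le {D D' : ℕ} (hD : D ≤ D') {g : (ι → ℤˣ) → ℝ} (h : DT D g) : DT D' g := by
  induction hD with
  | refl => exact h
  | step _ ih => exact DT_succ ih

theorem DT_update (i : ι) (b : ℤˣ) {D : ℕ} {g : (ι → ℤˣ) → ℝ} (h : DT D g) :
    DT D (fun x => g (Function.update x i b)) := by
  induction h with
  | const D c => exact DT.const _ c
  | node D j g h _ _ ihg ihh =>
    by_cases hj : j = i
    · subst hj
      by_cases hb : b = 1
      · have : (fun x : ι → ℤˣ => if Function.update x j b j = 1 then g (Function.update x j b)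
            else h (Function.update x j b)) = fun x => g (Function.update x j b) := by
          funext x; simp [hb]
        rw [this]
        exact DT_succ ihg
      · have : (fun x : ι → ℤˣ => if Function.update x j b j = 1 then g (Function.update x j b)
            else h (Function.update x j b)) = fun x => h (Function.update x j b) := by
          funext x; simp [hb]
        rw [this]
        exact DT_succ ihh
    · have : (fun x : ι → ℤˣ => if Function.update x i b j = 1 then g (Function.update x i b)
            else h (Function.update x i b)) =
          fun x => if x j = 1 then g (Function.update x i b) else h (Function.update x i b) := by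
        funext x; rw [Function.update_of_ne hj]
      rw [this]
      exact DT.node D j _ _ ihg ihh

theorem Apx_mono {D D' : ℕ} (hD : D ≤ D') {e e' : ℝ} (he : e ≤ e') {f : (ι → ℤˣ) → ℝ}
    (h : Apx D e f) : Apx D' e' f := by
  obtain ⟨g, h1, h2, h3⟩ := h
  exact ⟨g, DT_le hD h1, h2, h3.trans he⟩

theorem exists_le_av (e : (ι → ℤˣ) → ℝ) : ∃ z, e z ≤ av e := by
  by_contra hcon
  push Not at hcon
  have h1 : ∑ _x : ι → ℤˣ, av e < ∑ x, e x :=
    Finset.sum_lt_sum_of_nonempty ⟨fun _ => 1, Finset.mem_univ _⟩ (fun x _ => hcon x)
  rw [Finset.sum_const, Finset.card_univ, nsmul_eq_mul, card_cube] at h1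
  have h2 : (2 : ℝ) ^ Fintype.card ι * av e = ∑ x, e x := by
    unfold av
    field_simp
  exact absurd h1 (by rw [h2]; exact lt_irrefl _)

/-- a function that does not depend on `x i` is approximated by a tree that does not query `i` -/
theorem indep (i : ι) {D : ℕ} {e : ℝ} {f : (ι → ℤˣ) → ℝ}
    (hf : ∀ x b, f (Function.update x i b) = f x) (h : Apx D e f) :
    ∃ g : (ι → ℤˣ) → ℝ, DT D g ∧ (∀ x, |g x| ≤ 1) ∧ av (fun x => (f x - g x) ^ 2) ≤ e ∧
      ∀ x b, g (Function.update x i b) = g x := by
  obtain ⟨g, h1, h2, h3⟩ := h
  have h4 := av_split i (fun x => (f x - g x) ^ 2)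
  simp only [hf] at h4
  have key : ∃ b : ℤˣ, av (fun x => (f x - g (Function.update x i b)) ^ 2) ≤ e := by
    by_contra hcon
    push Not at hcon
    have := hcon 1
    have := hcon (-1)
    linarith
  obtain ⟨b, hb⟩ := key
  refine ⟨fun x => g (Function.update x i b), DT_update i b h1, fun x => h2 _, hb, ?_⟩
  intro x c
  simp

end MultiP

open MultiP

theorem av_ov : AVOV := by
  intro ι _ _ S
  induction S using Finset.induction_on with
  | empty =>
    intro h
    simp only [ov_empty]
    exact av_const _
  | insert i S hi ih =>
    intro h
    rw [av_split i]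
    simp only [ov_insert S i hi]
    have h1 := ih (fun x => h (Function.update x i 1))
    have h2 := ih (fun x => h (Function.update x i (-1)))
    rw [h1, h2]
    exact (av_split i h).symm

theorem multi : MULTI := by
  intro ι _ _ S
  induction S using Finset.induction_on with
  | empty =>
    intro D f e H
    obtain ⟨z, hz⟩ := exists_le_av e
    have h1 := H z
    simp only [ov_empty] at h1
    exact Apx_mono (by simp) hz h1
  | insert i S hi ih =>
    intro D f e H
    have key : ∀ c : ℤˣ, ∃ g : (ι → ℤˣ) → ℝ, DT (S.card + D) g ∧ (∀ x, |g x| ≤ 1) ∧
        av (fun x => (f (Function.update x i c) - g x) ^ 2) ≤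
          av (fun z => e (Function.update z i c)) ∧
        ∀ x b, g (Function.update x i b) = g x := by
      intro c
      have h1 : Apx (S.card + D) (av (fun z => e (Function.update z i c)))
          (fun x => f (Function.update x i c)) := by
        apply ih D (fun x => f (Function.update x i c)) (fun z => e (Function.update z i c))
        intro z
        have h2 := H (Function.update z i c)
        simp only [ov_insert S i hi] at h2
        exact h2
      exact indep i (fun x b => by simp) h1
    obtain ⟨g₁, a1, a2, a3, a4⟩ := key 1
    obtain ⟨g₂, b1, b2, b3, b4⟩ := key (-1)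
    refine ⟨fun x => if x i = 1 then g₁ x else g₂ x, ?_, ?_, ?_⟩
    · have : (insert i S).card + D = S.card + D + 1 := by
        rw [Finset.card_insert_of_notMem hi]; ring
      rw [this]
      exact DT.node _ i g₁ g₂ a1 b1
    · intro x
      by_cases hx : x i = 1
      · simp only [hx, if_true]; exact a2 x
      · simp only [hx, if_false]; exact b2 x
    · rw [av_split i, av_split i e]
      have c1 : (fun x : ι → ℤˣ => (f (Function.update x i 1) -
          if Function.update x i 1 i = 1 then g₁ (Function.update x i 1)
          else g₂ (Function.update x i 1)) ^ 2) =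
          fun x => (f (Function.update x i 1) - g₁ x) ^ 2 := by
        funext x; simp [a4]
      have c2 : (fun x : ι → ℤˣ => (f (Function.update x i (-1)) -
          if Function.update x i (-1) i = 1 then g₁ (Function.update x i (-1))
          else g₂ (Function.update x i (-1))) ^ 2) =
          fun x => (f (Function.update x i (-1)) - g₂ x) ^ 2 := by
        funext x
        have : (-1 : ℤˣ) ≠ 1 := by decide
        simp [b4, this]
      rw [c1, c2]
      linarith

end Pool.Agent.H2AD
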