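import Pool.Agent.H2AD.Stm2
import Pool.Agent.H2AD.Multi

/-!
Project H2AD, piece BT: trees with batches of queries.
-/

set_option autoImplicit false
set_option linter.unusedSectionVars false

namespace Pool.Agent.H2AD

open Finset Pool.Agent.Hp22AAD Pool.Agent.Hp22AA

namespace BtP

variable {ι : Type} [DecidableEq ι]

theorem ov_comm (S₀ S : Finset ι) (z x : ι → ℤˣ) :
    ov S₀ (ov S z (ov S₀ x 1)) 1 = ov S₀ (ov S z x) 1 := by
  funext i
  by_cases h : i ∈ S₀ <;> simp [ov, h]

theorem ov_ov (S : Finset ι) (z y x : ι → ℤˣ) : ov S z (ov S y x) = ov S z x := by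
  funext i
  by_cases h : i ∈ S <;> simp [ov, h]

theorem ov_ov_one (S : Finset ι) (z x : ι → ℤˣ) : ov S (ov S z x) 1 = ov S z 1 := by
  funext i
  by_cases h : i ∈ S <;> simp [ov, h]

theorem ov_one_ov (S : Finset ι) (z x : ι → ℤˣ) : ov S (ov S z 1) x = ov S z x := by
  funext i
  by_cases h : i ∈ S <;> simp [ov, h]

theorem DT_succ {D : ℕ} {g : (ι → ℤˣ) → ℝ} (h : DT D g) : DT (D + 1) g := by
  induction h with
  | const D c => exact DT.const _ c
  | node D i g h _ _ ihg ihh => exact DT.node _ i g h ihg ihh

theorem DT_le {D D' : ℕ} (hD : D ≤ D') {g : (ι → ℤˣ) → ℝ} (h : DT D g) : DT D' g := by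
  induction hD with
  | refl => exact h
  | step _ ih => exact DT_succ ih

theorem DT_ov (D : ℕ) (S : Finset ι) : ∀ G : (ι → ℤˣ) → (ι → ℤˣ) → ℝ, (∀ z, DT D (G z)) →
    DT (S.card + D) (fun x => G (ov S x 1) x) := by
  induction S using Finset.induction_on with
  | empty =>
    intro G hG
    have h : (fun x => G (ov ∅ x 1) x) = G 1 := by
      funext x
      have : ov (∅ : Finset ι) x 1 = 1 := by funext i; simp [ov]
      rw [this]
    rw [h, card_empty, zero_add]
    exact hG 1
  | insert i S hi ih =>
    intro G hG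
    have h1 := ih (fun z => G (Function.update z i 1)) (fun z => hG _)
    have h2 := ih (fun z => G (Function.update z i (-1))) (fun z => hG _)
    have h3 := DT.node (S.card + D) i _ _ h1 h2
    have h4 : (insert i S).card + D = S.card + D + 1 := by
      rw [card_insert_of_notMem hi]; ring
    rw [h4]
    have h5 : (fun x : ι → ℤˣ => G (ov (insert i S) x 1) x) =
        fun x => if x i = 1 then G (Function.update (ov S x 1) i 1) x
          else G (Function.update (ov S x 1) i (-1)) x := by
      funext x
      have h6 : ov (insert i S) x 1 = Function.update (ov S x 1) i (x i) := by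
        funext j
        by_cases hj : j = i
        · subst hj; simp [ov]
        · simp [ov, hj]
      rw [h6]
      rcases Int.units_eq_one_or (x i) with h | h
      · rw [if_pos h, h]
      · rw [if_neg (by rw [h]; decide), h]
    rw [h5]
    exact h3

end BtP

open BtP

theorem btr : BTR := by
  intro ι _ L n g S z hg
  induction hg with
  | const n c => exact BT.const n c
  | node n S₀ hS G _ ih =>
    have h := BT.node n S₀ hS (fun w x => G (ov S₀ (ov S z w) 1) (ov S z x)) (fun w => ih _)
    have e : (fun x : ι → ℤˣ => G (ov S₀ (ov S z (ov S₀ x 1)) 1) (ov S z x)) =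
        fun x => G (ov S₀ (ov S z x) 1) (ov S z x) := by
      funext x
      rw [ov_comm]
    rw [e] at h
    exact h

theorem btsub : BTSUB := by
  intro ι _ L n g c hg
  induction hg with
  | const n c' => exact BT.const n (c' - c)
  | node n S₀ hS G _ ih => exact BT.node n S₀ hS (fun z x => G z x - c) ih

theorem btdt : BTDT := by
  intro ι _ L n g hg
  induction hg with
  | const n c => exact DT.const _ c
  | node n S hS G _ ih =>
    refine DT_le ?_ (DT_ov (n * L) S G ih)
    rw [add_mul, one_mul]
    omega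

theorem btmulti : BTMULTI := by
  intro ι _ _ L n S f e hS he H
  choose g hg1 hg2 hg3 using H
  have hy : ∀ z, ∃ y, av (fun x => (f (ov S z x) - g z (ov S y x)) ^ 2) ≤ e z := by
    intro z
    obtain ⟨y, hy⟩ := MultiP.exists_le_av
      (fun y => av (fun x => (f (ov S z (ov S y x)) - g z (ov S y x)) ^ 2))
    refine ⟨y, ?_⟩
    have h1 := av_ov S (fun x => (f (ov S z x) - g z x) ^ 2)
    rw [h1] at hy
    have h2 : (fun x => (f (ov S z x) - g z (ov S y x)) ^ 2) =
        fun x => (f (ov S z (ov S y x)) - g z (ov S y x)) ^ 2 := by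
      funext x; rw [ov_ov]
    rw [h2]
    exact hy.trans (hg3 z)
  choose y hy using hy
  refine ⟨fun x => g (ov S x 1) (ov S (y (ov S x 1)) x), ?_, fun x => hg2 _ _, ?_⟩
  · exact BT.node n S hS (fun z x => g z (ov S (y z) x)) (fun z => btr L n (g z) S (y z) (hg1 z))
  · have h1 := av_ov S
      (fun x => (f x - g (ov S x 1) (ov S (y (ov S x 1)) x)) ^ 2)
    rw [← h1]
    refine av_mono fun z => ?_
    have h2 : (fun x => (f (ov S z x) -
        g (ov S (ov S z x) 1) (ov S (y (ov S (ov S z x) 1)) (ov S z x))) ^ 2) =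
        fun x => (f (ov S (ov S z 1) x) - g (ov S z 1) (ov S (y (ov S z 1)) x)) ^ 2 := by
      funext x
      rw [ov_ov_one, ov_ov, ov_one_ov]
    show av (fun x => (f (ov S z x) -
        g (ov S (ov S z x) 1) (ov S (y (ov S (ov S z x) 1)) (ov S z x))) ^ 2) ≤ e z
    rw [h2, ← he z]
    exact hy (ov S z 1)

end Pool.Agent.H2AD
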