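import Pool.Agent.H2AD.Stm

/-! Project H2AD, piece NUM: the recursion for the error. -/

set_option autoImplicit false

namespace Pool.Agent.H2AD

open Finset Pool.Agent.Hp22AAD Pool.Agent.Hp22AA

theorem num_stp_nonneg {η A : ℝ} (hη : 0 ≤ η) (hA : 0 ≤ A) (s : ℕ) {m : ℝ} (hm : 0 ≤ m) :
    0 ≤ stp η A s m := by
  unfold stp
  positivity

theorem num_stp_mono {η A : ℝ} (hA : 0 ≤ A) (s : ℕ) {m m' : ℝ} (h : m ≤ m') :
    stp η A s m ≤ stp η A s m' := by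
  unfold stp
  have := Real.sqrt_le_sqrt h
  have h2 : A * (s:ℝ) ^ 2 * Real.sqrt m ≤ A * (s:ℝ) ^ 2 * Real.sqrt m' :=
    mul_le_mul_of_nonneg_left this (by positivity)
  linarith

theorem num_mono (K η A : ℝ) (hK : 0 ≤ K) (hη : 0 ≤ η) (hA : 0 ≤ A) (n : ℕ) :
    ∀ (s : ℕ) (m m' : ℝ), 0 ≤ m → m ≤ m' → Psi K η A n s m ≤ Psi K η A n s m' := by
  induction n with
  | zero => intro s m m' _ h; exact mul_le_mul_of_nonneg_left h hK
  | succ n ih =>
    intro s m m' hm h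
    exact ih (s + 1) _ _ (num_stp_nonneg hη hA s hm) (num_stp_mono hA s h)

theorem num_sqrt {ι : Type} [Fintype ι] [DecidableEq ι] (h : (ι → ℤˣ) → ℝ) (hh : ∀ x, 0 ≤ h x) :
    av (fun x => Real.sqrt (h x)) ≤ Real.sqrt (av h) := by
  refine Real.le_sqrt_of_sq_le ?_
  have h1 := av_cs (fun x => Real.sqrt (h x)) (fun _ => 1)
  simp only [mul_one, one_pow, av_const] at h1
  have h2 : (fun x => Real.sqrt (h x) ^ 2) = h := by
    funext x
    exact Real.sq_sqrt (hh x)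
  rwa [h2] at h1

theorem num_jensen {ι : Type} [Fintype ι] [DecidableEq ι] (K η A : ℝ) (hK : 0 ≤ K) (hη : 0 ≤ η)
    (hA : 0 ≤ A) (n : ℕ) : ∀ (s : ℕ) (h : (ι → ℤˣ) → ℝ), (∀ x, 0 ≤ h x) →
      av (fun x => Psi K η A n s (h x)) ≤ Psi K η A n s (av h) := by
  induction n with
  | zero =>
    intro s h _
    simp only [Psi]
    rw [av_mul]
  | succ n ih =>
    intro s h hh
    have h1 := ih (s + 1) (fun x => stp η A s (h x)) (fun x => num_stp_nonneg hη hA s (hh x))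
    simp only [Psi]
    refine le_trans h1 ?_
    refine num_mono K η A hK hη hA n (s + 1) _ _
      (av_nonneg fun x => num_stp_nonneg hη hA s (hh x)) ?_
    simp only [stp]
    rw [av_add, av_add, av_mul, av_const]
    have h2 := num_sqrt h hh
    have h3 : A * (s:ℝ) ^ 2 * av (fun x => Real.sqrt (h x)) ≤ A * (s:ℝ) ^ 2 * Real.sqrt (av h) :=
      mul_le_mul_of_nonneg_left h2 (by positivity)
    have h4 : av (fun x => h x) = av h := rfl
    linarith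

theorem num_bound (K δ A B : ℝ) (r : ℕ) (hK : 0 ≤ K) (hδ : 0 ≤ δ) (hδ1 : δ ≤ 1) (hA : 0 ≤ A)
    (hB : 1 ≤ B) (hAB : A * (r : ℝ) ^ 2 ≤ B) (n : ℕ) :
    ∀ (s : ℕ) (m : ℝ), n + s = r → 1 ≤ s → 0 ≤ m → m ≤ B ^ 2 * (s : ℝ) ^ 2 * δ ^ 2 ^ (r - s) →
      Psi K (δ ^ 2 ^ (r - 1)) A n s m ≤ K * (B ^ 2 * (r : ℝ) ^ 2 * δ) := by
  induction n with
  | zero =>
    intro s m hs _ _ hm
    have : s = r := by omega
    subst this
    simp only [Nat.sub_self, pow_zero, pow_one] at hm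
    exact mul_le_mul_of_nonneg_left hm hK
  | succ n ih =>
    intro s m hs hs1 hm0 hm
    have hη : 0 ≤ δ ^ 2 ^ (r - 1) := by positivity
    simp only [Psi]
    refine ih (s + 1) _ (by omega) (by omega) (num_stp_nonneg hη hA s hm0) ?_
    set e : ℝ := δ ^ 2 ^ (r - (s + 1)) with he
    have he0 : 0 ≤ e := by positivity
    have he1 : e ≤ 1 := pow_le_one₀ hδ hδ1
    have hee : δ ^ 2 ^ (r - s) = e ^ 2 := by
      rw [he, ← pow_mul]
      congr 1
      rw [← pow_succ]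
      congr 1
      omega
    have hηe : δ ^ 2 ^ (r - 1) ≤ e := by
      refine pow_le_pow_of_le_one hδ hδ1 ?_
      exact Nat.pow_le_pow_right (by norm_num) (by omega)
    rw [hee] at hm
    have hs0 : (1:ℝ) ≤ s := by exact_mod_cast hs1
    have hsr : (s:ℝ) ≤ r := by exact_mod_cast (by omega : s ≤ r)
    have hsq : Real.sqrt m ≤ B * s * e := by
      refine Real.sqrt_le_iff.2 ⟨by positivity, ?_⟩
      calc m ≤ B ^ 2 * (s : ℝ) ^ 2 * e ^ 2 := hm
        _ = (B * s * e) ^ 2 := by ring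
    have hAs : A * (s:ℝ) ^ 2 ≤ B := by
      refine le_trans ?_ hAB
      gcongr
    have h1 : A * (s:ℝ) ^ 2 * Real.sqrt m ≤ B * (B * s * e) :=
      mul_le_mul hAs hsq (Real.sqrt_nonneg _) (by linarith)
    have h2 : B ^ 2 * (s : ℝ) ^ 2 * e ^ 2 ≤ B ^ 2 * (s : ℝ) ^ 2 * e := by
      have : e ^ 2 ≤ e := by nlinarith
      exact mul_le_mul_of_nonneg_left this (by positivity)
    have h3 : e ≤ B ^ 2 * e := by
      have : 1 ≤ B ^ 2 := by nlinarith
      exact le_mul_of_one_le_left he0 this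
    have h4 : 0 ≤ B ^ 2 * s * e := by positivity
    unfold stp
    push_cast
    calc m + δ ^ 2 ^ (r - 1) + A * (s:ℝ) ^ 2 * Real.sqrt m
        ≤ B ^ 2 * (s : ℝ) ^ 2 * e + B ^ 2 * e + B * (B * s * e) := by linarith
      _ ≤ B ^ 2 * ((s:ℝ) + 1) ^ 2 * e := by nlinarith

theorem num : NUM := by
  refine ⟨fun K η A hK hη hA n s m m' hm h => num_mono K η A hK hη hA n s m m' hm h,
    fun K η A hK hη hA n s h hh => num_jensen K η A hK hη hA n s h hh, ?_⟩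
  intro K δ A B r hK hδ hδ1 hA hr hB hAB
  obtain ⟨n, rfl⟩ : ∃ n, r = n + 1 := ⟨r - 1, by omega⟩
  have hη : 0 ≤ δ ^ 2 ^ (n + 1 - 1) := by positivity
  simp only [Psi]
  refine num_bound K δ A B (n + 1) hK hδ hδ1 hA hB hAB n 1 _ (by omega) le_rfl
    (num_stp_nonneg hη hA 0 le_rfl) ?_
  unfold stp
  simp only [Nat.cast_zero, Nat.cast_one]
  have hB2 : 1 ≤ B ^ 2 := by nlinarith
  have := le_mul_of_one_le_left hη hB2
  calc (0:ℝ) + δ ^ 2 ^ (n + 1 - 1) + A * 0 ^ 2 * Real.sqrt 0 = δ ^ 2 ^ (n + 1 - 1) := by ring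
    _ ≤ B ^ 2 * δ ^ 2 ^ (n + 1 - 1) := this
    _ = B ^ 2 * 1 ^ 2 * δ ^ 2 ^ (n + 1 - 1) := by ring

end Pool.Agent.H2AD
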