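import Pool.Agent.H2AD.Stm

/-! Project H2AD, piece OSSS: the covariance of a function with a decision tree is bounded by the depth
times the largest influence. -/

set_option autoImplicit false

namespace Pool.Agent.H2AD

open Finset Pool.Agent.Hp22AAD Pool.Agent.Hp22AA

theorem osss_up {ι : Type} {D : ℕ} {g : (ι → ℤˣ) → ℝ} (h : DT D g) : DT (D + 1) g := by
  induction h with
  | const D c => exact DT.const _ c
  | node D i g h _ _ ih1 ih2 => exact DT.node _ i g h ih1 ih2

theorem osss_update {ι : Type} [DecidableEq ι] {D : ℕ} {g : (ι → ℤˣ) → ℝ} (h : DT D g) (i : ι)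
    (b : ℤˣ) : DT D (fun x => g (Function.update x i b)) := by
  induction h with
  | const D c => exact DT.const _ c
  | node D j g h _ _ ih1 ih2 =>
    by_cases hj : j = i
    · subst hj
      by_cases hb : b = 1
      · have : (fun x : ι → ℤˣ => if Function.update x j b j = 1 then g (Function.update x j b)
            else h (Function.update x j b)) = fun x => g (Function.update x j b) := by
          funext x
          rw [Function.update_self, if_pos hb]
        rw [this]
        exact osss_up ih1
      · have : (fun x : ι → ℤˣ => if Function.update x j b j = 1 then g (Function.update x j b)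
            else h (Function.update x j b)) = fun x => h (Function.update x j b) := by
          funext x
          rw [Function.update_self, if_neg hb]
        rw [this]
        exact osss_up ih2
    · have : (fun x : ι → ℤˣ => if Function.update x i b j = 1 then g (Function.update x i b)
            else h (Function.update x i b)) =
          fun x => if x j = 1 then (fun x => g (Function.update x i b)) x
            else (fun x => h (Function.update x i b)) x := by
        funext x
        rw [Function.update_of_ne hj]
      rw [this]
      exact DT.node _ j _ _ ih1 ih2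

theorem osss_split {ι : Type} [Fintype ι] [DecidableEq ι] (i : ι) (h : (ι → ℤˣ) → ℝ) :
    av h = (av (fun x => h (Function.update x i 1)) +
      av (fun x => h (Function.update x i (-1)))) / 2 := by
  have key : ∑ x : ι → ℤˣ, (h (Function.update x i 1) + h (Function.update x i (-1))) =
      ∑ x, (h x + h (Function.update x i (-(x i)))) := by
    refine Finset.sum_congr rfl (fun x _ => ?_)
    rcases sv_cases (x i) with hx | hx
    · have : Function.update x i 1 = x := by rw [← hx, Function.update_eq_self]
      rw [this, hx]
    · have : Function.update x i (-1) = x := by rw [← hx, Function.update_eq_self]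
      rw [this, hx, neg_neg, add_comm]
  have inv : Function.Involutive (fun x : ι → ℤˣ => Function.update x i (-(x i))) := by
    intro x
    simp
  have h2 : ∑ x : ι → ℤˣ, h (Function.update x i (-(x i))) = ∑ x, h x :=
    Equiv.sum_comp (inv.toPerm _) h
  rw [Finset.sum_add_distrib, Finset.sum_add_distrib, h2] at key
  unfold av
  rw [← add_div, key]
  ring

theorem osss_abs {ι : Type} [Fintype ι] [DecidableEq ι] (h : (ι → ℤˣ) → ℝ) :
    |av h| ≤ av (fun x => |h x|) := by
  have h1 : av h ≤ av (fun x => |h x|) := av_mono fun x => le_abs_self _
  have h2 : av (fun x => (-1) * h x) ≤ av (fun x => |h x|) := av_mono fun x => by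
    rw [neg_one_mul]; exact neg_le_abs _
  rw [av_mul] at h2
  exact abs_le.2 ⟨by linarith, h1⟩

theorem osss_dd {ι : Type} [Fintype ι] [DecidableEq ι] (i : ι) (b : ℤˣ) (f : (ι → ℤˣ) → ℝ) :
    av (fun x => |f (Function.update x i b) - f x|) = av (fun x => |dd i f x|) := by
  rw [osss_split i (fun x => |f (Function.update x i b) - f x|)]
  simp only [Function.update_idem]
  rcases sv_cases b with rfl | rfl
  · simp only [sub_self, abs_zero, av_const]
    have : (fun x => |f (Function.update x i 1) - f (Function.update x i (-1))|) =
        fun x => 2 * |dd i f x| := by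
      funext x
      rw [dd, abs_div, abs_of_pos (by norm_num : (0:ℝ) < 2)]
      ring
    rw [this, av_mul]
    ring
  · simp only [sub_self, abs_zero, av_const]
    have : (fun x => |f (Function.update x i (-1)) - f (Function.update x i 1)|) =
        fun x => 2 * |dd i f x| := by
      funext x
      rw [dd, abs_div, abs_of_pos (by norm_num : (0:ℝ) < 2), abs_sub_comm]
      ring
    rw [this, av_mul]
    ring

theorem osss_step {ι : Type} [Fintype ι] [DecidableEq ι] (i : ι) (b : ℤˣ) (f G : (ι → ℤˣ) → ℝ)
    {δ E : ℝ} (hG : ∀ x, |G x| ≤ 1) (hf : av (fun x => |dd i f x|) ≤ δ)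
    (hE : |av (fun x => f x * G x) - av f * av G| ≤ E) :
    |av (fun x => f (Function.update x i b) * G x) - av f * av G| ≤ δ + E := by
  have h1 : |av (fun x => (f (Function.update x i b) - f x) * G x)| ≤ δ := by
    refine le_trans (osss_abs _) (le_trans ?_ hf)
    rw [← osss_dd i b f]
    refine av_mono fun x => ?_
    rw [abs_mul]
    exact mul_le_of_le_one_right (abs_nonneg _) (hG x)
  have h2 : av (fun x => f (Function.update x i b) * G x) =
      av (fun x => (f (Function.update x i b) - f x) * G x) + av (fun x => f x * G x) := by
    rw [← av_add]
    congr 1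
    funext x
    ring
  rw [h2, add_sub_assoc]
  exact le_trans (abs_add_le _ _) (add_le_add h1 hE)

/-- `OSSS` with the hypothesis `0 ≤ δ` (needed when there are no coordinates) -/
def OSSS' : Prop :=
  ∀ {ι : Type} [Fintype ι] [DecidableEq ι] (D : ℕ) (f g : (ι → ℤˣ) → ℝ) (δ : ℝ), 0 ≤ δ →
    DT D g → (∀ x, |g x| ≤ 1) → (∀ j, av (fun x => |dd j f x|) ≤ δ) →
    |av (fun x => f x * g x) - av f * av g| ≤ D * δ

theorem osss' : OSSS' := by
  intro ι _ _ D
  induction D with
  | zero =>
    intro f g δ hδ hg hg1 hf
    cases hg with
    | const _ c =>
      rw [av_const]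
      have : (fun x : ι → ℤˣ => f x * c) = fun x => c * f x := by
        funext x; ring
      rw [this, av_mul, mul_comm c, sub_self, abs_zero]
      simp
  | succ D ih =>
    intro f g δ hδ hg hg1 hf
    cases hg with
    | const _ c =>
      rw [av_const]
      have : (fun x : ι → ℤˣ => f x * c) = fun x => c * f x := by
        funext x; ring
      rw [this, av_mul, mul_comm c, sub_self, abs_zero]
      positivity
    | node _ i g h hg hh =>
      have hG1 : ∀ x, |g (Function.update x i 1)| ≤ 1 := by
        intro x
        have := hg1 (Function.update x i 1)
        simpa using this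
      have hG2 : ∀ x, |h (Function.update x i (-1))| ≤ 1 := by
        intro x
        have := hg1 (Function.update x i (-1))
        simpa using this
      have e1 := osss_step i 1 f (fun x => g (Function.update x i 1)) hG1 (hf i)
        (ih f _ δ hδ (osss_update hg i 1) hG1 hf)
      have e2 := osss_step i (-1) f (fun x => h (Function.update x i (-1))) hG2 (hf i)
        (ih f _ δ hδ (osss_update hh i (-1)) hG2 hf)
      rw [osss_split i (fun x => f x * if x i = 1 then g x else h x),
        osss_split i (fun x => if x i = 1 then g x else h x)]
      simp only [Function.update_self, if_true, if_neg (by decide : ¬ (-1 : ℤˣ) = 1)]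
      push_cast
      rw [abs_le] at e1 e2 ⊢
      constructor <;> nlinarith [e1.1, e1.2, e2.1, e2.2]

end Pool.Agent.H2AD
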