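import Mathlib
import Pool.Agent.Hp22AA.Main
import Pool.Agent.H2AD.Defs

/-!
Statements of the pieces of project H2AD (MP_f992e4_an.BoundedAdaptivity). `av` is the average over
the cube, `dd i f` the discrete derivative (library `Pool.Agent.Hp22AA`: Cube, Main).
-/

set_option autoImplicit false

namespace Pool.Agent.H2AD

open Finset Pool.Agent.Hp22AAD Pool.Agent.Hp22AA

/-- overwrite the coordinates of `x` in `S` by those of `z` -/
def ov {ι : Type} [DecidableEq ι] (S : Finset ι) (z x : ι → ℤˣ) : ι → ℤˣ :=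
  fun i => if i ∈ S then z i else x i

/-- `f` is approximated with mean square error at most `e` by a decision tree of depth at most `D`
with labels in `[-1,1]` -/
def Apx {ι : Type} [Fintype ι] [DecidableEq ι] (D : ℕ) (e : ℝ) (f : (ι → ℤˣ) → ℝ) : Prop :=
  ∃ g : (ι → ℤˣ) → ℝ, DT D g ∧ (∀ x, |g x| ≤ 1) ∧ av (fun x => (f x - g x) ^ 2) ≤ e

/-- PIECE OSSS (file `Pool/Agent/H2AD/Osss.lean`, theorem `osss : OSSS`). Induction on `DT D g` (for
`D` and `g`, all with `f`, `δ` fixed). Steps: (a) `DT D g → DT (D+1) g`; (b) `DT D g` implies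
`DT D (fun x => g (update x i b))` (induction; node `j = i` uses (a)); (c)
`av h = (av (x ↦ h (update x i 1)) + av (x ↦ h (update x i (-1)))) / 2`; (d) for
`f_b x = f (update x i b)`: `av |f_b - f| = av |dd i f|` (by (c)); (e) node: with
`G_b x = g (update x i b)` (`DT D G_b`, `|G_b| ≤ 1`),
`av (f g) - av f av g = 1/2 Σ_b (av ((f_b - f) G_b) + (av (f G_b) - av f av G_b))`. -/
def OSSS : Prop :=
  ∀ {ι : Type} [Fintype ι] [DecidableEq ι] (D : ℕ) (f g : (ι → ℤˣ) → ℝ) (δ : ℝ),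
    DT D g → (∀ x, |g x| ≤ 1) → (∀ j, av (fun x => |dd j f x|) ≤ δ) →
    |av (fun x => f x * g x) - av f * av g| ≤ D * δ

/-- PIECE MULTI (file `Pool/Agent/H2AD/Multi.lean`, theorems `av_ov : AVOV`, `multi : MULTI`).
`AVOV`: induction on `S` with the splitting formula (c) above and
`ov (insert i S) (update z i c) x = update (ov S z x) i c` for `i ∉ S`. -/
def AVOV : Prop :=
  ∀ {ι : Type} [Fintype ι] [DecidableEq ι] (S : Finset ι) (h : (ι → ℤˣ) → ℝ),
    av (fun z => av (fun x => h (ov S z x))) = av h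

/-- `MULTI`: induction on `S`. Empty `S`: some `z` has `e z ≤ av e`. `insert i S`: apply the
induction hypothesis to `f_c x = f (update x i c)` and `e_c z = e (update z i c)`, `c = 1, -1`, to
get trees `g_c` of depth `S.card + D` with error `av e_c` for `f_c`; as `f_c` does not depend on
`x i`, one of the two functions `x ↦ g_c (update x i b)`, `b = 1, -1`, has at most the same error and
does not depend on `x i`; combine the two by a node at `i`. Also `Apx` is monotone in `D`, `e`. -/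
def MULTI : Prop :=
  ∀ {ι : Type} [Fintype ι] [DecidableEq ι] (S : Finset ι) (D : ℕ) (f e : (ι → ℤˣ) → ℝ),
    (∀ z, Apx D (e z) (fun x => f (ov S z x))) → Apx (S.card + D) (av e) f

/-- one step of the recursion for the error -/
noncomputable def stp (η A : ℝ) (s : ℕ) (m : ℝ) : ℝ := m + η + A * (s : ℝ) ^ 2 * Real.sqrt m

/-- `n` steps of the recursion starting with round `s`, multiplied by `K` -/
noncomputable def Psi (K η A : ℝ) : ℕ → ℕ → ℝ → ℝ
  | 0, _, m => K * m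
  | n + 1, s, m => Psi K η A n (s + 1) (stp η A s m)

/-- PIECE NUM (file `Pool/Agent/H2AD/Num.lean`, theorem `num : NUM`). `Psi` is monotone, satisfies
Jensen's inequality (`av √h ≤ √(av h)` by `av_cs`), and
with `μ_0 = 0, μ_(s+1) = stp η A s μ_s`, `η = δ^(2^(r-1))`: `μ_s ≤ B² s² δ^(2^(r-s))` for
`1 ≤ s ≤ r` if `A s² ≤ B` for `s ≤ r`, `1 ≤ B`: so `Psi … r 0 0 = K μ_r ≤ K B² r² δ`. -/
def NUM : Prop :=
  (∀ (K η A : ℝ), 0 ≤ K → 0 ≤ η → 0 ≤ A → ∀ (n s : ℕ) (m m' : ℝ), 0 ≤ m → m ≤ m' →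
      Psi K η A n s m ≤ Psi K η A n s m') ∧
  (∀ {ι : Type} [Fintype ι] [DecidableEq ι] (K η A : ℝ), 0 ≤ K → 0 ≤ η → 0 ≤ A → ∀ (n s : ℕ)
      (h : (ι → ℤˣ) → ℝ), (∀ x, 0 ≤ h x) →
      av (fun x => Psi K η A n s (h x)) ≤ Psi K η A n s (av h)) ∧
  (∀ (K δ A B : ℝ) (r : ℕ), 0 ≤ K → 0 ≤ δ → δ ≤ 1 → 0 ≤ A → 1 ≤ r → 1 ≤ B →
      A * (r : ℝ) ^ 2 ≤ B →
      Psi K (δ ^ 2 ^ (r - 1)) A r 0 0 ≤ K * (B ^ 2 * (r : ℝ) ^ 2 * δ))

/-- total influence -/
noncomputable def totInf {ι : Type} [Fintype ι] [DecidableEq ι] (f : (ι → ℤˣ) → ℝ) : ℝ :=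
  ∑ j, av (fun x => dd j f x ^ 2)

/-- PIECE NONAD (file `Pool/Agent/H2AD/Nonad.lean`, theorem `nonad : NONAD`): one round of queries.
Proof: `p_j = A.p 0 j x = ‖A.prj 0 j A.start‖²` does not depend on `x` (file AlgRun.lean, `Alg.p`),
`Σ_j p_j ≤ T` (`sum_p_le`). Let `μ = maxDer f`, `t = μ / 4`, `H = {j : t < p_j}`, so
`|H| t ≤ T`. For `j ∈ H`: `av (dd j f ^ 2) ≤ μ²` (`le_maxDer`). For `J = Hᶜ`, `value_bound` with
`r = 1, c = 1, m = t` and `av_sum`, `av_mono` give `Σ_{j∈J} av (dd j f ^ 2) ≤ 16 T t`. So the sum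
is at most `|H| μ² + 16 T t = 4 |H| t μ + 4 T μ ≤ 8 T μ`. (If `μ = 0`: `16 T t = 0` and the `H`
terms are at most `|H| μ² = 0`.) -/
def NONAD_type {ι κ : Type} [Fintype ι] [DecidableEq ι] [Fintype κ] {T : ℕ} (A : Alg ι κ T)
    (M : Sp κ →L[ℂ] Sp κ) : Prop :=
  ‖M‖ ≤ 1 → totInf (A.value M 1) ≤ 8 * T * maxDer (A.value M 1)

/-- PIECE CONC (file `Pool/Agent/H2AD/Conc.lean`, theorem `conc : CONC`): from a decision tree to an
influential variable. By `Apx` take `g`; `δ = maxDerOne f` (`le_maxDerOne`, `maxDerOne_nonneg`);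
`osss'` gives `|av (f g) - av f av g| ≤ D δ`; with `u = f - av f`:
`av (f g) - av f av g = av (u g) = av (u f) - av (u (f - g)) = variance f - av (u (f - g))` and
`(av (u (f - g)))² ≤ av (u²) av ((f - g)²) ≤ variance f * (variance f / 4)` by `av_cs`. (`var_av` is in
Core.lean.) -/
def CONC : Prop :=
  ∀ {ι : Type} [Fintype ι] [DecidableEq ι] (D : ℕ) (f : (ι → ℤˣ) → ℝ),
    Apx D (variance f / 4) f → variance f ≤ 2 * D * maxDerOne f

end Pool.Agent.H2AD
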