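import Mathlib
import Pool.Agent.H2AD.Stm
import Pool.Agent.H2AD.Multi
import Pool.Agent.H2AD.Num
import Pool.Agent.H2AD.Osss

/-!
The abstract round-by-round argument.
-/

set_option autoImplicit false
set_option linter.unusedSectionVars false

namespace Pool.Agent.H2AD

open Finset Pool.Agent.Hp22AAD Pool.Agent.Hp22AA

variable {ι : Type} [Fintype ι] [DecidableEq ι]

/-- The properties of the query probabilities `p` and of the value `f` which are used. -/
structure Sys (r : ℕ) (T : ℝ) (p : ℕ → ι → (ι → ℤˣ) → ℝ) (f : (ι → ℤˣ) → ℝ) : Prop where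
  nonneg : ∀ s j x, 0 ≤ p s j x
  sum_le : ∀ s x, ∑ j, p s j x ≤ T
  pt : ∀ s x (J : Finset ι) (m : ℝ), 0 ≤ m → (∀ t < s, ∀ j ∈ J, p t j x ≤ m) →
    ∑ i ∈ J, ∑ j, dd i (p s j) x ^ 2 ≤ 16 * (s : ℝ) ^ 4 * T ^ 3 * m
  ptf : ∀ x (J : Finset ι) (m : ℝ), 0 ≤ m → (∀ t < r, ∀ j ∈ J, p t j x ≤ m) →
    ∑ i ∈ J, dd i f x ^ 2 ≤ 16 * (r : ℝ) ^ 4 * T * m
  bdd : ∀ x, |f x| ≤ 1

theorem ov_update_mem (S : Finset ι) (z x : ι → ℤˣ) (i : ι) (hi : i ∈ S) (c : ℤˣ) :
    ov S z (Function.update x i c) = ov S z x := by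
  funext j
  unfold ov
  by_cases hj : j ∈ S
  · simp [hj]
  · have : j ≠ i := by rintro rfl; exact hj hi
    simp [hj, Function.update_of_ne this]

theorem ov_update_notMem (S : Finset ι) (z x : ι → ℤˣ) (i : ι) (hi : i ∉ S) (c : ℤˣ) :
    ov S z (Function.update x i c) = Function.update (ov S z x) i c := by
  funext j
  unfold ov
  by_cases hj : j = i
  · subst hj
    simp [hi]
  · simp [Function.update_of_ne hj]

theorem dd_ov (S : Finset ι) (z x : ι → ℤˣ) (i : ι) (g : (ι → ℤˣ) → ℝ) :
    dd i (fun x => g (ov S z x)) x = if i ∈ S then 0 else dd i g (ov S z x) := by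
  unfold dd
  by_cases hi : i ∈ S
  · simp only [if_pos hi, ov_update_mem S z x i hi, sub_self, zero_div]
  · simp only [if_neg hi, ov_update_notMem S z x i hi]

theorem Sys.restrict {r : ℕ} {T : ℝ} {p : ℕ → ι → (ι → ℤˣ) → ℝ} {f : (ι → ℤˣ) → ℝ}
    (H : Sys r T p f) (S : Finset ι) (z : ι → ℤˣ) :
    Sys r T (fun s j x => p s j (ov S z x)) (fun x => f (ov S z x)) where
  nonneg := fun s j x => H.nonneg s j _
  sum_le := fun s x => H.sum_le s _
  pt := by
    intro s x J m hm h
    have h1 := H.pt s (ov S z x) (J.filter (fun i => i ∉ S)) m hm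
      (fun t ht j hj => h t ht j (Finset.mem_filter.1 hj).1)
    refine le_trans (le_of_eq ?_) h1
    rw [Finset.sum_filter]
    refine Finset.sum_congr rfl fun i _ => ?_
    simp only [dd_ov]
    by_cases hi : i ∈ S <;> simp [hi]
  ptf := by
    intro x J m hm h
    have h1 := H.ptf (ov S z x) (J.filter (fun i => i ∉ S)) m hm
      (fun t ht j hj => h t ht j (Finset.mem_filter.1 hj).1)
    refine le_trans (le_of_eq ?_) h1
    rw [Finset.sum_filter]
    refine Finset.sum_congr rfl fun i _ => ?_
    simp only [dd_ov]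
    by_cases hi : i ∈ S <;> simp [hi]
  bdd := fun x => H.bdd _

theorem var_av (f : (ι → ℤˣ) → ℝ) : av (fun x => (f x - av f) ^ 2) = variance f := by
  change _ = av (fun x => f x ^ 2) - av f ^ 2
  have h : (fun x => (f x - av f) ^ 2) =
      fun x => (f x ^ 2 + (-2 * av f) * f x) + av f ^ 2 := by
    funext x; ring
  rw [h, av_add, av_add, av_mul, av_const]
  ring

theorem abs_av_le (f : (ι → ℤˣ) → ℝ) (h : ∀ x, |f x| ≤ 1) : |av f| ≤ 1 := by
  rw [abs_le]
  constructor
  · rw [← av_const (ι := ι) (-1)]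
    exact av_mono fun x => (abs_le.1 (h x)).1
  · rw [← av_const (ι := ι) 1]
    exact av_mono fun x => (abs_le.1 (h x)).2

theorem dd_zero (i : ι) (f : (ι → ℤˣ) → ℝ) (h : ∀ x c, f (Function.update x i c) = f x)
    (x : ι → ℤˣ) : dd i f x = 0 := by
  unfold dd
  rw [h, h, sub_self, zero_div]

theorem core (r : ℕ) (T η : ℝ) (hT : 0 ≤ T) (hη : 0 < η) (L : ℕ)
    (hL : ∀ n : ℕ, (n : ℝ) * η ≤ T → n ≤ L) :
    ∀ (n s : ℕ), s + n = r → ∀ (p : ℕ → ι → (ι → ℤˣ) → ℝ) (f : (ι → ℤˣ) → ℝ) (H : Finset ι)
      (W : (ι → ℤˣ) → ℝ), Sys r T p f →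
      (∀ i ∈ H, ∀ x c t j, p t j (Function.update x i c) = p t j x) →
      (∀ i ∈ H, ∀ x c, f (Function.update x i c) = f x) → (∀ x, 0 ≤ W x) →
      (∀ x, ∀ t < s, ∀ j ∉ H, p t j x ≤ W x) →
      Apx (n * L) (Psi (16 * (r : ℝ) ^ 4 * T) η (4 * Real.sqrt (T ^ 3)) n s (av W)) f := by
  have hK : (0 : ℝ) ≤ 16 * (r : ℝ) ^ 4 * T := by positivity
  have hA : (0 : ℝ) ≤ 4 * Real.sqrt (T ^ 3) := by positivity
  intro n
  induction n with
  | zero =>
    intro s hs p f H W hsys hp hf hW0 hW
    rw [add_zero] at hs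
    subst hs
    refine ⟨fun _ => av f, DT.const _ _, fun _ => abs_av_le f hsys.bdd, ?_⟩
    rw [var_av]
    refine (poincare f).trans ?_
    rw [← av_sum]
    change av _ ≤ (16 * (s : ℝ) ^ 4 * T) * av W
    rw [← av_mul]
    refine av_mono fun x => ?_
    have h1 : ∑ i, dd i f x ^ 2 = ∑ i ∈ univ.filter (fun i => i ∉ H), dd i f x ^ 2 := by
      rw [Finset.sum_filter]
      refine Finset.sum_congr rfl fun i _ => ?_
      by_cases hi : i ∈ H
      · simp [hi, dd_zero i f (hf i hi)]
      · simp [hi]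
    rw [h1]
    exact hsys.ptf x _ (W x) (hW0 x) fun t ht j hj => hW x t ht j (Finset.mem_filter.1 hj).2
  | succ n ih =>
    intro s hs p f H W hsys hp hf hW0 hW
    -- the heavy coordinates
    set S : Finset ι := univ.filter (fun j => j ∉ H ∧ η ≤ av (p s j)) with hS
    have hScard : S.card ≤ L := by
      apply hL
      have h1 : (S.card : ℝ) * η ≤ ∑ j ∈ S, av (p s j) := by
        rw [← nsmul_eq_mul, ← Finset.sum_const]
        exact Finset.sum_le_sum fun j hj => (Finset.mem_filter.1 hj).2.2
      have h2 : ∑ j ∈ S, av (p s j) ≤ ∑ j, av (p s j) :=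
        Finset.sum_le_sum_of_subset_of_nonneg (Finset.subset_univ _)
          fun j _ _ => av_nonneg fun x => hsys.nonneg s j x
      have h3 : ∑ j, av (p s j) ≤ T := by
        rw [← av_sum]
        rw [← av_const (ι := ι) T]
        exact av_mono fun x => hsys.sum_le s x
      linarith
    set V : (ι → ℤˣ) → ℝ := fun x => ∑ j, (p s j x - av (p s j)) ^ 2 with hV
    have hV0 : ∀ x, 0 ≤ V x := fun x => Finset.sum_nonneg fun _ _ => sq_nonneg _
    set W' : (ι → ℤˣ) → ℝ := fun x => W x + η + Real.sqrt (V x) with hW'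
    have hW'0 : ∀ x, 0 ≤ W' x := by
      intro x
      have h1 := hW0 x
      have h2 := Real.sqrt_nonneg (V x)
      rw [hW']
      dsimp only
      linarith
    have hbound : ∀ x, ∀ j ∉ H, j ∉ S → p s j x ≤ W' x := by
      intro x j hj hjS
      have h1 : av (p s j) < η := by
        by_contra hcon
        push Not at hcon
        exact hjS (Finset.mem_filter.2 ⟨Finset.mem_univ _, hj, hcon⟩)
      have h2 : p s j x - av (p s j) ≤ Real.sqrt (V x) := by
        refine Real.le_sqrt_of_sq_le ?_
        exact Finset.single_le_sum (f := fun j => (p s j x - av (p s j)) ^ 2)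
          (fun _ _ => sq_nonneg _) (Finset.mem_univ j)
      have h3 := hW0 x
      rw [hW']
      dsimp only
      linarith
    have hmul := multi S (n * L) f
      (fun z => Psi (16 * (r : ℝ) ^ 4 * T) η (4 * Real.sqrt (T ^ 3)) n (s + 1)
        (av (fun x => W' (ov S z x)))) ?_
    · refine MultiP.Apx_mono ?_ ?_ hmul
      · rw [Nat.succ_mul]; omega
      · have h1 := num.2.1 (ι := ι) (16 * (r : ℝ) ^ 4 * T) η (4 * Real.sqrt (T ^ 3)) hK hη.le hA n (s + 1)
          (fun z => av (fun x => W' (ov S z x))) (fun z => av_nonneg fun x => hW'0 _)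
        refine h1.trans ?_
        rw [av_ov]
        change _ ≤ Psi _ _ _ n (s + 1) (stp η (4 * Real.sqrt (T ^ 3)) s (av W))
        refine num.1 _ _ _ hK hη.le hA n (s + 1) _ _ (av_nonneg hW'0) ?_
        have h2 : av W' = av W + η + av (fun x => Real.sqrt (V x)) := by
          rw [hW', av_add (fun x => W x + η), av_add W, av_const]
        rw [h2]
        unfold stp
        have h3 : av (fun x => Real.sqrt (V x)) ≤ Real.sqrt (av V) := num_sqrt V hV0
        have h4 : av V ≤ 16 * (s : ℝ) ^ 4 * T ^ 3 * av W := by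
          rw [hV, av_sum]
          simp only [var_av]
          refine (Finset.sum_le_sum fun j _ => poincare (p s j)).trans ?_
          rw [Finset.sum_comm]
          simp only [← av_sum]
          rw [← av_mul]
          refine av_mono fun x => ?_
          have h1 : ∑ i, ∑ j, dd i (p s j) x ^ 2 =
              ∑ i ∈ univ.filter (fun i => i ∉ H), ∑ j, dd i (p s j) x ^ 2 := by
            rw [Finset.sum_filter]
            refine Finset.sum_congr rfl fun i _ => ?_
            by_cases hi : i ∈ H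
            · rw [if_neg (not_not.2 hi)]
              refine Finset.sum_eq_zero fun j _ => ?_
              rw [dd_zero i (p s j) (fun x c => hp i hi x c s j)]
              ring
            · simp [hi]
          rw [h1]
          exact hsys.pt s x _ (W x) (hW0 x) fun t ht j hj => hW x t ht j (Finset.mem_filter.1 hj).2
        have h5 : Real.sqrt (av V) ≤ 4 * Real.sqrt (T ^ 3) * (s : ℝ) ^ 2 * Real.sqrt (av W) := by
          refine (Real.sqrt_le_sqrt h4).trans (le_of_eq ?_)
          have e1 : 16 * (s : ℝ) ^ 4 * T ^ 3 * av W = (4 * (s : ℝ) ^ 2) ^ 2 * (T ^ 3 * av W) := by ring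
          rw [e1, Real.sqrt_mul (sq_nonneg _), Real.sqrt_sq (by positivity),
            Real.sqrt_mul (by positivity)]
          ring
        linarith
    · intro z
      refine ih (s + 1) (by omega) (fun t j x => p t j (ov S z x)) (fun x => f (ov S z x)) (H ∪ S)
        (fun x => W' (ov S z x)) (hsys.restrict S z) ?_ ?_ (fun x => hW'0 _) ?_
      · intro i hi x c t j
        by_cases hiS : i ∈ S
        · simp only [ov_update_mem S z x i hiS]
        · simp only [ov_update_notMem S z x i hiS]
          exact hp i ((Finset.mem_union.1 hi).resolve_right hiS) _ c t j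
      · intro i hi x c
        by_cases hiS : i ∈ S
        · simp only [ov_update_mem S z x i hiS]
        · simp only [ov_update_notMem S z x i hiS]
          exact hf i ((Finset.mem_union.1 hi).resolve_right hiS) _ c
      · intro x t ht j hj
        rw [Finset.mem_union, not_or] at hj
        rcases Nat.lt_succ_iff_lt_or_eq.1 ht with h | h
        · refine (hW (ov S z x) t h j hj.1).trans ?_
          have h2 := Real.sqrt_nonneg (V (ov S z x))
          rw [hW']
          dsimp only
          linarith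
        · subst h
          exact hbound _ j hj.1 hj.2

end Pool.Agent.H2AD
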