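import Mathlib
import Pool.Agent.Hp22AA.Main
import Pool.Agent.H2AD.AlgRun

/-!
The moment method: one-sided differences, the Efron-Stein inequality for powers, and the resulting
bound for the moments of the light query probabilities.
-/

set_option autoImplicit false
set_option linter.unusedSectionVars false

namespace Pool.Agent.H2AD

open Finset Pool.Agent.Hp22AAD Pool.Agent.Hp22AA

variable {ι : Type} [Fintype ι] [DecidableEq ι]

theorem nb_nb (i : ι) (x : ι → ℤˣ) : nb i (nb i x) = x := by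
  unfold nb
  rw [Function.update_self, neg_neg, Function.update_idem, Function.update_eq_self]

theorem av_nb (i : ι) (g : (ι → ℤˣ) → ℝ) : av (fun x => g (nb i x)) = av g := by
  unfold av
  congr 1
  exact Finset.sum_bij' (fun x _ => nb i x) (fun x _ => nb i x) (fun _ _ => Finset.mem_univ _)
    (fun _ _ => Finset.mem_univ _) (fun x _ => nb_nb i x) (fun x _ => nb_nb i x)
    (fun _ _ => rfl)

theorem var_av (f : (ι → ℤˣ) → ℝ) : av (fun x => (f x - av f) ^ 2) = variance f := by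
  change _ = av (fun x => f x ^ 2) - av f ^ 2
  have h : (fun x => (f x - av f) ^ 2) =
      fun x => (f x ^ 2 + (-2 * av f) * f x) + av f ^ 2 := by
    funext x; ring
  rw [h, av_add, av_add, av_mul, av_const]
  ring

/-- Efron-Stein inequality with one-sided differences -/
theorem es (h : (ι → ℤˣ) → ℝ) :
    variance h ≤ (∑ i, av (fun x => (max 0 (h x - h (nb i x))) ^ 2)) / 2 := by
  refine (poincare h).trans ?_
  rw [Finset.sum_div]
  refine Finset.sum_le_sum fun i _ => ?_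
  have h1 : ∀ x, dd i h x ^ 2 = 1 / 4 * (max 0 (h x - h (nb i x))) ^ 2 +
      1 / 4 * (max 0 (h (nb i x) - h (nb i (nb i x)))) ^ 2 := by
    intro x
    rw [dd_sq, nb_nb]
    rcases le_total (h x) (h (nb i x)) with hc | hc
    · rw [max_eq_left (by linarith : h x - h (nb i x) ≤ 0),
        max_eq_right (by linarith : 0 ≤ h (nb i x) - h x)]
      ring
    · rw [max_eq_right (by linarith : 0 ≤ h x - h (nb i x)),
        max_eq_left (by linarith : h (nb i x) - h x ≤ 0)]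
      ring
  simp only [h1]
  rw [av_add, av_mul, av_mul, av_nb i (fun x => (max 0 (h x - h (nb i x))) ^ 2)]
  linarith

theorem pow_diff (k : ℕ) (a b : ℝ) (hb : 0 ≤ b) (hab : b ≤ a) :
    a ^ (k + 2) - b ^ (k + 2) ≤ ((k : ℝ) + 2) * a ^ k * (a ^ 2 - b ^ 2) := by
  have ha : 0 ≤ a := hb.trans hab
  induction k with
  | zero => norm_num; nlinarith
  | succ k ih =>
    have h1 : b ^ (k + 2) ≤ a ^ (k + 2) := pow_le_pow_left₀ hb hab _
    have h2 : b ^ (k + 2) * (a - b) ≤ a ^ (k + 1) * (a ^ 2 - b ^ 2) := by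
      have h3 : a ^ (k + 1) * (a ^ 2 - b ^ 2) = (a ^ (k + 1) * (a + b)) * (a - b) := by ring
      rw [h3]
      refine mul_le_mul_of_nonneg_right (h1.trans ?_) (by linarith)
      have h4 : a ^ (k + 2) = a ^ (k + 1) * a := by ring
      rw [h4]
      exact mul_le_mul_of_nonneg_left (by linarith) (pow_nonneg ha _)
    have h5 := mul_le_mul_of_nonneg_left ih ha
    have h6 : a ^ (k + 1 + 2) - b ^ (k + 1 + 2) =
        a * (a ^ (k + 2) - b ^ (k + 2)) + b ^ (k + 2) * (a - b) := by ring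
    rw [h6]
    have h7 : a * (((k : ℝ) + 2) * a ^ k * (a ^ 2 - b ^ 2)) =
        ((k : ℝ) + 2) * a ^ (k + 1) * (a ^ 2 - b ^ 2) := by ring
    rw [h7] at h5
    push_cast
    nlinarith

/-- the moment inequality for one function -/
theorem mom (p m : (ι → ℤˣ) → ℝ) (C η : ℝ) (k : ℕ) (hp : ∀ x, 0 ≤ p x)
    (H : ∀ x, ∑ i, (max 0 (p x - p (nb i x))) ^ 2 ≤ C * m x * p x) (hη : av p ≤ η) :
    av (fun x => p x ^ (k + 2)) ≤ η * av (fun x => p x ^ (k + 1)) +
      (((k : ℝ) + 2) ^ 2 * C / 2) * av (fun x => m x * p x ^ (k + 1)) := by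
  set h : (ι → ℤˣ) → ℝ := fun x => Real.sqrt (p x) ^ (k + 2) with hh
  have hs : ∀ x, Real.sqrt (p x) ^ 2 = p x := fun x => Real.sq_sqrt (hp x)
  have h1 : av (fun x => h x ^ 2) = av (fun x => p x ^ (k + 2)) := by
    congr 1
    funext x
    rw [hh]
    dsimp only
    rw [← pow_mul, mul_comm, pow_mul, hs]
  have h2 : av (fun x => h x ^ 2) = variance h + av h ^ 2 := by
    change _ = (av (fun x => h x ^ 2) - av h ^ 2) + av h ^ 2
    ring
  have h3 : av h ^ 2 ≤ η * av (fun x => p x ^ (k + 1)) := by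
    have e1 := av_cs (fun x => Real.sqrt (p x) ^ (k + 1)) (fun x => Real.sqrt (p x))
    have e2 : (fun x => Real.sqrt (p x) ^ (k + 1) * Real.sqrt (p x)) = h := by
      funext x
      rw [hh]
      dsimp only
      ring
    have e3 : (fun x => (Real.sqrt (p x) ^ (k + 1)) ^ 2) = fun x => p x ^ (k + 1) := by
      funext x
      rw [← pow_mul, mul_comm, pow_mul, hs]
    have e4 : (fun x => Real.sqrt (p x) ^ 2) = p := by
      funext x
      exact hs x
    rw [e2, e3, e4] at e1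
    refine e1.trans ?_
    rw [mul_comm]
    exact mul_le_mul_of_nonneg_right hη (av_nonneg fun x => pow_nonneg (hp x) _)
  have h4 : variance h ≤ (((k : ℝ) + 2) ^ 2 * C / 2) * av (fun x => m x * p x ^ (k + 1)) := by
    refine (es h).trans ?_
    rw [← av_sum, div_le_iff₀ (by norm_num : (0 : ℝ) < 2)]
    have e0 : (((k : ℝ) + 2) ^ 2 * C / 2) * av (fun x => m x * p x ^ (k + 1)) * 2 =
        (((k : ℝ) + 2) ^ 2 * C) * av (fun x => m x * p x ^ (k + 1)) := by ring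
    rw [e0, ← av_mul]
    refine av_mono fun x => ?_
    have e1 : ∀ i, (max 0 (h x - h (nb i x))) ^ 2 ≤
        (((k : ℝ) + 2) ^ 2 * p x ^ k) * (max 0 (p x - p (nb i x))) ^ 2 := by
      intro i
      rcases le_total (p (nb i x)) (p x) with hc | hc
      · have e2 : Real.sqrt (p (nb i x)) ≤ Real.sqrt (p x) := Real.sqrt_le_sqrt hc
        have e3 := pow_diff k _ _ (Real.sqrt_nonneg (p (nb i x))) e2
        rw [hs, hs] at e3
        have e4 : h (nb i x) ≤ h x := pow_le_pow_left₀ (Real.sqrt_nonneg _) e2 _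
        rw [max_eq_right (by linarith : 0 ≤ h x - h (nb i x)),
          max_eq_right (by linarith : 0 ≤ p x - p (nb i x))]
        have e5 : (h x - h (nb i x)) ^ 2 ≤
            (((k : ℝ) + 2) * Real.sqrt (p x) ^ k * (p x - p (nb i x))) ^ 2 :=
          pow_le_pow_left₀ (by linarith) e3 2
        refine e5.trans (le_of_eq ?_)
        rw [mul_pow, mul_pow, ← pow_mul (Real.sqrt (p x)), mul_comm k 2, pow_mul, hs]
      · have e2 : Real.sqrt (p x) ≤ Real.sqrt (p (nb i x)) := Real.sqrt_le_sqrt hc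
        have e4 : h x ≤ h (nb i x) := pow_le_pow_left₀ (Real.sqrt_nonneg _) e2 _
        rw [max_eq_left (by linarith : h x - h (nb i x) ≤ 0)]
        have : 0 ≤ (((k : ℝ) + 2) ^ 2 * p x ^ k) * (max 0 (p x - p (nb i x))) ^ 2 :=
          mul_nonneg (mul_nonneg (sq_nonneg _) (pow_nonneg (hp x) _)) (sq_nonneg _)
        simpa using this
    refine (Finset.sum_le_sum fun i _ => e1 i).trans ?_
    rw [← Finset.mul_sum]
    refine (mul_le_mul_of_nonneg_left (H x)
      (mul_nonneg (sq_nonneg _) (pow_nonneg (hp x) _))).trans (le_of_eq ?_)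
    ring
  rw [← h1, h2]
  linarith

theorem yng1 (κ m p : ℝ) (k : ℕ) (hκ : 0 ≤ κ) (hm : 0 ≤ m) (hp : 0 ≤ p) :
    κ * (m * p ^ (k + 1)) ≤ 1 / 2 * p ^ (k + 2) + 1 / 2 * (2 * κ) ^ (k + 1) * (m ^ (k + 1) * p) := by
  rcases le_total (2 * κ * m) p with h | h
  · have h1 : 2 * κ * m * p ^ (k + 1) ≤ p * p ^ (k + 1) :=
      mul_le_mul_of_nonneg_right h (pow_nonneg hp _)
    have h2 : 0 ≤ 1 / 2 * (2 * κ) ^ (k + 1) * (m ^ (k + 1) * p) := by positivity
    have h3 : p * p ^ (k + 1) = p ^ (k + 2) := by ring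
    nlinarith
  · have h1 : p ^ k ≤ (2 * κ * m) ^ k := pow_le_pow_left₀ hp h k
    have h2 : κ * m * p * p ^ k ≤ κ * m * p * (2 * κ * m) ^ k :=
      mul_le_mul_of_nonneg_left h1 (by positivity)
    have h3 : κ * (m * p ^ (k + 1)) = κ * m * p * p ^ k := by ring
    have h4 : κ * m * p * (2 * κ * m) ^ k = 1 / 2 * (2 * κ) ^ (k + 1) * (m ^ (k + 1) * p) := by
      rw [mul_pow (2 * κ) m k]; ring
    have h5 : 0 ≤ 1 / 2 * p ^ (k + 2) := by positivity
    rw [h3]
    linarith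

theorem yng2 (η p : ℝ) (k : ℕ) (hη : 0 ≤ η) (hp : 0 ≤ p) :
    η * p ^ (k + 1) ≤ 1 / 4 * p ^ (k + 2) + 1 / 4 * (4 * η) ^ (k + 1) * p := by
  rcases le_total (4 * η) p with h | h
  · have h1 : 4 * η * p ^ (k + 1) ≤ p * p ^ (k + 1) :=
      mul_le_mul_of_nonneg_right h (pow_nonneg hp _)
    have h2 : 0 ≤ 1 / 4 * (4 * η) ^ (k + 1) * p := by positivity
    have h3 : p * p ^ (k + 1) = p ^ (k + 2) := by ring
    nlinarith
  · have h1 : p ^ k ≤ (4 * η) ^ k := pow_le_pow_left₀ hp h k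
    have h2 : η * p * p ^ k ≤ η * p * (4 * η) ^ k :=
      mul_le_mul_of_nonneg_left h1 (by positivity)
    have h3 : η * p ^ (k + 1) = η * p * p ^ k := by ring
    have h4 : η * p * (4 * η) ^ k = 1 / 4 * (4 * η) ^ (k + 1) * p := by ring
    have h5 : 0 ≤ 1 / 4 * p ^ (k + 2) := by positivity
    rw [h3]
    linarith

/-- the moment bound for one function -/
theorem mom2 (p m : (ι → ℤˣ) → ℝ) (C η : ℝ) (k : ℕ) (hp : ∀ x, 0 ≤ p x) (hm : ∀ x, 0 ≤ m x)
    (hC : 0 ≤ C) (hη0 : 0 ≤ η)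
    (H : ∀ x, ∑ i, (max 0 (p x - p (nb i x))) ^ 2 ≤ C * m x * p x) (hη : av p ≤ η) :
    av (fun x => p x ^ (k + 2)) ≤ 2 * (((k : ℝ) + 2) ^ 2 * C) ^ (k + 1) *
      av (fun x => m x ^ (k + 1) * p x) + (4 * η) ^ (k + 1) * av p := by
  set κ : ℝ := ((k : ℝ) + 2) ^ 2 * C / 2 with hκ
  have hκ0 : 0 ≤ κ := by positivity
  have h2κ : ((k : ℝ) + 2) ^ 2 * C = 2 * κ := by rw [hκ]; ring
  rw [h2κ]
  have h1 := mom p m C η k hp H hη
  rw [← hκ, ← av_mul, ← av_mul] at h1
  have h2 : av (fun x => κ * (m x * p x ^ (k + 1))) ≤ 1 / 2 * av (fun x => p x ^ (k + 2)) +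
      1 / 2 * (2 * κ) ^ (k + 1) * av (fun x => m x ^ (k + 1) * p x) := by
    rw [← av_mul, ← av_mul, ← av_add]
    exact av_mono fun x => yng1 κ (m x) (p x) k hκ0 (hm x) (hp x)
  have h3 : av (fun x => η * p x ^ (k + 1)) ≤ 1 / 4 * av (fun x => p x ^ (k + 2)) +
      1 / 4 * (4 * η) ^ (k + 1) * av p := by
    rw [← av_mul, ← av_mul (1 / 4 * (4 * η) ^ (k + 1)), ← av_add]
    exact av_mono fun x => yng2 η (p x) k hη0 (hp x)
  linarith

/-- the moment bound for the sum over the light indices -/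
theorem mom3 (Λ : Finset ι) (p : ι → (ι → ℤˣ) → ℝ) (m : (ι → ℤˣ) → ℝ) (C η T : ℝ) (k : ℕ)
    (hp : ∀ j x, 0 ≤ p j x) (hm : ∀ x, 0 ≤ m x) (hC : 0 ≤ C) (hη0 : 0 ≤ η)
    (hsum : ∀ x, ∑ j, p j x ≤ T)
    (H : ∀ j ∈ Λ, ∀ x, ∑ i, (max 0 (p j x - p j (nb i x))) ^ 2 ≤ C * m x * p j x)
    (hη : ∀ j ∈ Λ, av (p j) ≤ η) :
    av (fun x => ∑ j ∈ Λ, p j x ^ (k + 2)) ≤ 2 * T * (((k : ℝ) + 2) ^ 2 * C) ^ (k + 1) *
      av (fun x => m x ^ (k + 1)) + T * (4 * η) ^ (k + 1) := by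
  have hΛ : ∀ x, ∑ j ∈ Λ, p j x ≤ T := fun x =>
    (Finset.sum_le_sum_of_subset_of_nonneg (Finset.subset_univ _) fun j _ _ => hp j x).trans
      (hsum x)
  rw [av_sum]
  refine (Finset.sum_le_sum fun j hj => mom2 (p j) m C η k (hp j) hm hC hη0 (H j hj)
    (hη j hj)).trans ?_
  rw [Finset.sum_add_distrib, ← Finset.mul_sum, ← Finset.mul_sum, ← av_sum, ← av_sum]
  have h1 : av (fun x => ∑ j ∈ Λ, m x ^ (k + 1) * p j x) ≤ T * av (fun x => m x ^ (k + 1)) := by
    rw [← av_mul]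
    refine av_mono fun x => ?_
    rw [← Finset.mul_sum, mul_comm T]
    exact mul_le_mul_of_nonneg_left (hΛ x) (pow_nonneg (hm x) _)
  have h2 : av (fun x => ∑ j ∈ Λ, p j x) ≤ T := by
    rw [← av_const (ι := ι) T]
    exact av_mono hΛ
  have h3 : 0 ≤ 2 * (((k : ℝ) + 2) ^ 2 * C) ^ (k + 1) := by positivity
  have h4 : 0 ≤ (4 * η) ^ (k + 1) := by positivity
  have h5 := mul_le_mul_of_nonneg_left h1 h3
  have h6 := mul_le_mul_of_nonneg_left h2 h4
  nlinarith

end Pool.Agent.H2AD
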