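import Mathlib
import Pool.Agent.H2AD.Stm
import Pool.Agent.H2AD.Multi
import Pool.Agent.H2AD.Moment

/-!
The round-by-round argument with moments.
-/

set_option autoImplicit false
set_option linter.unusedSectionVars false

namespace Pool.Agent.H2AD

open Finset Pool.Agent.Hp22AAD Pool.Agent.Hp22AA

variable {ι : Type} [Fintype ι] [DecidableEq ι]

/-- The properties of the query probabilities `p` and of the value `f` which are used. -/
structure Sys2 (r : ℕ) (T : ℝ) (p : ℕ → ι → (ι → ℤˣ) → ℝ) (f : (ι → ℤˣ) → ℝ) : Prop where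
  nonneg : ∀ s j x, 0 ≤ p s j x
  le_one : ∀ s j x, p s j x ≤ 1
  sum_le : ∀ s x, ∑ j, p s j x ≤ T
  pt : ∀ s x (J : Finset ι) (m : ℝ), 0 ≤ m → (∀ t < s, ∀ j ∈ J, p t j x ≤ m) → ∀ k,
    ∑ i ∈ J, (max 0 (p s k x - p s k (nb i x))) ^ 2 ≤ 16 * (s : ℝ) ^ 4 * T * m * p s k x
  ptf : ∀ x (J : Finset ι) (m : ℝ), 0 ≤ m → (∀ t < r, ∀ j ∈ J, p t j x ≤ m) →
    ∑ i ∈ J, dd i f x ^ 2 ≤ 16 * (r : ℝ) ^ 4 * T * m
  bdd : ∀ x, |f x| ≤ 1

theorem ov_update_mem (S : Finset ι) (z x : ι → ℤˣ) (i : ι) (hi : i ∈ S) (c : ℤˣ) :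
    ov S z (Function.update x i c) = ov S z x := by
  funext j
  unfold ov
  by_cases hj : j ∈ S
  · simp [hj]
  · have : j ≠ i := by rintro rfl; exact hj hi
    simp [hj, Function.update_of_ne this]

theorem ov_update_notMem (S : Finset ι) (z x : ι → ℤˣ) (i : ι) (hi : i ∉ S) (c : ℤˣ) :
    ov S z (Function.update x i c) = Function.update (ov S z x) i c := by
  funext j
  unfold ov
  by_cases hj : j = i
  · subst hj
    simp [hi]
  · simp [Function.update_of_ne hj]

theorem ov_nb_mem (S : Finset ι) (z x : ι → ℤˣ) (i : ι) (hi : i ∈ S) :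
    ov S z (nb i x) = ov S z x := ov_update_mem S z x i hi _

theorem ov_nb_notMem (S : Finset ι) (z x : ι → ℤˣ) (i : ι) (hi : i ∉ S) :
    ov S z (nb i x) = nb i (ov S z x) := by
  unfold nb
  rw [ov_update_notMem S z x i hi]
  congr 1
  unfold ov
  rw [if_neg hi]

theorem dd_ov (S : Finset ι) (z x : ι → ℤˣ) (i : ι) (g : (ι → ℤˣ) → ℝ) :
    dd i (fun x => g (ov S z x)) x = if i ∈ S then 0 else dd i g (ov S z x) := by
  unfold dd
  by_cases hi : i ∈ S
  · simp only [if_pos hi, ov_update_mem S z x i hi, sub_self, zero_div]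
  · simp only [if_neg hi, ov_update_notMem S z x i hi]

theorem Sys2.restrict {r : ℕ} {T : ℝ} {p : ℕ → ι → (ι → ℤˣ) → ℝ} {f : (ι → ℤˣ) → ℝ}
    (H : Sys2 r T p f) (S : Finset ι) (z : ι → ℤˣ) :
    Sys2 r T (fun s j x => p s j (ov S z x)) (fun x => f (ov S z x)) where
  nonneg := fun s j x => H.nonneg s j _
  le_one := fun s j x => H.le_one s j _
  sum_le := fun s x => H.sum_le s _
  pt := by
    intro s x J m hm h k
    have h1 := H.pt s (ov S z x) (J.filter (fun i => i ∉ S)) m hm
      (fun t ht j hj => h t ht j (Finset.mem_filter.1 hj).1) k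
    refine le_trans (le_of_eq ?_) h1
    rw [Finset.sum_filter]
    refine Finset.sum_congr rfl fun i _ => ?_
    by_cases hi : i ∈ S
    · simp [hi, ov_nb_mem S z x i hi]
    · simp only [if_pos hi, ov_nb_notMem S z x i hi]
  ptf := by
    intro x J m hm h
    have h1 := H.ptf (ov S z x) (J.filter (fun i => i ∉ S)) m hm
      (fun t ht j hj => h t ht j (Finset.mem_filter.1 hj).1)
    refine le_trans (le_of_eq ?_) h1
    rw [Finset.sum_filter]
    refine Finset.sum_congr rfl fun i _ => ?_
    simp only [dd_ov]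
    by_cases hi : i ∈ S <;> simp [hi]
  bdd := fun x => H.bdd _

theorem abs_av_le (f : (ι → ℤˣ) → ℝ) (h : ∀ x, |f x| ≤ 1) : |av f| ≤ 1 := by
  rw [abs_le]
  constructor
  · rw [← av_const (ι := ι) (-1)]
    exact av_mono fun x => (abs_le.1 (h x)).1
  · rw [← av_const (ι := ι) 1]
    exact av_mono fun x => (abs_le.1 (h x)).2

theorem dd_zero (i : ι) (f : (ι → ℤˣ) → ℝ) (h : ∀ x c, f (Function.update x i c) = f x)
    (x : ι → ℤˣ) : dd i f x = 0 := by
  unfold dd
  rw [h, h, sub_self, zero_div]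

/-- the coefficients of the recursion -/
noncomputable def al (T : ℝ) (N s : ℕ) : ℝ :=
  1 + 2 * T * (((N + s : ℕ) + 1 : ℝ) ^ 2 * (16 * (s : ℝ) ^ 4 * T)) ^ (N + s)

/-- the coefficients of the recursion -/
noncomputable def be (T η : ℝ) (N s : ℕ) : ℝ := T * (4 * η) ^ (N + s)

/-- the affine recursion -/
noncomputable def Lin (K lam T η : ℝ) (N r : ℕ) : ℕ → ℕ → ℝ → ℝ
  | 0, _, a => K * (lam + a / lam ^ (N + r - 1))
  | n + 1, s, a => Lin K lam T η N r n (s + 1) (al T N s * a + be T η N s)

theorem al_nonneg {T : ℝ} (hT : 0 ≤ T) (N s : ℕ) : 0 ≤ al T N s := by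
  unfold al
  positivity

theorem be_nonneg {T η : ℝ} (hT : 0 ≤ T) (hη : 0 ≤ η) (N s : ℕ) : 0 ≤ be T η N s := by
  unfold be
  positivity

theorem Lin_mono (K lam T η : ℝ) (N r : ℕ) (hK : 0 ≤ K) (hl : 0 < lam) (hT : 0 ≤ T) :
    ∀ (n s : ℕ) (a b : ℝ), a ≤ b → Lin K lam T η N r n s a ≤ Lin K lam T η N r n s b := by
  intro n
  induction n with
  | zero =>
    intro s a b hab
    unfold Lin
    gcongr
  | succ n ih =>
    intro s a b hab
    unfold Lin
    apply ih
    have := mul_le_mul_of_nonneg_left hab (al_nonneg hT N s)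
    linarith

theorem Lin_av (K lam T η : ℝ) (N r : ℕ) :
    ∀ (n s : ℕ) (h : (ι → ℤˣ) → ℝ), av (fun x => Lin K lam T η N r n s (h x)) =
      Lin K lam T η N r n s (av h) := by
  intro n
  induction n with
  | zero =>
    intro s h
    unfold Lin
    have e : (fun x => K * (lam + h x / lam ^ (N + r - 1))) =
        fun x => K * lam + (K / lam ^ (N + r - 1)) * h x := by
      funext x; ring
    rw [e, av_add (fun _ => K * lam), av_mul (K / lam ^ (N + r - 1)) h, av_const]
    ring
  | succ n ih =>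
    intro s h
    unfold Lin
    rw [ih, av_add, av_mul, av_const]

theorem core2 (r N : ℕ) (T η lam : ℝ) (hT : 0 ≤ T) (hη : 0 < η) (hl : 0 < lam) (hN : 1 ≤ N)
    (L : ℕ) (hL : ∀ n : ℕ, (n : ℝ) * η ≤ T → n ≤ L) :
    ∀ (n s : ℕ), s + n = r → ∀ (p : ℕ → ι → (ι → ℤˣ) → ℝ) (f : (ι → ℤˣ) → ℝ) (H : Finset ι)
      (Y : (ι → ℤˣ) → ℝ), Sys2 r T p f →
      (∀ i ∈ H, ∀ x c t j, p t j (Function.update x i c) = p t j x) →
      (∀ i ∈ H, ∀ x c, f (Function.update x i c) = f x) → (∀ x, 0 ≤ Y x) →
      (∀ x, ∀ t < s, ∀ j ∉ H, p t j x ^ (N + s) ≤ Y x) →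
      Apx (n * L) (Lin (16 * (r : ℝ) ^ 4 * T) lam T η N r n s (av Y)) f := by
  have hK : (0 : ℝ) ≤ 16 * (r : ℝ) ^ 4 * T := by positivity
  intro n
  induction n with
  | zero =>
    intro s hs p f H Y hsys hp hf hY0 hY
    rw [add_zero] at hs
    subst hs
    refine ⟨fun _ => av f, DT.const _ _, fun _ => abs_av_le f hsys.bdd, ?_⟩
    rw [var_av]
    refine (poincare f).trans ?_
    rw [← av_sum, ← Lin_av (ι := ι)]
    refine av_mono fun x => ?_
    unfold Lin
    have h1 : ∑ i, dd i f x ^ 2 = ∑ i ∈ univ.filter (fun i => i ∉ H), dd i f x ^ 2 := by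
      rw [Finset.sum_filter]
      refine Finset.sum_congr rfl fun i _ => ?_
      by_cases hi : i ∈ H
      · simp [hi, dd_zero i f (hf i hi)]
      · simp [hi]
    rw [h1]
    obtain ⟨m, hm0, hm⟩ : ∃ m : ℝ, 0 ≤ m ∧ m ^ (N + s) = Y x :=
      ⟨Y x ^ (((N + s : ℕ) : ℝ)⁻¹), Real.rpow_nonneg (hY0 x) _,
        Real.rpow_inv_natCast_pow (hY0 x) (by omega)⟩
    have h2 := hsys.ptf x (univ.filter (fun i => i ∉ H)) m hm0 (fun t ht j hj => by
      have h3 := hY x t ht j (Finset.mem_filter.1 hj).2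
      rw [← hm] at h3
      exact le_of_pow_le_pow_left₀ (by omega) hm0 h3)
    refine h2.trans (mul_le_mul_of_nonneg_left ?_ hK)
    rw [← hm]
    rcases le_total m lam with h | h
    · have : 0 ≤ m ^ (N + s) / lam ^ (N + s - 1) := by positivity
      linarith
    · have e1 : m ^ (N + s) = m * m ^ (N + s - 1) := by
        rw [← pow_succ']
        congr 1
        omega
      have e2 : lam ^ (N + s - 1) ≤ m ^ (N + s - 1) := pow_le_pow_left₀ hl.le h _
      have e3 : m ≤ m ^ (N + s) / lam ^ (N + s - 1) := by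
        rw [le_div_iff₀ (by positivity), e1]
        exact mul_le_mul_of_nonneg_left e2 hm0
      linarith
  | succ n ih =>
    intro s hs p f H Y hsys hp hf hY0 hY
    -- the heavy coordinates
    set S : Finset ι := univ.filter (fun j => j ∉ H ∧ η ≤ av (p s j)) with hS
    have hScard : S.card ≤ L := by
      apply hL
      have h1 : (S.card : ℝ) * η ≤ ∑ j ∈ S, av (p s j) := by
        rw [← nsmul_eq_mul, ← Finset.sum_const]
        exact Finset.sum_le_sum fun j hj => (Finset.mem_filter.1 hj).2.2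
      have h2 : ∑ j ∈ S, av (p s j) ≤ ∑ j, av (p s j) :=
        Finset.sum_le_sum_of_subset_of_nonneg (Finset.subset_univ _)
          fun j _ _ => av_nonneg fun x => hsys.nonneg s j x
      have h3 : ∑ j, av (p s j) ≤ T := by
        rw [← av_sum]
        rw [← av_const (ι := ι) T]
        exact av_mono fun x => hsys.sum_le s x
      linarith
    -- the light coordinates
    set Λ : Finset ι := univ.filter (fun j => av (p s j) < η) with hΛ
    set V : (ι → ℤˣ) → ℝ := fun x => ∑ j ∈ Λ, p s j x ^ (N + (s + 1)) with hV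
    have hV0 : ∀ x, 0 ≤ V x := fun x => Finset.sum_nonneg fun j _ => pow_nonneg (hsys.nonneg s j x) _
    set Y' : (ι → ℤˣ) → ℝ := fun x => Y x + V x with hY'
    have hY'0 : ∀ x, 0 ≤ Y' x := fun x => add_nonneg (hY0 x) (hV0 x)
    have hbound : ∀ x, ∀ j ∉ H, j ∉ S → p s j x ^ (N + (s + 1)) ≤ Y' x := by
      intro x j hj hjS
      have h1 : av (p s j) < η := by
        by_contra hcon
        push Not at hcon
        exact hjS (Finset.mem_filter.2 ⟨Finset.mem_univ _, hj, hcon⟩)
      have h2 : p s j x ^ (N + (s + 1)) ≤ V x :=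
        Finset.single_le_sum (f := fun j => p s j x ^ (N + (s + 1)))
          (fun j _ => pow_nonneg (hsys.nonneg s j x) _)
          (Finset.mem_filter.2 ⟨Finset.mem_univ j, h1⟩)
      have h3 := hY0 x
      rw [hY']
      dsimp only
      linarith
    -- the moment bound
    have hmom : av V ≤ 2 * T * (((N + s : ℕ) + 1 : ℝ) ^ 2 * (16 * (s : ℝ) ^ 4 * T)) ^ (N + s) * av Y +
        be T η N s := by
      set m : (ι → ℤˣ) → ℝ := fun x => Y x ^ (((N + s : ℕ) : ℝ)⁻¹) with hm
      have hm0 : ∀ x, 0 ≤ m x := fun x => Real.rpow_nonneg (hY0 x) _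
      have hmY : ∀ x, m x ^ (N + s) = Y x := fun x =>
        Real.rpow_inv_natCast_pow (hY0 x) (by omega)
      obtain ⟨k, hk⟩ : ∃ k : ℕ, N + s = k + 1 := ⟨N + s - 1, by omega⟩
      have h1 := mom3 Λ (p s) m (16 * (s : ℝ) ^ 4 * T) η T k (hsys.nonneg s) hm0 (by positivity)
        hη.le (hsys.sum_le s) ?_ (fun j hj => (Finset.mem_filter.1 hj).2.le)
      · have e1 : (fun x => m x ^ (k + 1)) = Y := by
          funext x
          rw [← hk, hmY]
        have e2 : N + (s + 1) = k + 2 := by omega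
        rw [e1] at h1
        rw [hV]
        simp only [e2]
        unfold be
        rw [hk]
        refine h1.trans (le_of_eq ?_)
        push_cast
        ring
      · intro j hj x
        have h2 := hsys.pt s x (univ.filter (fun i => i ∉ H)) (m x) (hm0 x) (fun t ht l hl => by
          have h3 := hY x t ht l (Finset.mem_filter.1 hl).2
          rw [← hmY] at h3
          exact le_of_pow_le_pow_left₀ (by omega) (hm0 x) h3) j
        refine le_trans (le_of_eq ?_) h2
        rw [Finset.sum_filter]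
        refine Finset.sum_congr rfl fun i _ => ?_
        by_cases hi : i ∈ H
        · have : p s j (nb i x) = p s j x := hp i hi x _ s j
          simp [hi, this]
        · simp [hi]
    have hmul := multi S (n * L) f
      (fun z => Lin (16 * (r : ℝ) ^ 4 * T) lam T η N r n (s + 1)
        (av (fun x => Y' (ov S z x)))) ?_
    · refine MultiP.Apx_mono ?_ ?_ hmul
      · rw [Nat.succ_mul]; omega
      · rw [Lin_av, av_ov]
        change _ ≤ Lin _ _ _ _ _ _ n (s + 1) _
        refine Lin_mono _ _ _ _ _ _ hK hl hT n (s + 1) _ _ ?_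
        have h2 : av Y' = av Y + av V := by
          rw [hY', av_add Y]
        rw [h2]
        unfold al
        linarith
    · intro z
      refine ih (s + 1) (by omega) (fun t j x => p t j (ov S z x)) (fun x => f (ov S z x)) (H ∪ S)
        (fun x => Y' (ov S z x)) (hsys.restrict S z) ?_ ?_ (fun x => hY'0 _) ?_
      · intro i hi x c t j
        by_cases hiS : i ∈ S
        · simp only [ov_update_mem S z x i hiS]
        · simp only [ov_update_notMem S z x i hiS]
          exact hp i ((Finset.mem_union.1 hi).resolve_right hiS) _ c t j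
      · intro i hi x c
        by_cases hiS : i ∈ S
        · simp only [ov_update_mem S z x i hiS]
        · simp only [ov_update_notMem S z x i hiS]
          exact hf i ((Finset.mem_union.1 hi).resolve_right hiS) _ c
      · intro x t ht j hj
        rw [Finset.mem_union, not_or] at hj
        rcases Nat.lt_succ_iff_lt_or_eq.1 ht with h | h
        · have h1 := hY (ov S z x) t h j hj.1
          have h2 : p t j (ov S z x) ^ (N + (s + 1)) ≤ p t j (ov S z x) ^ (N + s) :=
            pow_le_pow_of_le_one (hsys.nonneg t j _) (hsys.le_one t j _) (by omega)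
          have h3 := hV0 (ov S z x)
          rw [hY']
          dsimp only
          linarith
        · subst h
          exact hbound _ j hj.1 hj.2

end Pool.Agent.H2AD
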