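import Mathlib
import Pool.Agent.Hp22AA.Main
import Pool.Agent.H2AD.Defs
import Pool.Agent.H2AD.Stm

/-!
Project H2AD (MP_f992e4_an.BoundedAdaptivity), second group of pieces: trees with batches of queries.
-/

set_option autoImplicit false

namespace Pool.Agent.H2AD

open Finset Pool.Agent.Hp22AAD Pool.Agent.Hp22AA

/-- `g` is computed by a tree with `n` rounds of at most `L` parallel queries (`ov S x 1` is `x` on
`S` and `1` elsewhere, so `G (ov S x 1)` depends on `x` on `S` only) -/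
inductive BT {ι : Type} [DecidableEq ι] (L : ℕ) : ℕ → ((ι → ℤˣ) → ℝ) → Prop
  | const (n : ℕ) (c : ℝ) : BT L n (fun _ => c)
  | node (n : ℕ) (S : Finset ι) (hS : S.card ≤ L) (G : (ι → ℤˣ) → (ι → ℤˣ) → ℝ) :
      (∀ z, BT L n (G z)) → BT L (n + 1) (fun x => G (ov S x 1) x)

/-- PIECE BT (file `Pool/Agent/H2AD/Bt.lean`; theorems `btr : BTR`, `btsub : BTSUB`, `btdt : BTDT`,
`btmulti : BTMULTI`). `BTR`: induction; for a node with `S₀`, `G` take the node with `S₀` and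
`G' w x = G (ov S₀ (ov S z w) 1) (ov S z x)`, since
`ov S₀ (ov S z (ov S₀ x 1)) 1 = ov S₀ (ov S z x) 1`. -/
def BTR : Prop :=
  ∀ {ι : Type} [DecidableEq ι] (L n : ℕ) (g : (ι → ℤˣ) → ℝ) (S : Finset ι) (z : ι → ℤˣ),
    BT L n g → BT L n (fun x => g (ov S z x))

def BTSUB : Prop :=
  ∀ {ι : Type} [DecidableEq ι] (L n : ℕ) (g : (ι → ℤˣ) → ℝ) (c : ℝ),
    BT L n g → BT L n (fun x => g x - c)

/-- `BTDT`: first, for all `S`, `D`, `G`: `(∀ z, DT D (G z)) → DT (S.card + D) (fun x => G (ov S x 1) x)`,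
by induction on `S` (`insert i S`: node at `i`, and the induction hypothesis for
`G_c z = G (Function.update z i c)`, `c = 1, -1`; `ov (insert i S) x 1 = update (ov S x 1) i (x i)`);
then induction on `BT`. `MultiP.DT_le` (file Multi.lean) is monotonicity of `DT` in the depth. -/
def BTDT : Prop :=
  ∀ {ι : Type} [DecidableEq ι] (L n : ℕ) (g : (ι → ℤˣ) → ℝ), BT L n g → DT (n * L) g

/-- `BTMULTI`: for each `z` take `g_z` as given. By `av_ov` (file Multi.lean) and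
`ov S z (ov S y x) = ov S z x`:
`av (x ↦ (f (ov S z x) - g_z x)^2) = av_y av_x (f (ov S z x) - g_z (ov S y x))^2`, so some `y = y(z)`
has `av_x (f (ov S z x) - g_z (ov S y x))^2 ≤ e z` (`MultiP.exists_le_av`). Put
`G z x = g_z (ov S (y z) x)` (`BTR`), and `g x = G (ov S x 1) x`. Then
`av (f - g)^2 = av_z av_x (f (ov S z x) - g (ov S z x))^2`, `g (ov S z x) = G (c z) x` with
`c z = ov S z 1`, `f (ov S z x) = f (ov S (c z) x)`, so this is at most `av_z e (c z) = av e`. -/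
def BTMULTI : Prop :=
  ∀ {ι : Type} [Fintype ι] [DecidableEq ι] (L n : ℕ) (S : Finset ι) (f e : (ι → ℤˣ) → ℝ),
    S.card ≤ L → (∀ z, e (ov S z 1) = e z) →
    (∀ z, ∃ g, BT L n g ∧ (∀ x, |g x| ≤ 1) ∧ av (fun x => (f (ov S z x) - g x) ^ 2) ≤ e z) →
    ∃ g, BT L (n + 1) g ∧ (∀ x, |g x| ≤ 1) ∧ av (fun x => (f x - g x) ^ 2) ≤ av e

/-- PIECE RES (file `Pool/Agent/H2AD/Res.lean`, theorem `res : RES`). By `av_ov` the left side is
`av_z' av_y av_z (f (ov S z y) - f (ov S z' y))^2` (as `ov S z (ov S z' y) = ov S z y`), and for fixed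
`y` and `h z = f (ov S z y)`: `av_z' av_z (h z - h z')^2 = 2 variance h ≤ 2 Σ_i av (dd i h ^ 2)`
(`poincare`), where `dd i h z = dd i f (ov S z y)` for `i ∈ S`, and `0` for `i ∉ S`; then `av_ov`
again. -/
def RES : Prop :=
  ∀ {ι : Type} [Fintype ι] [DecidableEq ι] (S : Finset ι) (f : (ι → ℤˣ) → ℝ),
    av (fun z => av (fun x => (f (ov S z x) - f x) ^ 2)) ≤ 2 * ∑ i ∈ S, av (fun x => dd i f x ^ 2)

/-- PIECE COV (file `Pool/Agent/H2AD/Cov.lean`, theorems `cov : RES → BTR → COV` and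
`fin : COV → BTSUB → FIN`). Induction on `BT` (on `n`), all `g`. Node: `g x = G (ov S x 1) x`. Let
`g_z x = g (ov S z x) = G (ov S z 1) (ov S z x)`, `BT L n g_z` by `BTR`. By `av_ov`
`av (f g) - av f av g = av_z (av_x ((f (ov S z x) - f x) g_z x) + (av (f g_z) - av f av g_z))`. The
first part is at most `√(2 L) M √(av g²)` in absolute value by `av_cs` on `ι` for `x` and
Cauchy-Schwarz for the average over `z` (with `RES`, and `av_z av g_z² = av g²`), the second at most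
`av_z (n √(2 L) M √(av g_z²)) ≤ n √(2 L) M √(av g²)` (`num_sqrt` in Num.lean is
`av √h ≤ √(av h)`). -/
def COV : Prop :=
  ∀ {ι : Type} [Fintype ι] [DecidableEq ι] (L n : ℕ) (f g : (ι → ℤˣ) → ℝ) (M : ℝ), 0 ≤ M →
    (∀ j, av (fun x => dd j f x ^ 2) ≤ M ^ 2) → BT L n g →
    |av (fun x => f x * g x) - av f * av g| ≤
      n * Real.sqrt (2 * L) * M * Real.sqrt (av (fun x => g x ^ 2))

/-- `FIN`: apply `COV` to `g - av g` (`BTSUB`; `av ((g - av g)²) = variance g`). With `V = variance f`: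
`cov(f,g) = V - cov(f, f - g) ≥ V - √V √e`, and `√(variance g) ≤ √V + √e`; if `e ≤ V / 4` this gives
`V / 2 ≤ n √(2 L) M (3/2) √V`, so `V ≤ 18 n² L M²`. -/
def FIN : Prop :=
  ∀ {ι : Type} [Fintype ι] [DecidableEq ι] (L n : ℕ) (f g : (ι → ℤˣ) → ℝ) (M e : ℝ), 0 ≤ M →
    (∀ j, av (fun x => dd j f x ^ 2) ≤ M ^ 2) → BT L n g →
    av (fun x => (f x - g x) ^ 2) ≤ e →
    variance f ≤ max (4 * e) (18 * (n : ℝ) ^ 2 * L * M ^ 2)

end Pool.Agent.H2AD
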