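import Pool.Agent.H2AD.Stm2
import Pool.Agent.H2AD.Multi
import Pool.Agent.H2AD.Num
import Pool.Agent.H2AD.Core

/-!
Project H2AD, piece COV: covariance of a function of small derivatives and a tree with few rounds
of parallel queries.
-/

set_option autoImplicit false
set_option linter.unusedSectionVars false
set_option linter.unusedSimpArgs false

namespace Pool.Agent.H2AD

open Finset Pool.Agent.Hp22AAD Pool.Agent.Hp22AA

namespace CovP

variable {ι : Type} [Fintype ι] [DecidableEq ι]

theorem abs_av (h : (ι → ℤˣ) → ℝ) : |av h| ≤ av (fun x => |h x|) := by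
  rw [abs_le]
  constructor
  · have h1 : av (fun x => (-1) * |h x|) ≤ av h := av_mono fun x => by
      have := neg_abs_le (h x)
      linarith
    rw [av_mul] at h1
    linarith
  · exact av_mono fun x => le_abs_self _

theorem cs_abs (g h : (ι → ℤˣ) → ℝ) :
    |av (fun x => g x * h x)| ≤
      Real.sqrt (av (fun x => g x ^ 2)) * Real.sqrt (av (fun x => h x ^ 2)) := by
  rw [← Real.sqrt_mul (av_nonneg fun x => sq_nonneg _)]
  exact Real.abs_le_sqrt (av_cs g h)

theorem cs_sqrt (a b : (ι → ℤˣ) → ℝ) (ha : ∀ x, 0 ≤ a x) (hb : ∀ x, 0 ≤ b x) :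
    av (fun x => Real.sqrt (a x) * Real.sqrt (b x)) ≤ Real.sqrt (av a) * Real.sqrt (av b) := by
  refine (le_abs_self _).trans ((cs_abs _ _).trans (le_of_eq ?_))
  simp only [Real.sq_sqrt (ha _), Real.sq_sqrt (hb _)]

theorem av_sub (g h : (ι → ℤˣ) → ℝ) : av (fun x => g x - h x) = av g - av h := by
  have h1 : (fun x => g x - h x) = fun x => g x + (-1) * h x := by
    funext x; ring
  rw [h1, av_add, av_mul]
  ring

theorem ov_ov_one (S : Finset ι) (z x : ι → ℤˣ) : ov S (ov S z x) 1 = ov S z 1 := by
  funext j
  unfold ov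
  by_cases hj : j ∈ S <;> simp [hj]

theorem var_le (f : (ι → ℤˣ) → ℝ) : variance f ≤ av (fun x => f x ^ 2) := by
  change av (fun x => f x ^ 2) - av f ^ 2 ≤ _
  nlinarith [sq_nonneg (av f)]

end CovP

open CovP

theorem cov : RES → BTR → COV := by
  intro hres hbtr ι _ _ L n f
  induction n with
  | zero =>
    intro g M hM hd hg
    cases hg with
    | const n c =>
      have h1 : (fun x => f x * c) = fun x => c * f x := by funext x; ring
      have h2 : av (fun x => f x * c) - av f * av (fun _ : ι → ℤˣ => c) = 0 := by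
        rw [h1, av_mul, av_const]; ring
      rw [h2]
      simp
  | succ m ih =>
    intro g M hM hd hg
    cases hg with
    | const n c =>
      have h1 : (fun x => f x * c) = fun x => c * f x := by funext x; ring
      have h2 : av (fun x => f x * c) - av f * av (fun _ : ι → ℤˣ => c) = 0 := by
        rw [h1, av_mul, av_const]; ring
      rw [h2]
      simp only [abs_zero]
      positivity
    | node n S hS G hG =>
      obtain ⟨g, hgdef⟩ : ∃ g : (ι → ℤˣ) → ℝ, g = fun x => G (ov S x 1) x := ⟨_, rfl⟩
      obtain ⟨gz, hgz⟩ : ∃ gz : (ι → ℤˣ) → (ι → ℤˣ) → ℝ,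
        gz = fun z x => G (ov S z 1) (ov S z x) := ⟨_, rfl⟩
      have hgg : ∀ z x, g (ov S z x) = gz z x := by
        intro z x
        simp only [hgdef, hgz, ov_ov_one]
      have hbt : ∀ z, BT L m (gz z) := by
        intro z
        rw [hgz]
        exact hbtr L m (G (ov S z 1)) S z (hG _)
      have e1 : av (fun x => f x * g x) =
          av (fun z => av (fun x => f (ov S z x) * gz z x)) := by
        rw [← av_ov S (fun x => f x * g x)]
        simp only [hgg]
      have e2 : av g = av (fun z => av (gz z)) := by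
        rw [← av_ov S g]
        simp only [hgg]
      have e3 : av (fun x => g x ^ 2) = av (fun z => av (fun x => gz z x ^ 2)) := by
        rw [← av_ov S (fun x => g x ^ 2)]
        simp only [hgg]
      have e4 : av (fun x => f x * g x) - av f * av g =
          av (fun z => av (fun x => (f (ov S z x) - f x) * gz z x)) +
          av (fun z => av (fun x => f x * gz z x) - av f * av (gz z)) := by
        rw [e1, e2, ← av_mul, ← av_sub, ← av_add]
        congr 1
        funext z
        have : (fun x => (f (ov S z x) - f x) * gz z x) =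
            fun x => f (ov S z x) * gz z x - f x * gz z x := by
          funext x; ring
        rw [this, av_sub]
        ring
      have b1 : |av (fun z => av (fun x => (f (ov S z x) - f x) * gz z x))| ≤
          Real.sqrt (2 * L) * M * Real.sqrt (av (fun x => g x ^ 2)) := by
        have c1 : |av (fun z => av (fun x => (f (ov S z x) - f x) * gz z x))| ≤
            av (fun z => Real.sqrt (av (fun x => (f (ov S z x) - f x) ^ 2)) *
              Real.sqrt (av (fun x => gz z x ^ 2))) :=
          (abs_av _).trans (av_mono fun z => cs_abs _ _)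
        have c2 := cs_sqrt (fun z => av (fun x => (f (ov S z x) - f x) ^ 2))
          (fun z => av (fun x => gz z x ^ 2)) (fun z => av_nonneg fun x => sq_nonneg _)
          (fun z => av_nonneg fun x => sq_nonneg _)
        have c3 : Real.sqrt (av (fun z => av (fun x => (f (ov S z x) - f x) ^ 2))) ≤
            Real.sqrt (2 * L) * M := by
          have d1 : ∑ i ∈ S, av (fun x => dd i f x ^ 2) ≤ L * M ^ 2 := by
            refine (Finset.sum_le_sum fun i _ => hd i).trans ?_
            rw [Finset.sum_const, nsmul_eq_mul]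
            have : (S.card : ℝ) ≤ L := by exact_mod_cast hS
            gcongr
          have d2 := hres S f
          have d3 : av (fun z => av (fun x => (f (ov S z x) - f x) ^ 2)) ≤ 2 * L * M ^ 2 := by
            linarith
          calc Real.sqrt (av (fun z => av (fun x => (f (ov S z x) - f x) ^ 2)))
              ≤ Real.sqrt (2 * L * M ^ 2) := Real.sqrt_le_sqrt d3
            _ = Real.sqrt (2 * L) * M := by
              rw [Real.sqrt_mul (by positivity), Real.sqrt_sq hM]
        rw [e3]
        exact c1.trans (c2.trans (by gcongr))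
      have b2 : |av (fun z => av (fun x => f x * gz z x) - av f * av (gz z))| ≤
          m * Real.sqrt (2 * L) * M * Real.sqrt (av (fun x => g x ^ 2)) := by
        have c1 : |av (fun z => av (fun x => f x * gz z x) - av f * av (gz z))| ≤
            av (fun z => m * Real.sqrt (2 * L) * M * Real.sqrt (av (fun x => gz z x ^ 2))) :=
          (abs_av _).trans (av_mono fun z => ih (gz z) M hM hd (hbt z))
        rw [av_mul] at c1
        have c2 := num_sqrt (fun z => av (fun x => gz z x ^ 2))
          (fun z => av_nonneg fun x => sq_nonneg _)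
        rw [e3]
        refine c1.trans ?_
        gcongr
      change |av (fun x => f x * (fun x => G (ov S x 1) x) x) - av f * av (fun x => G (ov S x 1) x)| ≤
        _ * Real.sqrt (av (fun x => (fun x => G (ov S x 1) x) x ^ 2))
      rw [← hgdef, e4]
      refine (abs_add_le _ _).trans ?_
      push_cast
      linarith

theorem fin : COV → BTSUB → FIN := by
  intro hcov hsub ι _ _ L n f g M e hM hd hg he
  by_cases hV : variance f ≤ 4 * e
  · exact le_max_of_le_left hV
  push Not at hV
  refine le_max_of_le_right ?_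
  have he0 : 0 ≤ e := (av_nonneg fun x => sq_nonneg _).trans he
  obtain ⟨V, hVdef⟩ : ∃ V, V = variance f := ⟨_, rfl⟩
  rw [← hVdef] at hV ⊢
  have hV0 : 0 < V := by linarith
  obtain ⟨u, hu⟩ : ∃ u : (ι → ℤˣ) → ℝ, u = fun x => f x - av f := ⟨_, rfl⟩
  obtain ⟨v, hv⟩ : ∃ v : (ι → ℤˣ) → ℝ, v = fun x => g x - av g := ⟨_, rfl⟩
  obtain ⟨w, hw⟩ : ∃ w : (ι → ℤˣ) → ℝ, w = fun x => u x - v x := ⟨_, rfl⟩
  have hvav : av v = 0 := by
    rw [hv, av_sub, av_const]; ring
  have huV : av (fun x => u x ^ 2) = V := by
    rw [hu, hVdef, ← var_av]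
  have hwe : av (fun x => w x ^ 2) ≤ e := by
    have h1 : (fun x => w x ^ 2) =
        fun x => ((fun x => f x - g x) x - av (fun x => f x - g x)) ^ 2 := by
      funext x
      rw [av_sub, hw, hu, hv]
      ring
    rw [h1, var_av]
    exact (var_le _).trans he
  have hc := hcov L n f v M hM hd (by rw [hv]; exact hsub L n g (av g) hg)
  rw [hvav, mul_zero, sub_zero] at hc
  have h1 : av (fun x => f x * v x) = V - av (fun x => u x * w x) := by
    have h2 : (fun x => f x * v x) = fun x => (u x ^ 2 - u x * w x) + av f * v x := by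
      funext x
      rw [hw]
      have : f x = u x + av f := by rw [hu]; ring
      rw [this]
      ring
    rw [h2, av_add, av_sub, av_mul, hvav, huV]
    ring
  have h3 : av (fun x => v x ^ 2) = V - 2 * av (fun x => u x * w x) + av (fun x => w x ^ 2) := by
    have h2 : (fun x => v x ^ 2) = fun x => (u x ^ 2 - 2 * (u x * w x)) + w x ^ 2 := by
      funext x
      rw [hw]
      ring
    rw [h2, av_add, av_sub, av_mul, huV]
  obtain ⟨a, ha⟩ : ∃ a, a = Real.sqrt V := ⟨_, rfl⟩
  obtain ⟨b, hb⟩ : ∃ b, b = Real.sqrt e := ⟨_, rfl⟩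
  have ha0 : 0 < a := by rw [ha]; exact Real.sqrt_pos.2 hV0
  have hb0 : 0 ≤ b := by rw [hb]; exact Real.sqrt_nonneg _
  have haV : a ^ 2 = V := by rw [ha]; exact Real.sq_sqrt hV0.le
  have hbe : b ^ 2 = e := by rw [hb]; exact Real.sq_sqrt he0
  have hab : b ≤ a / 2 := by
    by_contra hcon
    push Not at hcon
    nlinarith
  have h4 : |av (fun x => u x * w x)| ≤ a * b := by
    refine (cs_abs u w).trans ?_
    rw [huV, ← ha, hb]
    have := Real.sqrt_le_sqrt hwe
    gcongr
  have h5 : Real.sqrt (av (fun x => v x ^ 2)) ≤ a + b := by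
    rw [Real.sqrt_le_left (by linarith), h3]
    have := (abs_le.1 h4).1
    nlinarith
  have h6 : a ^ 2 - a * b ≤ n * Real.sqrt (2 * L) * M * (a + b) := by
    have h7 := (abs_le.1 hc).2
    have h8 : n * Real.sqrt (2 * L) * M * Real.sqrt (av (fun x => v x ^ 2)) ≤
        n * Real.sqrt (2 * L) * M * (a + b) := by gcongr
    have h9 := (abs_le.1 h4).2
    linarith
  obtain ⟨K, hK⟩ : ∃ K, K = n * Real.sqrt (2 * L) * M := ⟨_, rfl⟩
  rw [← hK] at h6
  have hK0 : 0 ≤ K := by rw [hK]; positivity
  have h7 : a ≤ 3 * K := by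
    by_contra hcon
    push Not at hcon
    have i1 : K * (a + b) ≤ K * (3 / 2 * a) := by
      apply mul_le_mul_of_nonneg_left _ hK0
      linarith
    have i2 : a * b ≤ a * (a / 2) := mul_le_mul_of_nonneg_left hab ha0.le
    nlinarith
  have h8 : K ^ 2 = 2 * (n : ℝ) ^ 2 * L * M ^ 2 := by
    rw [hK, mul_pow, mul_pow, Real.sq_sqrt (by positivity)]
    ring
  have h9 : a ^ 2 ≤ (3 * K) ^ 2 := by gcongr
  rw [← haV]
  nlinarith

end Pool.Agent.H2AD
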