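import Pool.Agent.H2AD.Stm3
import Pool.Agent.H2AD.AlgRun

/-!
Piece DEG: the value of an algorithm with `r` rounds of at most `T` queries has degree at most
`2 r T`.
-/

set_option autoImplicit false

namespace Pool.Agent.H2AD

open Finset Pool.Agent.Hp22AAD Pool.Agent.Hp22AA

section cdeg

variable {ι κ : Type} [Fintype ι] [DecidableEq ι] [Fintype κ] {T : ℕ}

/-- complex functions of degree at most `d` -/
def cdeg (ι : Type) [Fintype ι] [DecidableEq ι] (d : ℕ) : Submodule ℂ ((ι → ℤˣ) → ℂ) :=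
  Submodule.span ℂ {F | ∃ S : Finset ι, S.card ≤ d ∧ F = fun x => ((chi S x : ℝ) : ℂ)}

theorem cdeg_chi {S : Finset ι} {d : ℕ} (h : S.card ≤ d) :
    (fun x => ((chi S x : ℝ) : ℂ)) ∈ cdeg ι d :=
  Submodule.subset_span ⟨S, h, rfl⟩

theorem chi_mul_chi (S R : Finset ι) (x : ι → ℤˣ) :
    chi S x * chi R x = chi (symmDiff S R) x := by
  rw [chi_univ, chi_univ, chi_univ, ← Finset.prod_mul_distrib]
  refine Finset.prod_congr rfl fun i _ => ?_
  by_cases hS : i ∈ S <;> by_cases hR : i ∈ R <;>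
    simp [Finset.mem_symmDiff, hS, hR, sv_mul_self]

theorem card_symmDiff_le (S R : Finset ι) : (symmDiff S R).card ≤ S.card + R.card := by
  refine le_trans (Finset.card_le_card ?_) (Finset.card_union_le S R)
  intro i hi
  rw [Finset.mem_symmDiff] at hi
  rw [Finset.mem_union]
  tauto

theorem cdeg_mul {d e : ℕ} {F G : (ι → ℤˣ) → ℂ} (hF : F ∈ cdeg ι d) (hG : G ∈ cdeg ι e) :
    (fun x => F x * G x) ∈ cdeg ι (d + e) := by
  have h : F * G ∈ cdeg ι d * cdeg ι e := Submodule.mul_mem_mul hF hG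
  unfold cdeg at h
  rw [Submodule.span_mul_span] at h
  refine Submodule.span_le.2 ?_ h
  rintro _ ⟨_, ⟨S, hS, rfl⟩, _, ⟨R, hR, rfl⟩, rfl⟩
  have h1 : ((fun x => ((chi S x : ℝ) : ℂ)) * fun x : ι → ℤˣ => ((chi R x : ℝ) : ℂ)) =
      fun x => ((chi (symmDiff S R) x : ℝ) : ℂ) := by
    funext x
    rw [Pi.mul_apply, ← Complex.ofReal_mul, chi_mul_chi]
  show ((fun x => ((chi S x : ℝ) : ℂ)) * fun x : ι → ℤˣ => ((chi R x : ℝ) : ℂ)) ∈ cdeg ι (d + e)
  rw [h1]
  exact cdeg_chi ((card_symmDiff_le S R).trans (Nat.add_le_add hS hR))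

theorem cdeg_conj {d : ℕ} {F : (ι → ℤˣ) → ℂ} (hF : F ∈ cdeg ι d) :
    (fun x => (starRingEnd ℂ) (F x)) ∈ cdeg ι d := by
  unfold cdeg at hF
  induction hF using Submodule.span_induction with
  | mem F h =>
    obtain ⟨S, hS, rfl⟩ := h
    simp only [Complex.conj_ofReal]
    exact cdeg_chi hS
  | zero =>
    simp only [Pi.zero_apply, map_zero]
    exact zero_mem _
  | add F G _ _ hF hG =>
    simp only [Pi.add_apply, map_add]
    exact add_mem hF hG
  | smul a F _ hF =>
    simp only [Pi.smul_apply, smul_eq_mul, map_mul]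
    exact (cdeg ι d).smul_mem ((starRingEnd ℂ) a) hF

theorem cdeg_coeff {d : ℕ} {F : (ι → ℤˣ) → ℂ} (hF : F ∈ cdeg ι d) (S : Finset ι)
    (hS : d < S.card) : ∑ x, F x * ((chi S x : ℝ) : ℂ) = 0 := by
  unfold cdeg at hF
  induction hF using Submodule.span_induction with
  | mem F h =>
    obtain ⟨R, hR, rfl⟩ := h
    have hne : R ≠ S := by
      rintro rfl
      omega
    have h1 := av_chi_chi R S
    rw [if_neg hne, av, div_eq_zero_iff] at h1
    have h2 : ∑ x, chi R x * chi S x = 0 := h1.resolve_right (by positivity)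
    simp only [← Complex.ofReal_mul, ← Complex.ofReal_sum]
    rw [h2, Complex.ofReal_zero]
  | zero => simp
  | add F G _ _ hF hG =>
    simp only [Pi.add_apply, add_mul, Finset.sum_add_distrib]
    rw [hF, hG, add_zero]
  | smul a F _ hF =>
    simp only [Pi.smul_apply, smul_eq_mul, mul_assoc, ← Finset.mul_sum]
    rw [hF, mul_zero]

theorem comp_cdeg (M : Sp κ →L[ℂ] Sp κ) {d : ℕ} (w : (ι → ℤˣ) → Sp κ)
    (hw : ∀ l, (fun x => w x l) ∈ cdeg ι d) (k : κ) : (fun x => M (w x) k) ∈ cdeg ι d := by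
  classical
  have h4 : (fun x => M (w x) k) =
      ∑ l, (M (EuclideanSpace.single l (1 : ℂ)) k) • fun x => w x l := by
    funext x
    have h5 : w x = ∑ l, (w x l) • (EuclideanSpace.single l (1 : ℂ) : Sp κ) := by
      ext j
      rw [WithLp.ofLp_sum, Finset.sum_apply]
      simp [Pi.single_apply]
    have h6 : M (w x) = ∑ l, (w x l) • M (EuclideanSpace.single l (1 : ℂ) : Sp κ) := by
      conv_lhs => rw [h5]
      rw [map_sum]
      exact Finset.sum_congr rfl fun l _ => by rw [map_smul]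
    rw [h6, WithLp.ofLp_sum, Finset.sum_apply, Finset.sum_apply]
    refine Finset.sum_congr rfl fun l _ => ?_
    rw [PiLp.smul_apply, Pi.smul_apply, smul_eq_mul, smul_eq_mul, mul_comm]
  rw [h4]
  exact Submodule.sum_mem _ fun l _ => Submodule.smul_mem _ _ (hw l)

theorem state_cdeg (A : Alg ι κ T) (s : ℕ) :
    ∀ k : κ, (fun x => A.state s x k) ∈ cdeg ι (s * T) := by
  induction s with
  | zero =>
    intro k
    have h := (cdeg ι (0 * T)).smul_mem (A.start k)
      (cdeg_chi (S := (∅ : Finset ι)) (by simp))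
    have e : (fun x : ι → ℤˣ => A.state 0 x k) =
        A.start k • fun x : ι → ℤˣ => ((chi ∅ x : ℝ) : ℂ) := by
      funext x
      rw [Pi.smul_apply, chi_empty, Complex.ofReal_one, smul_eq_mul, mul_one]
      rfl
    rw [e]
    exact h
  | succ s ih =>
    refine comp_cdeg (A.U s) (fun x => A.oracle s x (A.state s x)) fun l => ?_
    have h2 := cdeg_mul (cdeg_chi (S := A.Q s l) (A.card_Q s l)) (ih l)
    rw [show (s + 1) * T = T + s * T by ring]
    exact h2

end cdeg

theorem deg : DEG := by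
  intro ι κ _ _ _ T A M r S hS
  have h1 : (fun x => (inner ℂ (A.state r x) (M (A.state r x)) : ℂ)) ∈ cdeg ι (2 * r * T) := by
    have e : (fun x => (inner ℂ (A.state r x) (M (A.state r x)) : ℂ)) =
        ∑ k, fun x => (M (A.state r x)) k * (starRingEnd ℂ) (A.state r x k) := by
      funext x
      rw [PiLp.inner_apply, Finset.sum_apply]
      exact Finset.sum_congr rfl fun k _ => by rw [RCLike.inner_apply]
    rw [e, show 2 * r * T = r * T + r * T by ring]
    exact Submodule.sum_mem _ fun k _ =>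
      cdeg_mul (comp_cdeg M (fun x => A.state r x) (state_cdeg A r) k)
        (cdeg_conj (state_cdeg A r k))
  have h2 := congrArg Complex.re (cdeg_coeff h1 S hS)
  rw [Complex.re_sum, Complex.zero_re] at h2
  unfold coeff
  rw [div_eq_zero_iff]
  left
  rw [← h2]
  refine Finset.sum_congr rfl fun x _ => ?_
  rw [Complex.re_mul_ofReal]
  rfl

end Pool.Agent.H2AD
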