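import Mathlib
import Pool.Agent.H2AD.Core2

/-!
The numerical bound for the recursion.
-/

set_option autoImplicit false

namespace Pool.Agent.H2AD

/-- the recursion with starting value 0 -/
noncomputable def seqa (T η : ℝ) (N : ℕ) : ℕ → ℝ
  | 0 => 0
  | s + 1 => al T N s * seqa T η N s + be T η N s

theorem Lin_seqa (K lam T η : ℝ) (N r : ℕ) : ∀ (n s : ℕ),
    Lin K lam T η N r n s (seqa T η N s) = K * (lam + seqa T η N (s + n) / lam ^ (N + r - 1)) := by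
  intro n
  induction n with
  | zero => intro s; rfl
  | succ n ih =>
    intro s
    change Lin K lam T η N r n (s + 1) (seqa T η N (s + 1)) = _
    rw [ih]
    congr 4
    omega

theorem seqa_bound (r : ℕ) (T η : ℝ) (hT : 1 ≤ T) (hη : 0 ≤ η) (hη1 : 4 * η ≤ 1) :
    ∀ s : ℕ, s + 1 ≤ r → seqa T η r (s + 1) ≤
      T * (4 * η) ^ r * (4 * T * (64 * (r : ℝ) ^ 6 * T) ^ (2 * r)) ^ s := by
  intro s
  induction s with
  | zero =>
    intro _
    change al T r 0 * 0 + be T η r 0 ≤ _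
    unfold be
    simp
  | succ s ih =>
    intro hs
    have ih' := ih (by omega)
    change al T r (s + 1) * seqa T η r (s + 1) + be T η r (s + 1) ≤ _
    set X : ℝ := (64 * (r : ℝ) ^ 6 * T) ^ (2 * r) with hX
    have hr1 : (1 : ℝ) ≤ r := by exact_mod_cast (show 1 ≤ r by omega)
    have hB1 : (1 : ℝ) ≤ 64 * (r : ℝ) ^ 6 * T := by
      have h1 : (1 : ℝ) ≤ (r : ℝ) ^ 6 := one_le_pow₀ hr1
      nlinarith
    have hX1 : (1 : ℝ) ≤ X := one_le_pow₀ hB1
    have hal : al T r (s + 1) ≤ 1 + 2 * T * X := by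
      unfold al
      have h1 : (((r + (s + 1) : ℕ) + 1 : ℝ) ^ 2 * (16 * ((s + 1 : ℕ) : ℝ) ^ 4 * T)) ≤
          64 * (r : ℝ) ^ 6 * T := by
        have h2 : ((r + (s + 1) : ℕ) + 1 : ℝ) ≤ 2 * r := by
          exact_mod_cast (show r + (s + 1) + 1 ≤ 2 * r by omega)
        have h3 : ((s + 1 : ℕ) : ℝ) ≤ r := by exact_mod_cast (show s + 1 ≤ r by omega)
        have h4 : ((r + (s + 1) : ℕ) + 1 : ℝ) ^ 2 ≤ (2 * r) ^ 2 :=
          pow_le_pow_left₀ (by positivity) h2 2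
        have h5 : ((s + 1 : ℕ) : ℝ) ^ 4 ≤ (r : ℝ) ^ 4 := pow_le_pow_left₀ (by positivity) h3 4
        have h6 : 16 * ((s + 1 : ℕ) : ℝ) ^ 4 * T ≤ 16 * (r : ℝ) ^ 4 * T := by
          have hT0 : 0 ≤ T := by linarith
          nlinarith
        calc _ ≤ (2 * (r : ℝ)) ^ 2 * (16 * (r : ℝ) ^ 4 * T) :=
              mul_le_mul h4 h6 (by positivity) (by positivity)
          _ = _ := by ring
      have h2 : (((r + (s + 1) : ℕ) + 1 : ℝ) ^ 2 * (16 * ((s + 1 : ℕ) : ℝ) ^ 4 * T)) ^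
          (r + (s + 1)) ≤ X := by
        refine (pow_le_pow_left₀ (by positivity) h1 _).trans ?_
        exact pow_le_pow_right₀ hB1 (by omega)
      have h3 : 0 ≤ 2 * T := by linarith
      have h4 := mul_le_mul_of_nonneg_left h2 h3
      linarith
    have hbe : be T η r (s + 1) ≤ T * (4 * η) ^ r := by
      unfold be
      refine mul_le_mul_of_nonneg_left ?_ (by linarith)
      exact pow_le_pow_of_le_one (by linarith) hη1 (by omega)
    have hP : (1 : ℝ) ≤ (4 * T * X) ^ s := one_le_pow₀ (by nlinarith)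
    have hc : 0 ≤ T * (4 * η) ^ r := by positivity
    have h1 : al T r (s + 1) * seqa T η r (s + 1) ≤
        (1 + 2 * T * X) * (T * (4 * η) ^ r * (4 * T * X) ^ s) := by
      refine (mul_le_mul_of_nonneg_left ih' (al_nonneg (by linarith) r (s + 1))).trans ?_
      exact mul_le_mul_of_nonneg_right hal (by positivity)
    have h2 : T * (4 * η) ^ r ≤ T * (4 * η) ^ r * (4 * T * X) ^ s := by nlinarith
    have h3 : (1 + 2 * T * X) * (T * (4 * η) ^ r * (4 * T * X) ^ s) +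
        T * (4 * η) ^ r * (4 * T * X) ^ s =
        (2 + 2 * T * X) * (T * (4 * η) ^ r * (4 * T * X) ^ s) := by ring
    have h4 : (2 + 2 * T * X) * (T * (4 * η) ^ r * (4 * T * X) ^ s) ≤
        (4 * T * X) * (T * (4 * η) ^ r * (4 * T * X) ^ s) := by
      refine mul_le_mul_of_nonneg_right ?_ (by positivity)
      nlinarith
    have h5 : (4 * T * X) * (T * (4 * η) ^ r * (4 * T * X) ^ s) =
        T * (4 * η) ^ r * (4 * T * X) ^ (s + 1) := by ring
    linarith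

/-- the numerical bound -/
theorem num2 (r : ℕ) (T ε lam η : ℝ) (hr : 1 ≤ r) (hT : 1 ≤ T) (hε : 0 < ε) (hε1 : ε ≤ 1)
    (hlam : lam = ε / (32 * (r : ℝ) ^ 4 * T))
    (hη : η = lam ^ 2 / (16 * T ^ 2 * (64 * (r : ℝ) ^ 6 * T) ^ (2 * r - 2))) :
    Lin (16 * (r : ℝ) ^ 4 * T) lam T η r r r 0 0 ≤ ε := by
  have hr1 : (1 : ℝ) ≤ r := by exact_mod_cast hr
  have hr4 : (1 : ℝ) ≤ (r : ℝ) ^ 4 := one_le_pow₀ hr1
  have hr6 : (1 : ℝ) ≤ (r : ℝ) ^ 6 := one_le_pow₀ hr1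
  set B : ℝ := 64 * (r : ℝ) ^ 6 * T with hB
  have hB1 : (1 : ℝ) ≤ B := by rw [hB]; nlinarith
  have hB2 : (1 : ℝ) ≤ B ^ (2 * r - 2) := one_le_pow₀ hB1
  have hT2 : (1 : ℝ) ≤ T ^ 2 := one_le_pow₀ hT
  have hden : (1 : ℝ) ≤ 32 * (r : ℝ) ^ 4 * T := by nlinarith
  have hl0 : 0 < lam := by rw [hlam]; positivity
  have hl1 : lam ≤ 1 := by
    rw [hlam, div_le_one (by linarith)]
    linarith
  have hη0 : 0 ≤ η := by rw [hη]; positivity
  have h4η : 4 * η = lam ^ 2 / (4 * T ^ 2 * B ^ (2 * r - 2)) := by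
    rw [hη]
    have : (16 * T ^ 2 * B ^ (2 * r - 2)) ≠ 0 := by positivity
    have : (4 * T ^ 2 * B ^ (2 * r - 2)) ≠ 0 := by positivity
    field_simp
    ring
  have hη1 : 4 * η ≤ 1 := by
    rw [h4η, div_le_one (by positivity)]
    have : lam ^ 2 ≤ 1 := pow_le_one₀ hl0.le hl1
    nlinarith [mul_le_mul hT2 hB2 zero_le_one (by linarith : (0:ℝ) ≤ T ^ 2)]
  have h0 : (0 : ℝ) = seqa T η r 0 := rfl
  rw [h0, Lin_seqa, zero_add]
  obtain ⟨q, rfl⟩ : ∃ q, r = q + 1 := ⟨r - 1, by omega⟩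
  have h1 := seqa_bound (q + 1) T η hT hη0 hη1 q le_rfl
  rw [← hB] at h1
  have h2 : T * (4 * η) ^ (q + 1) * (4 * T * B ^ (2 * (q + 1))) ^ q ≤
      lam ^ (2 * (q + 1)) := by
    have e1 : 2 * (q + 1) - 2 = 2 * q := by omega
    rw [h4η, e1, div_pow, ← pow_mul lam]
    rw [mul_div_assoc', div_mul_eq_mul_div, div_le_iff₀ (by positivity)]
    have e2 : (4 * T ^ 2 * B ^ (2 * q)) ^ (q + 1) =
        4 ^ (q + 1) * T ^ (2 * (q + 1)) * B ^ (2 * q * (q + 1)) := by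
      rw [mul_pow, mul_pow, ← pow_mul, ← pow_mul]
    have e3 : (4 * T * B ^ (2 * (q + 1))) ^ q = 4 ^ q * T ^ q * B ^ (2 * q * (q + 1)) := by
      rw [mul_pow, mul_pow, ← pow_mul]
      congr 2
      ring
    rw [e2, e3]
    have e4 : T * lam ^ (2 * (q + 1)) * (4 ^ q * T ^ q * B ^ (2 * q * (q + 1))) =
        lam ^ (2 * (q + 1)) * ((4 ^ q * T ^ (q + 1)) * B ^ (2 * q * (q + 1))) := by ring
    rw [e4]
    refine mul_le_mul_of_nonneg_left (mul_le_mul_of_nonneg_right ?_ (by positivity)) (by positivity)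
    refine mul_le_mul ?_ ?_ (by positivity) (by positivity)
    · exact pow_le_pow_right₀ (by norm_num) (by omega)
    · exact pow_le_pow_right₀ hT (by omega)
  have h3 : seqa T η (q + 1) (q + 1) / lam ^ (q + 1 + (q + 1) - 1) ≤ lam := by
    rw [div_le_iff₀ (by positivity)]
    have e1 : lam * lam ^ (q + 1 + (q + 1) - 1) = lam ^ (2 * (q + 1)) := by
      rw [← pow_succ']
      congr 1
      omega
    rw [e1]
    exact h1.trans h2
  have hK : 0 ≤ 16 * ((q + 1 : ℕ) : ℝ) ^ 4 * T := by positivity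
  have h4 := mul_le_mul_of_nonneg_left (add_le_add_left h3 lam) hK
  refine (le_trans (le_of_eq ?_) h4).trans (le_of_eq ?_)
  · ring
  · rw [hlam]
    have : (32 * ((q + 1 : ℕ) : ℝ) ^ 4 * T) ≠ 0 := by positivity
    field_simp
    ring

/-- the bound for the depth -/
theorem depth_bound (r : ℕ) (T ε lam η : ℝ) (hr : 1 ≤ r) (hT : 1 ≤ T) (hε : 0 < ε)
    (hlam : lam = ε / (32 * (r : ℝ) ^ 4 * T))
    (hη : η = lam ^ 2 / (16 * T ^ 2 * (64 * (r : ℝ) ^ 6 * T) ^ (2 * r - 2))) :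
    (r : ℝ) * (T / η) * ε ^ 2 ≤ (64 * (r : ℝ) ^ 6 * T) ^ (2 * r + 3) := by
  have hr1 : (1 : ℝ) ≤ r := by exact_mod_cast hr
  set B : ℝ := 64 * (r : ℝ) ^ 6 * T with hB
  have hB0 : 0 < B := by positivity
  have e1 : (r : ℝ) * (T / η) * ε ^ 2 =
      (16384 * (r : ℝ) ^ 9 * T ^ 5) * B ^ (2 * r - 2) := by
    rw [hη, hlam]
    have h1 : (r : ℝ) ≠ 0 := by positivity
    have h2 : T ≠ 0 := by positivity
    have h3 : ε ≠ 0 := hε.ne'
    have h4 : B ^ (2 * r - 2) ≠ 0 := by positivity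
    field_simp
    ring
  rw [e1]
  have e2 : B ^ (2 * r + 3) = B ^ 5 * B ^ (2 * r - 2) := by
    rw [← pow_add]
    congr 1
    omega
  rw [e2]
  refine mul_le_mul_of_nonneg_right ?_ (by positivity)
  rw [hB]
  have e3 : (64 * (r : ℝ) ^ 6 * T) ^ 5 = 1073741824 * (r : ℝ) ^ 30 * T ^ 5 := by ring
  rw [e3]
  refine mul_le_mul_of_nonneg_right ?_ (by positivity)
  have h5 : (r : ℝ) ^ 9 ≤ (r : ℝ) ^ 30 := pow_le_pow_right₀ hr1 (by norm_num)
  have h6 : 0 ≤ (r : ℝ) ^ 9 := by positivity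
  nlinarith

end Pool.Agent.H2AD
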