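import Mathlib
import Pool.Agent.H2AD.Num2

/-!
The numerical bound for the recursion, with exponents `N = K r`.
-/

set_option autoImplicit false

namespace Pool.Agent.H2AD

theorem seqa_bound' (K r : ℕ) (T η : ℝ) (hT : 1 ≤ T) (hη : 0 ≤ η) (hη1 : 4 * η ≤ 1) :
    ∀ s : ℕ, s + 1 ≤ r → seqa T η (K * r) (s + 1) ≤
      T * (4 * η) ^ (K * r) *
        (4 * T * (16 * ((K : ℝ) + 1) ^ 2 * (r : ℝ) ^ 6 * T) ^ ((K + 1) * r)) ^ s := by
  intro s
  induction s with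
  | zero =>
    intro _
    change al T (K * r) 0 * 0 + be T η (K * r) 0 ≤ _
    unfold be
    simp
  | succ s ih =>
    intro hs
    have ih' := ih (by omega)
    change al T (K * r) (s + 1) * seqa T η (K * r) (s + 1) + be T η (K * r) (s + 1) ≤ _
    set X : ℝ := (16 * ((K : ℝ) + 1) ^ 2 * (r : ℝ) ^ 6 * T) ^ ((K + 1) * r) with hX
    have hr1 : (1 : ℝ) ≤ r := by exact_mod_cast (show 1 ≤ r by omega)
    have hK1 : (1 : ℝ) ≤ (K : ℝ) + 1 := by
      have : (0 : ℝ) ≤ K := Nat.cast_nonneg K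
      linarith
    have hB1 : (1 : ℝ) ≤ 16 * ((K : ℝ) + 1) ^ 2 * (r : ℝ) ^ 6 * T := by
      have h1 : (1 : ℝ) ≤ (r : ℝ) ^ 6 := one_le_pow₀ hr1
      have h2 : (1 : ℝ) ≤ ((K : ℝ) + 1) ^ 2 := one_le_pow₀ hK1
      have h3 : (1 : ℝ) ≤ ((K : ℝ) + 1) ^ 2 * (r : ℝ) ^ 6 := one_le_mul_of_one_le_of_one_le h2 h1
      nlinarith
    have hX1 : (1 : ℝ) ≤ X := one_le_pow₀ hB1
    have hal : al T (K * r) (s + 1) ≤ 1 + 2 * T * X := by
      unfold al
      have h1 : (((K * r + (s + 1) : ℕ) + 1 : ℝ) ^ 2 * (16 * ((s + 1 : ℕ) : ℝ) ^ 4 * T)) ≤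
          16 * ((K : ℝ) + 1) ^ 2 * (r : ℝ) ^ 6 * T := by
        have h2 : ((K * r + (s + 1) : ℕ) + 1 : ℝ) ≤ ((K : ℝ) + 1) * r := by
          have h2' : K * r + (s + 1) + 1 ≤ (K + 1) * r := by
            rw [Nat.succ_mul]; omega
          exact_mod_cast h2'
        have h3 : ((s + 1 : ℕ) : ℝ) ≤ r := by exact_mod_cast (show s + 1 ≤ r by omega)
        have h4 : ((K * r + (s + 1) : ℕ) + 1 : ℝ) ^ 2 ≤ (((K : ℝ) + 1) * r) ^ 2 :=
          pow_le_pow_left₀ (by positivity) h2 2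
        have h5 : ((s + 1 : ℕ) : ℝ) ^ 4 ≤ (r : ℝ) ^ 4 := pow_le_pow_left₀ (by positivity) h3 4
        have h6 : 16 * ((s + 1 : ℕ) : ℝ) ^ 4 * T ≤ 16 * (r : ℝ) ^ 4 * T := by
          have hT0 : 0 ≤ T := by linarith
          nlinarith
        calc _ ≤ (((K : ℝ) + 1) * r) ^ 2 * (16 * (r : ℝ) ^ 4 * T) :=
              mul_le_mul h4 h6 (by positivity) (by positivity)
          _ = _ := by ring
      have h2 : (((K * r + (s + 1) : ℕ) + 1 : ℝ) ^ 2 * (16 * ((s + 1 : ℕ) : ℝ) ^ 4 * T)) ^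
          (K * r + (s + 1)) ≤ X := by
        refine (pow_le_pow_left₀ (by positivity) h1 _).trans ?_
        exact pow_le_pow_right₀ hB1 (by rw [Nat.succ_mul]; omega)
      have h3 : 0 ≤ 2 * T := by linarith
      have h4 := mul_le_mul_of_nonneg_left h2 h3
      linarith
    have hbe : be T η (K * r) (s + 1) ≤ T * (4 * η) ^ (K * r) := by
      unfold be
      refine mul_le_mul_of_nonneg_left ?_ (by linarith)
      exact pow_le_pow_of_le_one (by linarith) hη1 (by omega)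
    have hP : (1 : ℝ) ≤ (4 * T * X) ^ s := one_le_pow₀ (by nlinarith)
    have hc : 0 ≤ T * (4 * η) ^ (K * r) := by positivity
    have h1 : al T (K * r) (s + 1) * seqa T η (K * r) (s + 1) ≤
        (1 + 2 * T * X) * (T * (4 * η) ^ (K * r) * (4 * T * X) ^ s) := by
      refine (mul_le_mul_of_nonneg_left ih' (al_nonneg (by linarith) (K * r) (s + 1))).trans ?_
      exact mul_le_mul_of_nonneg_right hal (by positivity)
    have h2 : T * (4 * η) ^ (K * r) ≤ T * (4 * η) ^ (K * r) * (4 * T * X) ^ s := by nlinarith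
    have h3 : (1 + 2 * T * X) * (T * (4 * η) ^ (K * r) * (4 * T * X) ^ s) +
        T * (4 * η) ^ (K * r) * (4 * T * X) ^ s =
        (2 + 2 * T * X) * (T * (4 * η) ^ (K * r) * (4 * T * X) ^ s) := by ring
    have h4 : (2 + 2 * T * X) * (T * (4 * η) ^ (K * r) * (4 * T * X) ^ s) ≤
        (4 * T * X) * (T * (4 * η) ^ (K * r) * (4 * T * X) ^ s) := by
      refine mul_le_mul_of_nonneg_right ?_ (by positivity)
      nlinarith
    have h5 : (4 * T * X) * (T * (4 * η) ^ (K * r) * (4 * T * X) ^ s) =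
        T * (4 * η) ^ (K * r) * (4 * T * X) ^ (s + 1) := by ring
    linarith

/-- the numerical bound -/
theorem num3 (K r : ℕ) (T θ η : ℝ) (hK : 1 ≤ K) (hr : 1 ≤ r) (hT : 1 ≤ T) (hθ : 0 < θ)
    (hη : 0 < η) (hη1 : 4 * η ≤ 1) (hθη : (4 * η) ^ K = θ ^ (K + 1)) :
    Lin (16 * (r : ℝ) ^ 4 * T)
      (2 * T * θ * (16 * ((K : ℝ) + 1) ^ 2 * (r : ℝ) ^ 6 * T) ^ (r - 1)) T η (K * r) r r 0 0 ≤
      64 * (r : ℝ) ^ 4 * T ^ 2 * (16 * ((K : ℝ) + 1) ^ 2 * (r : ℝ) ^ 6 * T) ^ (r - 1) * θ := by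
  have hr1 : (1 : ℝ) ≤ r := by exact_mod_cast hr
  set B : ℝ := 16 * ((K : ℝ) + 1) ^ 2 * (r : ℝ) ^ 6 * T with hB
  have hB0 : 0 < B := by positivity
  obtain ⟨q, rfl⟩ : ∃ q, r = q + 1 := ⟨r - 1, by omega⟩
  rw [Nat.add_sub_cancel]
  set lam : ℝ := 2 * T * θ * B ^ q with hlam
  have hl0 : 0 < lam := by positivity
  have h0 : (0 : ℝ) = seqa T η (K * (q + 1)) 0 := rfl
  rw [h0, Lin_seqa, zero_add]
  have h1 := seqa_bound' K (q + 1) T η hT hη.le hη1 q le_rfl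
  rw [← hB] at h1
  have h2 : T * (4 * η) ^ (K * (q + 1)) * (4 * T * B ^ ((K + 1) * (q + 1))) ^ q ≤
      lam ^ ((K + 1) * (q + 1)) := by
    have e1 : (4 * η) ^ (K * (q + 1)) = θ ^ ((K + 1) * (q + 1)) := by
      rw [pow_mul, hθη, ← pow_mul]
    have e2 : (4 * T * B ^ ((K + 1) * (q + 1))) ^ q =
        4 ^ q * T ^ q * B ^ (q * ((K + 1) * (q + 1))) := by
      rw [mul_pow, mul_pow, ← pow_mul, mul_comm _ q]
    have e3 : lam ^ ((K + 1) * (q + 1)) = (2 * T) ^ ((K + 1) * (q + 1)) * θ ^ ((K + 1) * (q + 1)) *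
        B ^ (q * ((K + 1) * (q + 1))) := by
      rw [hlam, mul_pow, mul_pow, ← pow_mul]
    rw [e1, e2, e3]
    have e4 : T * θ ^ ((K + 1) * (q + 1)) * (4 ^ q * T ^ q * B ^ (q * ((K + 1) * (q + 1)))) =
        (4 ^ q * T ^ (q + 1)) * θ ^ ((K + 1) * (q + 1)) * B ^ (q * ((K + 1) * (q + 1))) := by ring
    rw [e4]
    refine mul_le_mul_of_nonneg_right (mul_le_mul_of_nonneg_right ?_ (by positivity)) (by positivity)
    have e5 : (2 * T) ^ (2 * (q + 1)) ≤ (2 * T) ^ ((K + 1) * (q + 1)) := by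
      refine pow_le_pow_right₀ (by linarith) ?_
      exact Nat.mul_le_mul_right _ (by omega)
    refine le_trans ?_ e5
    have e6 : (2 * T) ^ (2 * (q + 1)) = 4 ^ (q + 1) * T ^ (2 * (q + 1)) := by
      rw [mul_pow, pow_mul 2 2 (q + 1)]
      norm_num
    rw [e6]
    refine mul_le_mul ?_ ?_ (by positivity) (by positivity)
    · exact pow_le_pow_right₀ (by norm_num) (by omega)
    · exact pow_le_pow_right₀ hT (by omega)
  have h3 : seqa T η (K * (q + 1)) (q + 1) / lam ^ (K * (q + 1) + (q + 1) - 1) ≤ lam := by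
    rw [div_le_iff₀ (by positivity)]
    have e1 : lam * lam ^ (K * (q + 1) + (q + 1) - 1) = lam ^ ((K + 1) * (q + 1)) := by
      rw [← pow_succ']
      congr 1
      rw [Nat.succ_mul]
      omega
    rw [e1]
    exact h1.trans h2
  have hK' : 0 ≤ 16 * ((q + 1 : ℕ) : ℝ) ^ 4 * T := by positivity
  have h4 := mul_le_mul_of_nonneg_left (add_le_add_left h3 lam) hK'
  refine (le_trans (le_of_eq ?_) h4).trans (le_of_eq ?_)
  · ring
  · rw [hlam]
    ring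

end Pool.Agent.H2AD
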