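import Mathlib
import Pool.Agent.H2AD.AlgRun

/-!
The one-sided bound for the differences of the query probabilities.
-/

set_option autoImplicit false

namespace Pool.Agent.H2AD

open Finset Pool.Agent.Hp22AAD Pool.Agent.Hp22AA

variable {ι κ : Type} [Fintype ι] [DecidableEq ι] [Fintype κ] {T : ℕ}

theorem prj_idem (A : Alg ι κ T) (s : ℕ) (k : ι) (w : Sp κ) :
    A.prj s k (A.prj s k w) = A.prj s k w := by
  unfold Alg.prj
  rw [dg_dg]
  congr 1
  congr 1
  funext l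
  by_cases h : k ∈ A.Q s l <;> simp [h]

theorem p_le_one (A : Alg ι κ T) (s : ℕ) (j : ι) (x : ι → ℤˣ) : A.p s j x ≤ 1 := by
  unfold Alg.p
  refine pow_le_one₀ (norm_nonneg _) ?_
  refine (Run.contr ?_ _).trans (state_le A s x)
  refine norm_dg_le _ 1 zero_le_one fun k => ?_
  split_ifs <;> simp

theorem p_diff (A : Alg ι κ T) (s : ℕ) (k i : ι) (x : ι → ℤˣ) :
    max 0 (A.p s k x - A.p s k (nb i x)) ≤
      2 * ‖inner ℂ (A.prj s k (A.state s x)) (A.state s (nb i x) - A.state s x)‖ := by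
  refine max_le (by positivity) ?_
  set v := A.state s x with hv
  set d := A.state s (nb i x) - A.state s x with hd
  have e0 : A.state s (nb i x) = v + d := by rw [hd, hv]; abel
  unfold Alg.p
  rw [e0, ← hv, map_add, @norm_add_sq ℂ]
  have e1 : inner ℂ (A.prj s k v) (A.prj s k d) = inner ℂ (A.prj s k v) d := by
    have : inner ℂ (A.prj s k (A.prj s k v)) d = inner ℂ (A.prj s k v) (A.prj s k d) :=
      dg_sym _ _ _
    rw [← this, prj_idem]
  rw [e1]
  have e2 := Complex.abs_re_le_norm (inner ℂ (A.prj s k v) d)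
  have e3 := (abs_le.1 e2).1
  have e4 : 0 ≤ ‖A.prj s k d‖ ^ 2 := sq_nonneg _
  have e5 : RCLike.re (inner ℂ (A.prj s k v) d) = (inner ℂ (A.prj s k v) d).re := rfl
  rw [e5]
  linarith

theorem one_sided (A : Alg ι κ T) (s : ℕ) (x : ι → ℤˣ) (J : Finset ι) (m : ℝ) (hm0 : 0 ≤ m)
    (hm : ∀ t < s, ∀ j ∈ J, A.p t j x ≤ m) (k : ι) :
    ∑ i ∈ J, (max 0 (A.p s k x - A.p s k (nb i x))) ^ 2 ≤
      16 * (s : ℝ) ^ 4 * T * m * A.p s k x := by
  have h := (alg_run A s x J m hm0 hm).inner_bound s le_rfl (A.prj s k (A.state s x))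
  have h1 : ∀ i ∈ J, (max 0 (A.p s k x - A.p s k (nb i x))) ^ 2 ≤
      4 * ‖inner ℂ (A.prj s k (A.state s x)) (A.state s (nb i x) - A.state s x)‖ ^ 2 := by
    intro i _
    have h2 := pow_le_pow_left₀ (le_max_left _ _) (p_diff A s k i x) 2
    refine h2.trans (le_of_eq ?_)
    ring
  refine (Finset.sum_le_sum h1).trans ?_
  rw [← Finset.mul_sum]
  have h3 : (2 * (s : ℝ) ^ 2 * Real.sqrt (T * m) * ‖A.prj s k (A.state s x)‖) ^ 2 =
      4 * (s : ℝ) ^ 4 * (T * m) * A.p s k x := by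
    unfold Alg.p
    rw [mul_pow, mul_pow, mul_pow, Real.sq_sqrt (mul_nonneg (Nat.cast_nonneg T) hm0)]
    ring
  rw [h3] at h
  have h4 := mul_le_mul_of_nonneg_left h (by norm_num : (0 : ℝ) ≤ 4)
  refine h4.trans (le_of_eq ?_)
  ring

end Pool.Agent.H2AD
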