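import Mathlib
import Pool.Agent.H2AD.Num2
import Pool.Agent.H2AD.OneSided

/-!
Decision trees for algorithms with `r` rounds.
-/

set_option autoImplicit false

namespace Pool.Agent.H2AD

open Finset Pool.Agent.Hp22AAD Pool.Agent.Hp22AA

variable {ι κ : Type} [Fintype ι] [DecidableEq ι] [Fintype κ] {T : ℕ}

theorem value_le_one (A : Alg ι κ T) (M : Sp κ →L[ℂ] Sp κ) (hM : ‖M‖ ≤ 1) (r : ℕ)
    (x : ι → ℤˣ) : |A.value M r x| ≤ 1 := by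
  unfold Alg.value
  refine (Complex.abs_re_le_norm _).trans ((norm_inner_le_norm _ _).trans ?_)
  exact mul_le_one₀ (state_le A r x) (norm_nonneg _)
    ((Run.contr hM _).trans (state_le A r x))

theorem alg_sys (A : Alg ι κ T) (M : Sp κ →L[ℂ] Sp κ) (hM : ‖M‖ ≤ 1) (r : ℕ) :
    Sys2 r (T : ℝ) A.p (A.value M r) where
  nonneg := p_nonneg A
  le_one := p_le_one A
  sum_le := sum_p_le A
  pt := fun s x J m hm0 hm k => one_sided A s x J m hm0 hm k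
  ptf := by
    intro x J m hm0 hm
    refine (value_bound A M 1 hM r x J m hm0 hm).trans (le_of_eq ?_)
    ring
  bdd := value_le_one A M hM r

theorem tree (A : Alg ι κ T) (M : Sp κ →L[ℂ] Sp κ) (hM : ‖M‖ ≤ 1) (r : ℕ) (hr : 1 ≤ r)
    (hT : 1 ≤ T) (ε : ℝ) (hε : 0 < ε) (hε1 : ε ≤ 1) :
    ∃ D : ℕ, (D : ℝ) * ε ^ 2 ≤ (64 * (r : ℝ) ^ 6 * T) ^ (2 * r + 3) ∧
      Apx D ε (A.value M r) := by
  have hr1 : (1 : ℝ) ≤ r := by exact_mod_cast hr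
  have hT1 : (1 : ℝ) ≤ T := by exact_mod_cast hT
  obtain ⟨lam, hlam⟩ : ∃ lam : ℝ, lam = ε / (32 * (r : ℝ) ^ 4 * T) := ⟨_, rfl⟩
  obtain ⟨η, hη⟩ : ∃ η : ℝ, η = lam ^ 2 / (16 * (T : ℝ) ^ 2 * (64 * (r : ℝ) ^ 6 * T) ^ (2 * r - 2)) :=
    ⟨_, rfl⟩
  have hl0 : 0 < lam := by rw [hlam]; positivity
  have hη0 : 0 < η := by rw [hη]; positivity
  have hL : ∀ n : ℕ, (n : ℝ) * η ≤ T → n ≤ ⌊(T : ℝ) / η⌋₊ := by
    intro n hn
    apply Nat.le_floor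
    rwa [le_div_iff₀ hη0]
  refine ⟨r * ⌊(T : ℝ) / η⌋₊, ?_, ?_⟩
  · refine le_trans ?_ (depth_bound r T ε lam η hr hT1 hε hlam hη)
    push_cast
    have h1 : ((⌊(T : ℝ) / η⌋₊ : ℕ) : ℝ) ≤ (T : ℝ) / η := Nat.floor_le (by positivity)
    gcongr
  · have h := core2 r r (T : ℝ) η lam (by linarith) hη0 hl0 hr ⌊(T : ℝ) / η⌋₊ hL r 0 (by omega)
      A.p (A.value M r) ∅ (fun _ => 0) (alg_sys A M hM r) (by simp) (by simp) (fun _ => le_rfl)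
      (by intro x t ht; omega)
    rw [av_const] at h
    exact MultiP.Apx_mono le_rfl (num2 r T ε lam η hr hT1 hε hε1 hlam hη) h

end Pool.Agent.H2AD
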