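import Mathlib
import Pool.Agent.H2AD.Num3
import Pool.Agent.H2AD.Core3
import Pool.Agent.H2AD.Tree

/-!
Assembly.
-/

set_option autoImplicit false

namespace Pool.Agent.H2AD

open Finset Pool.Agent.Hp22AAD Pool.Agent.Hp22AA

variable {ι κ : Type} [Fintype ι] [DecidableEq ι] [Fintype κ] {T : ℕ}

theorem batch_tree (hBT : BTMULTI) (A : Alg ι κ T) (M : Sp κ →L[ℂ] Sp κ) (hM : ‖M‖ ≤ 1)
    (K r : ℕ) (hK : 1 ≤ K) (hr : 1 ≤ r) (hT : 1 ≤ T) (θ η : ℝ) (hθ : 0 < θ) (hη : 0 < η)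
    (hη1 : 4 * η ≤ 1) (hθη : (4 * η) ^ K = θ ^ (K + 1)) :
    BApx ⌊(T : ℝ) / η⌋₊ r
      (64 * (r : ℝ) ^ 4 * (T : ℝ) ^ 2 * (16 * ((K : ℝ) + 1) ^ 2 * (r : ℝ) ^ 6 * T) ^ (r - 1) * θ)
      (A.value M r) := by
  have hr1 : (1 : ℝ) ≤ r := by exact_mod_cast hr
  have hT1 : (1 : ℝ) ≤ T := by exact_mod_cast hT
  have hL : ∀ n : ℕ, (n : ℝ) * η ≤ T → n ≤ ⌊(T : ℝ) / η⌋₊ := by
    intro n hn
    apply Nat.le_floor
    rwa [le_div_iff₀ hη]
  have h := core3 hBT r (K * r) (T : ℝ) η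
    (2 * T * θ * (16 * ((K : ℝ) + 1) ^ 2 * (r : ℝ) ^ 6 * T) ^ (r - 1)) (by linarith) hη
    (by positivity) (Nat.mul_pos hK hr) ⌊(T : ℝ) / η⌋₊ hL r 0 (by omega)
    A.p (A.value M r) ∅ (fun _ => 0) (alg_sys A M hM r) (by simp) (by simp) (fun _ => le_rfl)
    (by intro x t ht; omega)
  rw [av_const] at h
  obtain ⟨g, h1, h2, h3⟩ := h
  exact ⟨g, h1, h2, h3.trans (num3 K r T θ η hK hr hT1 hθ hη hη1 hθη)⟩

/-- trees with depth polynomial in `T` and `1 / ε` -/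
theorem trees (hBT : BTMULTI) (hDT : BTDT) (A : Alg ι κ T) (M : Sp κ →L[ℂ] Sp κ) (hM : ‖M‖ ≤ 1)
    (K r : ℕ) (hK : 1 ≤ K) (hr : 1 ≤ r) (hT : 1 ≤ T) (ε : ℝ) (hε : 0 < ε) (hε1 : ε ≤ 1) :
    ∃ (D : ℕ) (g : (ι → ℤˣ) → ℝ),
      (D : ℝ) ^ K * ε ^ (K + 1) ≤ (16 * ((K : ℝ) + 1) ^ 2 * (r : ℝ) ^ 6 * T) ^ ((r + 2) * (K + 1)) ∧
      DT D g ∧ (∀ x, |g x| ≤ 1) ∧ av (fun x => (A.value M r x - g x) ^ 2) ≤ ε := by
  have hr1 : (1 : ℝ) ≤ r := by exact_mod_cast hr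
  have hT1 : (1 : ℝ) ≤ T := by exact_mod_cast hT
  have hK1 : (1 : ℝ) ≤ (K : ℝ) + 1 := by
    have : (0 : ℝ) ≤ K := Nat.cast_nonneg K
    linarith
  have hr4 : (1 : ℝ) ≤ (r : ℝ) ^ 4 := one_le_pow₀ hr1
  have hr6 : (1 : ℝ) ≤ (r : ℝ) ^ 6 := one_le_pow₀ hr1
  have hT2 : (1 : ℝ) ≤ (T : ℝ) ^ 2 := one_le_pow₀ hT1
  have hKK : (1 : ℝ) ≤ ((K : ℝ) + 1) ^ 2 := one_le_pow₀ hK1
  set B : ℝ := 16 * ((K : ℝ) + 1) ^ 2 * (r : ℝ) ^ 6 * T with hB
  have hB16 : 16 * (r : ℝ) ^ 6 * T ≤ B := by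
    rw [hB]
    have h0 : 0 ≤ (r : ℝ) ^ 6 * T := by positivity
    nlinarith
  have hB64 : 64 * (r : ℝ) ^ 6 * T ≤ B := by
    rw [hB]
    have h0 : 0 ≤ (r : ℝ) ^ 6 * T := by positivity
    have h1 : (4 : ℝ) ≤ ((K : ℝ) + 1) ^ 2 := by
      have : (1 : ℝ) ≤ K := by exact_mod_cast hK
      nlinarith
    nlinarith
  have hB1 : 1 ≤ B := by nlinarith
  have hB0 : 0 < B := by linarith
  set W : ℝ := 64 * (r : ℝ) ^ 4 * (T : ℝ) ^ 2 * B ^ (r - 1) with hW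
  have hW1 : 1 ≤ W := by
    have h1 : (1 : ℝ) ≤ B ^ (r - 1) := one_le_pow₀ hB1
    have h2 : (1 : ℝ) ≤ (r : ℝ) ^ 4 * (T : ℝ) ^ 2 := one_le_mul_of_one_le_of_one_le hr4 hT2
    have h3 : (1 : ℝ) ≤ (r : ℝ) ^ 4 * (T : ℝ) ^ 2 * B ^ (r - 1) :=
      one_le_mul_of_one_le_of_one_le h2 h1
    rw [hW]
    nlinarith
  obtain ⟨θ, hθ⟩ : ∃ θ : ℝ, θ = ε / W := ⟨_, rfl⟩
  have hθ0 : 0 < θ := by rw [hθ]; positivity
  have hθ1 : θ ≤ 1 := by rw [hθ, div_le_one (by linarith)]; linarith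
  obtain ⟨c, hc0, hcK⟩ : ∃ c : ℝ, 0 < c ∧ c ^ K = θ ^ (K + 1) :=
    ⟨(θ ^ (K + 1)) ^ ((K : ℝ)⁻¹), Real.rpow_pos_of_pos (by positivity) _,
      Real.rpow_inv_natCast_pow (by positivity) (by omega)⟩
  have hc1 : c ≤ 1 := by
    by_contra hcon
    push Not at hcon
    have h1 : 1 < c ^ K := one_lt_pow₀ hcon (by omega)
    have h2 : θ ^ (K + 1) ≤ 1 := pow_le_one₀ hθ0.le hθ1
    linarith
  have h4c : 4 * (c / 4) = c := by ring
  obtain ⟨g, h1, h2, h3⟩ := batch_tree hBT A M hM K r hK hr hT θ (c / 4) hθ0 (by positivity)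
    (by rw [h4c]; exact hc1) (by rw [h4c]; exact hcK)
  refine ⟨r * ⌊(T : ℝ) / (c / 4)⌋₊, g, ?_, hDT _ _ _ h1, h2, h3.trans (le_of_eq ?_)⟩
  · have e1 : ((r * ⌊(T : ℝ) / (c / 4)⌋₊ : ℕ) : ℝ) ≤ 4 * r * T / c := by
      push_cast
      have h5 : ((⌊(T : ℝ) / (c / 4)⌋₊ : ℕ) : ℝ) ≤ (T : ℝ) / (c / 4) := Nat.floor_le (by positivity)
      have h6 : (r : ℝ) * ((T : ℝ) / (c / 4)) = 4 * r * T / c := by
        field_simp
      rw [← h6]
      exact mul_le_mul_of_nonneg_left h5 (by positivity)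
    have e2 := pow_le_pow_left₀ (Nat.cast_nonneg _) e1 K
    refine (mul_le_mul_of_nonneg_right e2 (by positivity)).trans ?_
    rw [div_pow, hcK, hθ]
    have e3 : (4 * (r : ℝ) * T) ^ K / (ε / W) ^ (K + 1) * ε ^ (K + 1) =
        (4 * (r : ℝ) * T) ^ K * W ^ (K + 1) := by
      rw [div_pow]
      have : ε ^ (K + 1) ≠ 0 := by positivity
      field_simp
    rw [e3]
    have e4 : (4 * (r : ℝ) * T) ^ K ≤ (4 * (r : ℝ) * T) ^ (K + 1) :=
      pow_le_pow_right₀ (by nlinarith) (by omega)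
    refine (mul_le_mul_of_nonneg_right e4 (by positivity)).trans ?_
    rw [← mul_pow, pow_mul]
    refine pow_le_pow_left₀ (by positivity) ?_ _
    have e5 : B ^ (r + 2) = B ^ 3 * B ^ (r - 1) := by
      rw [← pow_add]
      congr 1
      omega
    rw [e5, hW]
    have e6 : 4 * (r : ℝ) * T * (64 * (r : ℝ) ^ 4 * (T : ℝ) ^ 2 * B ^ (r - 1)) =
        (256 * (r : ℝ) ^ 5 * (T : ℝ) ^ 3) * B ^ (r - 1) := by ring
    rw [e6]
    refine mul_le_mul_of_nonneg_right ?_ (by positivity)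
    have e7 : (16 * (r : ℝ) ^ 6 * T) ^ 3 ≤ B ^ 3 := pow_le_pow_left₀ (by positivity) hB16 3
    refine le_trans ?_ e7
    have e8 : (16 * (r : ℝ) ^ 6 * T) ^ 3 = 4096 * (r : ℝ) ^ 18 * (T : ℝ) ^ 3 := by ring
    rw [e8]
    refine mul_le_mul_of_nonneg_right ?_ (by positivity)
    have h5 : (r : ℝ) ^ 5 ≤ (r : ℝ) ^ 18 := pow_le_pow_right₀ hr1 (by norm_num)
    have h6 : 0 ≤ (r : ℝ) ^ 5 := by positivity
    nlinarith
  · rw [← hW, hθ]
    field_simp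

/-- the influence bound -/
theorem infl (hBT : BTMULTI) (hFIN : FIN) (A : Alg ι κ T) (M : Sp κ →L[ℂ] Sp κ) (hM : ‖M‖ ≤ 1)
    (K r : ℕ) (hK : 1 ≤ K) (hr : 1 ≤ r) (hT : 1 ≤ T) :
    variance (A.value M r) ^ (K + 1) ≤
      (16 * ((K : ℝ) + 1) ^ 2 * (r : ℝ) ^ 6 * T) ^ ((r + 1) * (K + 1)) *
        maxDer (A.value M r) ^ K := by
  have hr1 : (1 : ℝ) ≤ r := by exact_mod_cast hr
  have hT1 : (1 : ℝ) ≤ T := by exact_mod_cast hT
  set f := A.value M r with hf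
  set μ := maxDer f with hμ
  have hμ0 : 0 ≤ μ := maxDer_nonneg f
  have hinf : ∀ j, av (fun x => dd j f x ^ 2) ≤ μ ^ 2 := by
    intro j
    have h1 := le_maxDer f j
    have h2 : 0 ≤ av (fun x => dd j f x ^ 2) := av_nonneg fun x => sq_nonneg _
    have h3 := pow_le_pow_left₀ (Real.sqrt_nonneg _) h1 2
    rwa [Real.sq_sqrt h2] at h3
  have hvar0 : 0 ≤ variance f := by
    rw [← var_av]
    exact av_nonneg fun x => sq_nonneg _
  have hB0 : 0 ≤ (16 * ((K : ℝ) + 1) ^ 2 * (r : ℝ) ^ 6 * T) := by positivity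
  rcases hμ0.eq_or_lt with h0 | hpos
  · have h1 : variance f ≤ 0 := by
      refine (poincare f).trans ?_
      refine Finset.sum_nonpos fun j _ => ?_
      have := hinf j
      rw [← h0] at this
      simpa using this
    have h2 : variance f = 0 := le_antisymm h1 hvar0
    rw [h2, ← h0, zero_pow (by omega), zero_pow (by omega), mul_zero]
  · have hμ1 : μ ≤ 1 := by
      refine Real.iSup_le (fun j => ?_) zero_le_one
      refine Real.sqrt_le_one.2 ?_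
      change av (fun x => dd j f x ^ 2) ≤ 1
      rw [← av_const (ι := ι) 1]
      refine av_mono fun x => ?_
      have h1 := abs_le.1 (value_le_one A M hM r (Function.update x j 1))
      have h2 := abs_le.1 (value_le_one A M hM r (Function.update x j (-1)))
      have h3 : |dd j f x| ≤ 1 := by
        unfold dd
        rw [abs_le]
        constructor <;> linarith [h1.1, h1.2, h2.1, h2.2]
      rw [← sq_abs]
      exact pow_le_one₀ (abs_nonneg _) h3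
    obtain ⟨θ, hθ0, hθK⟩ : ∃ θ : ℝ, 0 < θ ∧ θ ^ (K + 1) = μ ^ K :=
      ⟨(μ ^ K) ^ (((K + 1 : ℕ) : ℝ)⁻¹), Real.rpow_pos_of_pos (by positivity) _,
        Real.rpow_inv_natCast_pow (by positivity) (by omega)⟩
    have h4c : 4 * (μ / 4) = μ := by ring
    have hμθ : μ ≤ θ := by
      by_contra hcon
      push Not at hcon
      have h1 : θ ^ (K + 1) < μ ^ (K + 1) := pow_lt_pow_left₀ hcon hθ0.le (by omega)
      have h2 : μ ^ (K + 1) ≤ μ ^ K := pow_le_pow_of_le_one hpos.le hμ1 (by omega)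
      linarith
    obtain ⟨g, h1, h2, h3⟩ := batch_tree hBT A M hM K r hK hr hT θ (μ / 4) hθ0 (by positivity)
      (by rw [h4c]; exact hμ1) (by rw [h4c]; exact hθK.symm)
    have h4 := hFIN _ _ f g μ _ hμ0 hinf h1 h3
    set B : ℝ := 16 * ((K : ℝ) + 1) ^ 2 * (r : ℝ) ^ 6 * T with hB
    have hB64 : 64 * (r : ℝ) ^ 6 * T ≤ B := by
      rw [hB]
      have h0 : 0 ≤ (r : ℝ) ^ 6 * T := by positivity
      have h1 : (4 : ℝ) ≤ ((K : ℝ) + 1) ^ 2 := by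
        have : (1 : ℝ) ≤ K := by exact_mod_cast hK
        nlinarith
      nlinarith
    have hr6 : (1 : ℝ) ≤ (r : ℝ) ^ 6 := one_le_pow₀ hr1
    have hB1 : 1 ≤ B := by nlinarith
    have hBp : (1 : ℝ) ≤ B ^ (r - 1) := one_le_pow₀ hB1
    have hB2 : 4096 * (r : ℝ) ^ 12 * (T : ℝ) ^ 2 ≤ B ^ 2 := by
      have := pow_le_pow_left₀ (by positivity) hB64 2
      refine le_trans (le_of_eq ?_) this
      ring
    have e5 : B ^ (r + 1) = B ^ 2 * B ^ (r - 1) := by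
      rw [← pow_add]
      congr 1
      omega
    have hmain : variance f ≤ B ^ (r + 1) * θ := by
      refine h4.trans (max_le ?_ ?_)
      · have e6 : 4 * (64 * (r : ℝ) ^ 4 * (T : ℝ) ^ 2 * B ^ (r - 1) * θ) =
            (256 * (r : ℝ) ^ 4 * (T : ℝ) ^ 2) * B ^ (r - 1) * θ := by ring
        rw [e6, e5]
        refine mul_le_mul_of_nonneg_right (mul_le_mul_of_nonneg_right ?_ (by positivity)) hθ0.le
        refine le_trans ?_ hB2
        refine mul_le_mul_of_nonneg_right ?_ (by positivity)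
        have h5 : (r : ℝ) ^ 4 ≤ (r : ℝ) ^ 12 := pow_le_pow_right₀ hr1 (by norm_num)
        have h6 : 0 ≤ (r : ℝ) ^ 4 := by positivity
        nlinarith
      · have h5 : ((⌊(T : ℝ) / (μ / 4)⌋₊ : ℕ) : ℝ) ≤ (T : ℝ) / (μ / 4) := Nat.floor_le (by positivity)
        have h6 : (T : ℝ) / (μ / 4) = 4 * T / μ := by
          field_simp
        have h5' := h5.trans (le_of_eq h6)
        have h7 : 18 * (r : ℝ) ^ 2 * ((⌊(T : ℝ) / (μ / 4)⌋₊ : ℕ) : ℝ) * μ ^ 2 ≤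
            18 * (r : ℝ) ^ 2 * (4 * T / μ) * μ ^ 2 := by
          refine mul_le_mul_of_nonneg_right (mul_le_mul_of_nonneg_left h5' (by positivity))
            (sq_nonneg _)
        have h8 : 18 * (r : ℝ) ^ 2 * (4 * T / μ) * μ ^ 2 = (72 * (r : ℝ) ^ 2 * T) * μ := by
          field_simp
          ring
        refine (h7.trans (le_of_eq h8)).trans ?_
        refine (mul_le_mul_of_nonneg_left hμθ (by positivity)).trans ?_
        refine mul_le_mul_of_nonneg_right ?_ hθ0.le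
        have h9 : 72 * (r : ℝ) ^ 2 * T ≤ B ^ 2 := by
          refine le_trans ?_ hB2
          have h10 : (r : ℝ) ^ 2 ≤ (r : ℝ) ^ 12 := pow_le_pow_right₀ hr1 (by norm_num)
          have h11 : (T : ℝ) ≤ (T : ℝ) ^ 2 := by nlinarith
          have h12 : (r : ℝ) ^ 2 * T ≤ (r : ℝ) ^ 12 * (T : ℝ) ^ 2 :=
            mul_le_mul h10 h11 (by positivity) (by positivity)
          have h13 : 0 ≤ (r : ℝ) ^ 12 * (T : ℝ) ^ 2 := by positivity
          nlinarith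
        rw [e5]
        nlinarith [sq_nonneg B]
    have h5 := pow_le_pow_left₀ hvar0 hmain (K + 1)
    refine h5.trans (le_of_eq ?_)
    rw [mul_pow, hθK, ← pow_mul]

end Pool.Agent.H2AD
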