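import Mathlib
import Pool.Agent.H2AD.Stm
import Pool.Agent.H2AD.AlgRun

/-!
One round of queries.
-/

set_option autoImplicit false

namespace Pool.Agent.H2AD

open Finset Pool.Agent.Hp22AAD Pool.Agent.Hp22AA

variable {ι κ : Type} [Fintype ι] [DecidableEq ι] [Fintype κ] {T : ℕ}

theorem nonad (A : Alg ι κ T) (M : Sp κ →L[ℂ] Sp κ) (hM : ‖M‖ ≤ 1) :
    totInf (A.value M 1) ≤ 8 * T * maxDer (A.value M 1) := by
  set f := A.value M 1 with hf
  set μ := maxDer f with hμ
  have hμ0 : 0 ≤ μ := maxDer_nonneg f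
  have hinf : ∀ j, av (fun x => dd j f x ^ 2) ≤ μ ^ 2 := by
    intro j
    have h1 := le_maxDer f j
    have h2 : 0 ≤ av (fun x => dd j f x ^ 2) := av_nonneg fun x => sq_nonneg _
    have h3 := pow_le_pow_left₀ (Real.sqrt_nonneg _) h1 2
    rwa [Real.sq_sqrt h2] at h3
  have hT : (0 : ℝ) ≤ T := Nat.cast_nonneg T
  rcases hμ0.eq_or_lt with h0 | hpos
  · unfold totInf
    rw [← h0, mul_zero]
    refine Finset.sum_nonpos fun j _ => ?_
    have := hinf j
    rw [← h0] at this
    simpa using this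
  -- the query probabilities do not depend on the input
  set p : ι → ℝ := fun j => A.p 0 j 1 with hp
  have hpx : ∀ j x, A.p 0 j x = p j := fun j x => rfl
  have hsum : ∑ j, p j ≤ T := sum_p_le A 0 1
  set H : Finset ι := univ.filter (fun j => μ / 4 < p j) with hH
  have hcard : (H.card : ℝ) * (μ / 4) ≤ T := by
    have h1 : (H.card : ℝ) * (μ / 4) ≤ ∑ j ∈ H, p j := by
      rw [← nsmul_eq_mul, ← Finset.sum_const]
      exact Finset.sum_le_sum fun j hj => (Finset.mem_filter.1 hj).2.le
    have h2 : ∑ j ∈ H, p j ≤ ∑ j, p j :=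
      Finset.sum_le_sum_of_subset_of_nonneg (Finset.subset_univ _)
        fun j _ _ => p_nonneg A 0 j 1
    linarith
  have hheavy : ∑ j ∈ H, av (fun x => dd j f x ^ 2) ≤ 4 * T * μ := by
    refine (Finset.sum_le_sum fun j _ => hinf j).trans ?_
    rw [Finset.sum_const, nsmul_eq_mul]
    nlinarith
  have hlight : ∑ j ∈ univ.filter (fun j => ¬ μ / 4 < p j), av (fun x => dd j f x ^ 2) ≤
      4 * T * μ := by
    rw [← av_sum]
    refine le_trans (av_mono (h := fun _ => 4 * T * μ) fun x => ?_) (le_of_eq (av_const _))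
    refine (value_bound A M 1 hM 1 x _ (μ / 4) (by positivity) ?_).trans (le_of_eq ?_)
    · intro s hs j hj
      obtain rfl : s = 0 := by omega
      rw [hpx]
      exact not_lt.1 (Finset.mem_filter.1 hj).2
    · push_cast
      ring
  unfold totInf
  rw [← Finset.sum_filter_add_sum_filter_not univ (fun j => μ / 4 < p j)]
  linarith

end Pool.Agent.H2AD
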