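import Pool.Agent.H2AD.Stm2
import Pool.Agent.H2AD.Multi

/-!
Project H2AD, piece RES: resampling the coordinates in a set.
-/

set_option autoImplicit false
set_option linter.unusedSectionVars false

namespace Pool.Agent.H2AD

open Finset Pool.Agent.Hp22AAD Pool.Agent.Hp22AA

namespace ResP

variable {ι : Type} [Fintype ι] [DecidableEq ι]

theorem av_swap (F : (ι → ℤˣ) → (ι → ℤˣ) → ℝ) :
    av (fun z => av (fun x => F z x)) = av (fun x => av (fun z => F z x)) := by
  unfold av
  rw [← Finset.sum_div, ← Finset.sum_div, Finset.sum_comm]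

theorem av_sq_diff (h : (ι → ℤˣ) → ℝ) :
    av (fun z => av (fun z' => (h z - h z') ^ 2)) = 2 * variance h := by
  have h1 : ∀ z, av (fun z' => (h z - h z') ^ 2) =
      h z ^ 2 + (-2 * av h * h z + av (fun z' => h z' ^ 2)) := by
    intro z
    have e : (fun z' => (h z - h z') ^ 2) =
        fun z' => h z ^ 2 + (-2 * h z * h z' + h z' ^ 2) := by funext z'; ring
    rw [e, av_add (fun _ => h z ^ 2), av_const, av_add (fun z' => -2 * h z * h z'), av_mul]
    ring
  simp only [h1]
  rw [av_add (fun z => h z ^ 2), av_add (fun z => -2 * av h * h z), av_mul, av_const]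
  have h2 : variance h = av (fun z => h z ^ 2) - av h ^ 2 := rfl
  rw [h2]
  ring

theorem ov_ov (S : Finset ι) (z y x : ι → ℤˣ) : ov S z (ov S y x) = ov S z x := by
  funext i
  by_cases h : i ∈ S <;> simp [ov, h]

theorem ov_update_mem {S : Finset ι} {i : ι} (hi : i ∈ S) (z y : ι → ℤˣ) (c : ℤˣ) :
    ov S (Function.update z i c) y = Function.update (ov S z y) i c := by
  funext j
  by_cases hj : j = i
  · subst hj; simp [ov, hi]
  · simp [ov, hj]

theorem ov_update_notMem {S : Finset ι} {i : ι} (hi : i ∉ S) (z y : ι → ℤˣ) (c : ℤˣ) :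
    ov S (Function.update z i c) y = ov S z y := by
  funext j
  by_cases hj : j = i
  · subst hj; simp [ov, hi]
  · simp [ov, hj]

end ResP

open ResP

theorem res : RES := by
  intro ι _ _ S f
  have h1 : ∀ z, av (fun x => (f (ov S z x) - f x) ^ 2) =
      av (fun y => av (fun z' => (f (ov S z y) - f (ov S z' y)) ^ 2)) := by
    intro z
    rw [← av_ov S (fun x => (f (ov S z x) - f x) ^ 2), av_swap]
    simp only [ov_ov]
  have h2 : av (fun z => av (fun x => (f (ov S z x) - f x) ^ 2)) =
      av (fun y => 2 * variance (fun z => f (ov S z y))) := by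
    simp only [h1]
    rw [av_swap]
    simp only [av_sq_diff (fun z => f (ov S z _))]
  rw [h2]
  have h3 : ∀ y, 2 * variance (fun z => f (ov S z y)) ≤
      2 * ∑ i ∈ S, av (fun z => dd i f (ov S z y) ^ 2) := by
    intro y
    refine mul_le_mul_of_nonneg_left ((poincare _).trans (le_of_eq ?_)) (by norm_num)
    rw [← Finset.sum_subset (Finset.subset_univ S)]
    · refine Finset.sum_congr rfl fun i hi => ?_
      congr 1
      funext z
      congr 1
      unfold dd
      simp only [ov_update_mem hi]
    · intro i _ hi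
      have : (fun z => dd i (fun z => f (ov S z y)) z ^ 2) = fun _ => (0 : ℝ) := by
        funext z
        unfold dd
        simp only [ov_update_notMem hi]
        ring
      rw [this, av_const]
  refine (av_mono h3).trans (le_of_eq ?_)
  rw [av_mul, av_sum]
  congr 1
  refine Finset.sum_congr rfl fun i _ => ?_
  rw [av_swap (fun y z => dd i f (ov S z y) ^ 2)]
  exact av_ov S (fun x => dd i f x ^ 2)

end Pool.Agent.H2AD
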