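import Mathlib
import Pool.Agent.Hp22AA.Main
import Pool.Agent.H2AD.Defs
import Pool.Agent.H2AD.Final

/-!
Project H2AD (MP_f992e4_an.BoundedAdaptivity), third group of pieces.
-/

set_option autoImplicit false

namespace Pool.Agent.H2AD

open Finset Pool.Agent.Hp22AAD Pool.Agent.Hp22AA

/-- PIECE DEG (file `Pool/Agent/H2AD/Deg.lean`, theorem `deg : DEG`): the value after `r` rounds of at
most `T` queries is a polynomial of degree at most `2 r T`. Proof: call `F : (ι → ℤˣ) → ℂ` of degree
at most `d` if it is in the complex span of the functions `x ↦ ∏ i ∈ S, ((x i : ℤ) : ℂ)` with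
`S.card ≤ d` (`Submodule.span`). Closed under sums, complex multiples, complex conjugation (the
characters are real), and products (degrees add: `χ_S χ_S' = χ_(S Δ S')`, by
`Submodule.span_induction`). By induction on `s` all components `x ↦ A.state s x k` have degree at
most `s T`: `dg_apply` (file AlgRun.lean) for the oracle (multiplication by a character with
`(A.Q s k).card ≤ T`), and the components of `A.U s w` are fixed linear combinations of the
components of `w` (write `w = ∑ l, w l • EuclideanSpace.single l 1`). So
`x ↦ inner ℂ (A.state r x) (M (A.state r x))` (`PiLp.inner_apply`) has degree at most `2 r T`. Finally the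
coefficient of the real part of `F` at `S` is the real part of the average of `F χ_S`, which is `0` if
`d < S.card` by orthogonality (`av_chi_chi` in Hp22AA/Cube.lean). -/
def DEG : Prop :=
  ∀ (ι κ : Type) [Fintype ι] [DecidableEq ι] [Fintype κ] (T : ℕ) (A : Alg ι κ T)
    (M : Sp κ →L[ℂ] Sp κ) (r : ℕ), DegLE (A.value M r) (2 * r * T)

end Pool.Agent.H2AD
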